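import Pool.Agent.Lib.MP_fe1391_co.Thick51.Ser
import Pool.Agent.Lib.MP_fe1391_co.Tame.Trans
import Pool.Agent.Lib.MP_fe1391_co.Tame.Assemble

/-!
# From a set of normal vectors to an arrangement
-/

set_option autoImplicit false

namespace Pool.Agent.Lib.MP_fe1391_co.CX42

open MvPolynomial Pool.Agent.Lib.MP_fe1391_co.Tame Pool.Agent.Lib.MP_fe1391_co.Thick51

universe u

variable {K : Type u} [Field K] {ℓ : ℕ} {r : ℕ}

theorem trans_of51 (A : Finset (Submodule K (Fin ℓ → K))) (B : Finset (Fin ℓ → K))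
    (hP : ∀ P : (Fin ℓ → K) → Prop,
      (∀ (c : K) (b : Fin ℓ → K), c ≠ 0 → P b → P (c • b)) →
      ((∀ H ∈ A, ∀ a : Module.Dual K (Fin ℓ → K), LinearMap.ker a = H → P (Trans.vec a)) ↔
        ∀ b ∈ B, P b)) :
    Assemble.Psi K A = PS51 B ∧
      (Module.Free (S K ℓ) (LogA (S K ℓ) B 1) ↔ Module.Free (S K ℓ) (Assemble.LDer K A)) := by
  have hlog : ∀ {p : ℕ} (θ : AlternatingMap K (S K ℓ) (S K ℓ) (Fin p)),
      (∀ H ∈ A, ∀ a : Module.Dual K (Fin ℓ → K), LinearMap.ker a = H →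
        ∀ (v : Fin p → MvPolynomial (Fin ℓ) K) (j : Fin p),
          v j = (∑ i : Fin ℓ, MvPolynomial.C (a (Pi.single i 1)) * MvPolynomial.X i) →
          (∑ i : Fin ℓ, MvPolynomial.C (a (Pi.single i 1)) * MvPolynomial.X i) ∣ θ v) ↔
      ∀ b ∈ B, Trans.LogAt θ b := fun θ =>
    hP (fun b => Trans.LogAt θ b) (fun c b hc h => h.scale c b hc)
  have hlog' : ∀ θ : Derivation K (S K ℓ) (S K ℓ),
      (∀ H ∈ A, ∀ a : Module.Dual K (Fin ℓ → K), LinearMap.ker a = H →
        (∑ i : Fin ℓ, MvPolynomial.C (a (Pi.single i 1)) * MvPolynomial.X i) ∣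
          θ (∑ i : Fin ℓ, MvPolynomial.C (a (Pi.single i 1)) * MvPolynomial.X i)) ↔
      ∀ b ∈ B, lin b ∣ θ (lin b) := fun θ =>
    hP (fun b => lin b ∣ θ (lin b)) (fun c b hc h => by
      have h1 : θ (lin (c • b)) = C c * θ (lin b) := by
        rw [Trans.lin_smul, ← smul_eq_C_mul, Derivation.map_smul, smul_eq_C_mul]
      rw [h1]
      exact Trans.lin_smul_dvd hc (Dvd.dvd.mul_left h _))
  have h2 : ∀ p (k : ℕ), Module.finrank K (Assemble.MDeg K A p k) = dm51 B p k := by
    intro p k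
    obtain ⟨e⟩ : Nonempty (Assemble.MDeg K A p k ≃ₗ[K]
        (Hm grS (fun _ : (Fin p → Fin ℓ) => 0) (k : ℤ) ⊓
          (LogA (S K ℓ) B p).restrictScalars K : Submodule K ((Fin p → Fin ℓ) → S K ℓ))) := by
      unfold Assemble.MDeg
      refine Trans.exists_equiv (Trans.phiK (K := K) (ℓ := ℓ) p) _ _ ?_ ?_ ?_ ?_ ?_ ?_
      · exact ⟨Trans.Leib.zero, (hlog _).2 fun b _ v j _ => dvd_zero _,
          fun w => isHomogeneous_zero _ _ _⟩
      · rintro x ⟨hx1, hx2, hx3⟩ y ⟨hy1, hy2, hy3⟩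
        exact ⟨Trans.Leib.add hx1 hy1, (hlog _).2 fun b hb v j hv =>
          dvd_add ((hlog x).1 hx2 b hb v j hv) ((hlog y).1 hy2 b hb v j hv),
          fun w => (hx3 w).add (hy3 w)⟩
      · rintro c x ⟨hx1, hx2, hx3⟩
        refine ⟨Trans.Leib.ksmul hx1 c, (hlog _).2 fun b hb v j hv => ?_, fun w => ?_⟩
        · rw [AlternatingMap.smul_apply, smul_eq_C_mul]
          exact Dvd.dvd.mul_left ((hlog x).1 hx2 b hb v j hv) _
        · rw [AlternatingMap.smul_apply, smul_eq_C_mul]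
          exact (hx3 w).C_mul c
      · rintro x ⟨hx1, hx2, hx3⟩
        exact ⟨Trans.mem_Hm.2 hx3, Trans.phi_mem hx1 ((hlog x).1 hx2)⟩
      · rintro x ⟨hx1, _⟩ y ⟨hy1, _⟩ he
        exact Trans.phi_inj hx1 hy1 he
      · rintro t ⟨ht1, ht⟩
        have ht' : t ∈ LogA (S K ℓ) B p := ht
        refine ⟨Trans.psi t (Trans.mem_logA.1 ht').1, ⟨Trans.leib_psi _ _,
          (hlog _).2 fun b hb => Trans.psi_log ht' b hb, fun w => ?_⟩, Trans.phi_psi _ _⟩
        have h1 := Trans.mem_Hm.1 ht1 w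
        rw [← Trans.phi_psi t (Trans.mem_logA.1 ht').1] at h1
        exact h1
    exact e.finrank_eq
  have h3 : Module.Free (S K ℓ) (LogA (S K ℓ) B 1) ↔
        Module.Free (MvPolynomial (Fin ℓ) K)
          (Submodule.span (MvPolynomial (Fin ℓ) K)
            {θ : Derivation K (MvPolynomial (Fin ℓ) K) (MvPolynomial (Fin ℓ) K) |
              ∀ H ∈ A, ∀ a : Module.Dual K (Fin ℓ → K), LinearMap.ker a = H →
                (∑ i : Fin ℓ, MvPolynomial.C (a (Pi.single i 1)) * MvPolynomial.X i) ∣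
                  θ (∑ i : Fin ℓ, MvPolynomial.C (a (Pi.single i 1)) * MvPolynomial.X i)}) := by
    have hdel : ∀ (θ : Derivation K (S K ℓ) (S K ℓ)) (b : Fin ℓ → K) (w : Fin 1 → Fin ℓ)
        (j : Fin 1), ∑ i, C (b i) * Trans.del θ (Function.update w j i) = θ (lin b) := by
      intro θ b w j
      rw [Trans.der_lin]
      refine Finset.sum_congr rfl fun i _ => ?_
      rw [Trans.del_apply, Subsingleton.elim j 0, Function.update_self]
    refine Nonempty.elim (Trans.exists_equiv (Trans.del (K := K) (ℓ := ℓ))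
      {θ : Derivation K (MvPolynomial (Fin ℓ) K) (MvPolynomial (Fin ℓ) K) |
              ∀ H ∈ A, ∀ a : Module.Dual K (Fin ℓ → K), LinearMap.ker a = H →
                (∑ i : Fin ℓ, MvPolynomial.C (a (Pi.single i 1)) * MvPolynomial.X i) ∣
                  θ (∑ i : Fin ℓ, MvPolynomial.C (a (Pi.single i 1)) * MvPolynomial.X i)}
      (LogA (S K ℓ) B 1) ?_ ?_ ?_ ?_ ?_ ?_)
      fun e => ⟨fun h => Module.Free.of_equiv e.symm, fun h => Module.Free.of_equiv e⟩
    · exact (hlog' _).2 fun b _ => dvd_zero _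
    · intro x hx y hy
      exact (hlog' _).2 fun b hb => dvd_add ((hlog' x).1 hx b hb) ((hlog' y).1 hy b hb)
    · intro c x hx
      exact (hlog' _).2 fun b hb => Dvd.dvd.mul_left ((hlog' x).1 hx b hb) c
    · intro x hx
      refine Trans.mem_logA.2 ⟨⟨fun w hw => ?_, fun w i j hij => ?_⟩, fun b hb w j => ?_⟩
      · exact absurd (Function.injective_of_subsingleton w) hw
      · exact absurd (Subsingleton.elim i j) hij
      · rw [hdel]
        exact (hlog' x).1 hx b hb
    · intro x _ y _ he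
      apply derivation_ext
      intro i
      exact congrFun he (fun _ => i)
    · intro t ht
      refine ⟨mkDerivation K fun i => t fun _ => i, ?_, ?_⟩
      · refine (hlog' _).2 fun b hb => ?_
        by_cases hℓ : Nonempty (Fin ℓ)
        · have h1 := (Trans.mem_logA.1 ht).2 b hb (fun _ => hℓ.some) 0
          rw [Trans.der_lin]
          have h2 : ∀ i : Fin ℓ, (mkDerivation K fun i => t fun _ => i) (X i) =
              t (Function.update (fun _ => hℓ.some) 0 i) := by
            intro i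
            rw [mkDerivation_X]
            congr 1
            funext k
            rw [Subsingleton.elim k 0, Function.update_self]
          simp only [h2]
          exact h1
        · have : IsEmpty (Fin ℓ) := not_nonempty_iff.1 hℓ
          rw [Trans.der_lin, Finset.univ_eq_empty, Finset.sum_empty]
          exact dvd_zero _
      · funext w
        rw [Trans.del_apply, mkDerivation_X]
        congr 1
        funext k
        rw [Subsingleton.elim k 0]
  refine ⟨?_, h3⟩
  unfold Assemble.Psi PS51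
  refine Finset.sum_congr rfl fun p _ => ?_
  congr 1
  unfold DS51
  congr 1
  funext k
  congr 1
  exact h2 p k

/-- the linear functional with coefficient vector `b` -/
noncomputable def du51 (b : Fin ℓ → K) : Module.Dual K (Fin ℓ → K) := ∑ i, b i • LinearMap.proj i

theorem vec_du51 (b : Fin ℓ → K) : Trans.vec (du51 b) = b := by
  funext i
  unfold Trans.vec du51
  rw [LinearMap.sum_apply, Finset.sum_eq_single i]
  · simp
  · intro j _ hj
    simp [hj]
  · simp

theorem du_ne51 {b : Fin ℓ → K} (hb : b ≠ 0) : du51 b ≠ 0 := by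
  intro h
  apply hb
  rw [← vec_du51 b, h]
  rfl

open Classical in
/-- the arrangement of the kernels of the linear forms in `B` -/
noncomputable def Ar51 (B : Finset (Fin ℓ → K)) : Finset (Submodule K (Fin ℓ → K)) :=
  B.image fun b => LinearMap.ker (du51 b)

theorem ar_hyp51 (B : Finset (Fin ℓ → K)) (hB : Tame.Norm B) :
    ∀ H ∈ Ar51 B, ∃ a : Module.Dual K (Fin ℓ → K), a ≠ 0 ∧ LinearMap.ker a = H := by
  intro H hH
  obtain ⟨b, hb, rfl⟩ := Finset.mem_image.1 hH
  exact ⟨du51 b, du_ne51 (hB.ne b hb), rfl⟩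

theorem ar_hP51 (B : Finset (Fin ℓ → K)) (hB : Tame.Norm B) (P : (Fin ℓ → K) → Prop)
    (hs : ∀ (c : K) (b : Fin ℓ → K), c ≠ 0 → P b → P (c • b)) :
    (∀ H ∈ Ar51 B, ∀ a : Module.Dual K (Fin ℓ → K), LinearMap.ker a = H → P (Trans.vec a)) ↔
      ∀ b ∈ B, P b := by
  constructor
  · intro h b hb
    have := h _ (Finset.mem_image.2 ⟨b, hb, rfl⟩) (du51 b) rfl
    rwa [vec_du51] at this
  · intro h H hH a ha
    obtain ⟨b, hb, rfl⟩ := Finset.mem_image.1 hH
    obtain ⟨c, hc, hac⟩ := Trans.smul_of_ker (du_ne51 (hB.ne b hb)) ha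
    rw [hac, Trans.vec_smul, vec_du51]
    exact hs _ _ hc (h b hb)

/-- the adapter -/
theorem adp51 (B : Finset (Fin ℓ → K)) (hB : Tame.Norm B) :
    (∀ H ∈ Ar51 B, ∃ a : Module.Dual K (Fin ℓ → K), a ≠ 0 ∧ LinearMap.ker a = H) ∧
      Assemble.Psi K (Ar51 B) = PS51 B ∧
      (Module.Free (S K ℓ) (LogA (S K ℓ) B 1) ↔ Module.Free (S K ℓ) (Assemble.LDer K (Ar51 B))) :=
  ⟨ar_hyp51 B hB, trans_of51 _ _ (ar_hP51 B hB)⟩

end Pool.Agent.Lib.MP_fe1391_co.CX42
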