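import Pool.Agent.Lib.MP_fe1391_co.CX42.StProd81

/-!
# Products of arrangements are arrangements
-/

set_option autoImplicit false

namespace Pool.Agent.Lib.MP_fe1391_co.CX42

open MvPolynomial Pool.Agent.Lib.MP_fe1391_co.Tame Pool.Agent.Lib.MP_fe1391_co.Thick51

universe u

theorem mem_prodB {K : Type u} [Field K] {m n : ℕ} {B₁ : Finset (Fin m → K)}
    {B₂ : Finset (Fin n → K)} {b : Fin (m + n) → K} : b ∈ prodB B₁ B₂ ↔
      (∃ b₁ ∈ B₁, Fin.append b₁ 0 = b) ∨ ∃ b₂ ∈ B₂, Fin.append 0 b₂ = b := by
  classical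
  unfold prodB
  rw [Finset.mem_union, Finset.mem_image, Finset.mem_image]

theorem smul_append {K : Type u} [Field K] {m n : ℕ} (c : K) (u : Fin m → K) (v : Fin n → K) :
    c • (Fin.append u v : Fin (m + n) → K) = Fin.append (c • u) (c • v) := by
  funext i
  refine Fin.addCases (fun i => ?_) (fun i => ?_) i
  · rw [Pi.smul_apply, Fin.append_left, Fin.append_left, Pi.smul_apply]
  · rw [Pi.smul_apply, Fin.append_right, Fin.append_right, Pi.smul_apply]

theorem append_inj88 {K : Type u} {m n : ℕ} {u u' : Fin m → K} {v v' : Fin n → K}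
    (h : (Fin.append u v : Fin (m + n) → K) = Fin.append u' v') : u = u' ∧ v = v' := by
  constructor
  · funext i
    have := congrFun h (Fin.castAdd n i)
    rwa [Fin.append_left, Fin.append_left] at this
  · funext i
    have := congrFun h (Fin.natAdd m i)
    rwa [Fin.append_right, Fin.append_right] at this

theorem norm_prodB {K : Type u} [Field K] {m n : ℕ} {B₁ : Finset (Fin m → K)}
    {B₂ : Finset (Fin n → K)} (h₁ : Tame.Norm B₁) (h₂ : Tame.Norm B₂) :
    Tame.Norm (prodB B₁ B₂) := by
  have h0 : (Fin.append 0 0 : Fin (m + n) → K) = 0 := by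
    funext i
    refine Fin.addCases (fun i => ?_) (fun i => ?_) i
    · rw [Fin.append_left]
      rfl
    · rw [Fin.append_right]
      rfl
  constructor
  · intro b hb
    rcases mem_prodB.1 hb with ⟨u, hu, rfl⟩ | ⟨v, hv, rfl⟩
    · intro h
      rw [← h0] at h
      exact h₁.ne u hu (append_inj88 h).1
    · intro h
      rw [← h0] at h
      exact h₂.ne v hv (append_inj88 h).2
  · intro a ha b hb hab c hc
    rcases mem_prodB.1 ha with ⟨u, hu, rfl⟩ | ⟨u, hu, rfl⟩
    · rw [smul_append] at hc
      rcases mem_prodB.1 hb with ⟨v, hv, rfl⟩ | ⟨v, hv, rfl⟩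
      · have h3 := (append_inj88 hc).1
        refine h₁.ind u hu v hv (fun h => hab (by rw [h])) c h3
      · have h3 := (append_inj88 hc).2
        rw [smul_zero] at h3
        exact h₂.ne v hv h3
    · rw [smul_append] at hc
      rcases mem_prodB.1 hb with ⟨v, hv, rfl⟩ | ⟨v, hv, rfl⟩
      · have h3 := (append_inj88 hc).1
        rw [smul_zero] at h3
        exact h₁.ne v hv h3
      · have h3 := (append_inj88 hc).2
        refine h₂.ind u hu v hv (fun h => hab (by rw [h])) c h3

end Pool.Agent.Lib.MP_fe1391_co.CX42
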