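import Mathlib

/-!
# The counterexample in dimension sixteen: numbers and polynomials
-/

set_option autoImplicit false

namespace Pool.Agent.Lib.MP_fe1391_co.CX42.Num88

open Polynomial

/-- `1 + x + ... + x^(n-1)` -/
noncomputable def geo (n : ℕ) : ℤ[X] := ∑ j ∈ Finset.range n, X ^ j

/-- the Solomon-Terao polynomial at `t = -1` of the dual of `K_{3,3}` -/
noncomputable def f1 : ℤ[X] :=
  1 + 4 * X + 9 * X ^ 2 + 16 * X ^ 3 + 21 * X ^ 4 + 21 * X ^ 5 + 17 * X ^ 6 + 9 * X ^ 7 +
    3 * X ^ 8 + X ^ 9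

/-- the Solomon-Terao polynomial at `t = -1` of four braid arrangements and a generic
hyperplane -/
noncomputable def f2 : ℤ[X] := (1 + X) * geo 2 ^ 4 * geo 3 ^ 4 * (geo 4 ^ 4 - X)

theorem geo2 : geo 2 = 1 + X := by
  simp [geo, Finset.sum_range_succ]

theorem geo3 : geo 3 = 1 + X + X ^ 2 := by
  simp [geo, Finset.sum_range_succ]

theorem geo4 : geo 4 = 1 + X + X ^ 2 + X ^ 3 := by
  simp [geo, Finset.sum_range_succ]

theorem geo5 : geo 5 = 1 + X + X ^ 2 + X ^ 3 + X ^ 4 := by
  simp [geo, Finset.sum_range_succ]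

theorem f1_geo5 : f1 * geo 5 = (1 + X) * (geo 4 ^ 4 - X ^ 11) := by
  rw [f1, geo4, geo5]
  ring

theorem coeff_geo (n k : ℕ) : (geo n).coeff k = if k < n then 1 else 0 := by
  rw [geo, finsetSum_coeff]
  simp only [coeff_X_pow]
  simp

theorem natDegree_geo (n : ℕ) : (geo (n + 1)).natDegree = n := by
  apply le_antisymm
  · rw [natDegree_le_iff_coeff_eq_zero]
    intro k hk
    rw [coeff_geo, if_neg (by omega)]
  · apply le_natDegree_of_ne_zero
    rw [coeff_geo, if_pos (by omega)]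
    exact one_ne_zero

theorem geo_ne (n : ℕ) : geo (n + 1) ≠ 0 := by
  intro h
  have := coeff_geo (n + 1) 0
  rw [h, coeff_zero, if_pos (by omega)] at this
  exact zero_ne_one this

theorem reverse_geo (n : ℕ) : (geo (n + 1)).reverse = geo (n + 1) := by
  ext k
  rw [coeff_reverse, natDegree_geo, coeff_geo, coeff_geo]
  by_cases hk : k ≤ n
  · rw [revAt_le hk, if_pos (by omega), if_pos (by omega)]
  · rw [revAt_eq_self_of_lt (by omega)]

theorem reverse_one_add : (1 + X : ℤ[X]).reverse = 1 + X := by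
  rw [← geo2]
  exact reverse_geo 1

theorem eval_geo (n : ℕ) : (geo n).eval 1 = n := by
  rw [geo, eval_finsetSum]
  simp

theorem reverse_pow (p : ℤ[X]) (n : ℕ) : (p ^ n).reverse = p.reverse ^ n := by
  induction n with
  | zero => rw [pow_zero, pow_zero, ← C_1, reverse_C]
  | succ n ih => rw [pow_succ, reverse_mul_of_domain, ih, pow_succ]

theorem natDegree_geo4 : (geo 4 ^ 4).natDegree = 12 := by
  rw [natDegree_pow, natDegree_geo]

theorem natDegree_P (k : ℕ) (hk : k < 12) : (geo 4 ^ 4 - X ^ k).natDegree = 12 := by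
  rw [natDegree_sub_eq_left_of_natDegree_lt, natDegree_geo4]
  rw [natDegree_geo4, natDegree_X_pow]
  exact hk

theorem reverse_P (k : ℕ) (hk : k < 12) :
    (geo 4 ^ 4 - X ^ k).reverse = geo 4 ^ 4 - X ^ (12 - k) := by
  have h1 : reflect 12 (geo 4 ^ 4) = geo 4 ^ 4 := by
    have h2 := reverse_pow (geo 4) 4
    rw [reverse, natDegree_geo4, reverse_geo] at h2
    exact h2
  rw [reverse, natDegree_P k hk, reflect_sub, h1, reflect_monomial, revAt_le hk.le]

theorem f2_ne : f2 ≠ 0 := by
  have h1 : (1 + X : ℤ[X]) ≠ 0 := by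
    rw [← geo2]
    exact geo_ne 1
  have h2 : geo 4 ^ 4 - X ≠ 0 := by
    intro h
    have := natDegree_P 1 (by norm_num)
    rw [pow_one, h, natDegree_zero] at this
    exact absurd this (by norm_num)
  exact mul_ne_zero (mul_ne_zero (mul_ne_zero h1 (pow_ne_zero _ (geo_ne 1)))
    (pow_ne_zero _ (geo_ne 2))) h2

theorem f1_ne : f1 ≠ 0 := by
  intro h
  have h1 := f1_geo5
  rw [h, zero_mul] at h1
  have h2 := congrArg (eval 1) h1
  rw [eval_zero, eval_mul, eval_sub, eval_pow, eval_geo] at h2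
  simp at h2

theorem f_ne : f1 * f2 ≠ 0 := mul_ne_zero f1_ne f2_ne

/-- the product is palindromic -/
theorem reverse_f : (f1 * f2).reverse = f1 * f2 := by
  apply mul_right_cancel₀ (geo_ne 4)
  have h1 : f1 * f2 * geo 5 =
      (1 + X) * (geo 4 ^ 4 - X ^ 11) * ((1 + X) * geo 2 ^ 4 * geo 3 ^ 4 * (geo 4 ^ 4 - X ^ 1)) := by
    rw [← f1_geo5, f2, pow_one]
    ring
  have h2 : (f1 * f2).reverse * geo 5 = (f1 * f2 * geo 5).reverse := by
    rw [reverse_mul_of_domain (f1 * f2) (geo 5), reverse_geo]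
  rw [h2, h1]
  simp only [reverse_mul_of_domain, reverse_pow, reverse_one_add, reverse_geo,
    reverse_P 11 (by norm_num), reverse_P 1 (by norm_num)]
  norm_num
  ring

theorem natDegree_f : (f1 * f2).natDegree = 34 := by
  have h1 : (f1 * f2 * geo 5).natDegree = 38 := by
    have h2 : f1 * f2 * geo 5 =
      (geo 2) * (geo 4 ^ 4 - X ^ 11) * (geo 2 * geo 2 ^ 4 * geo 3 ^ 4 * (geo 4 ^ 4 - X ^ 1)) := by
      rw [show f1 * f2 * geo 5 = f1 * geo 5 * f2 by ring, f1_geo5, f2, pow_one, geo2]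
    have h3 : ∀ k < 12, (geo 4 ^ 4 - X ^ k : ℤ[X]) ≠ 0 := by
      intro k hk h
      have := natDegree_P k hk
      rw [h, natDegree_zero] at this
      exact absurd this (by norm_num)
    rw [h2]
    have g2 := geo_ne 1
    have g3 := geo_ne 2
    rw [natDegree_mul (mul_ne_zero g2 (h3 11 (by norm_num)))
      (mul_ne_zero (mul_ne_zero (mul_ne_zero g2 (pow_ne_zero _ g2)) (pow_ne_zero _ g3))
        (h3 1 (by norm_num))),
      natDegree_mul g2 (h3 11 (by norm_num)),
      natDegree_mul (mul_ne_zero (mul_ne_zero g2 (pow_ne_zero _ g2)) (pow_ne_zero _ g3))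
        (h3 1 (by norm_num)), natDegree_mul (mul_ne_zero g2 (pow_ne_zero _ g2)) (pow_ne_zero _ g3),
      natDegree_mul g2 (pow_ne_zero _ g2), natDegree_pow, natDegree_pow,
      natDegree_P 11 (by norm_num), natDegree_P 1 (by norm_num), natDegree_geo, natDegree_geo]
  rw [natDegree_mul f_ne (geo_ne 4), natDegree_geo] at h1
  omega

theorem eval_f : (f1 * f2).eval 1 = 67417920 := by
  rw [eval_mul, f1, f2]
  simp only [eval_add, eval_mul, eval_pow, eval_sub, eval_one, eval_X, eval_geo, eval_ofNat]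
  norm_num

/-- the arithmetic behind the product form -/
theorem arith {ι : Type*} [Fintype ι] [DecidableEq ι] (e : ι → ℕ) (h1 : ∏ i, (e i + 1) = 67417920)
    (h2 : ∑ i, e i = 34) : False := by
  have hp : Nat.Prime 17 := by norm_num
  have hd : 17 ∣ ∏ i, (e i + 1) := by
    rw [h1]
    norm_num
  obtain ⟨i, -, hi⟩ := (Nat.Prime.prime hp).exists_mem_finset_dvd hd
  have h3 := Finset.add_sum_erase Finset.univ e (Finset.mem_univ i)
  have h4 := Finset.mul_prod_erase Finset.univ (fun i => e i + 1) (Finset.mem_univ i)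
  rw [h2] at h3
  rw [h1] at h4
  obtain ⟨c, hc⟩ := hi
  have hc2 : c = 1 ∨ c = 2 := by omega
  have hd2 : 17 ∣ ∏ j ∈ Finset.univ.erase i, (e j + 1) := by
    rcases hc2 with rfl | rfl
    · simp only [hc] at h4
      omega
    · simp only [hc] at h4
      omega
  obtain ⟨j, hj, hj2⟩ := (Nat.Prime.prime hp).exists_mem_finset_dvd hd2
  have h5 := Finset.add_sum_erase (Finset.univ.erase i) e hj
  have h6 := Finset.mul_prod_erase (Finset.univ.erase i) (fun i => e i + 1) hj
  obtain ⟨b, hb⟩ := hj2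
  have hb2 : b = 1 := by omega
  have hc3 : c = 1 := by omega
  subst hb2 hc3
  have h7 : ∏ k ∈ (Finset.univ.erase i).erase j, (e k + 1) ≤
      2 ^ ∑ k ∈ (Finset.univ.erase i).erase j, e k := by
    rw [← Finset.prod_pow_eq_pow_sum]
    exact Finset.prod_le_prod' fun k _ => Nat.lt_two_pow_self
  have h8 : ∑ k ∈ (Finset.univ.erase i).erase j, e k = 2 := by omega
  rw [h8] at h7
  simp only [hc, hb] at h4 h6
  omega

/-- the product is not of the product form -/
theorem not_product {ι : Type*} [Fintype ι] (e : ι → ℕ) :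
    ((f1 * f2 : ℤ[X]) : PowerSeries ℤ) ≠
      ∏ i, ∑ j ∈ Finset.range (e i + 1), (PowerSeries.X : PowerSeries ℤ) ^ j := by
  classical
  intro h
  have h1 : ∏ i, ∑ j ∈ Finset.range (e i + 1), (PowerSeries.X : PowerSeries ℤ) ^ j =
      ((∏ i, geo (e i + 1) : ℤ[X]) : PowerSeries ℤ) := by
    have h2 : ∀ n, ((geo n : ℤ[X]) : PowerSeries ℤ) =
        ∑ j ∈ Finset.range n, (PowerSeries.X : PowerSeries ℤ) ^ j := by
      intro n
      rw [geo, ← Polynomial.coeToPowerSeries.ringHom_apply, map_sum]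
      refine Finset.sum_congr rfl fun j _ => ?_
      rw [map_pow, Polynomial.coeToPowerSeries.ringHom_apply, Polynomial.coe_X]
    rw [← Polynomial.coeToPowerSeries.ringHom_apply, map_prod]
    refine Finset.prod_congr rfl fun i _ => ?_
    rw [Polynomial.coeToPowerSeries.ringHom_apply, h2]
  rw [h1] at h
  have h3 : f1 * f2 = ∏ i, geo (e i + 1) := Polynomial.coe_injective ℤ h
  refine arith e ?_ ?_
  · have h4 := congrArg (eval 1) h3
    rw [eval_f, eval_prod] at h4
    simp only [eval_geo] at h4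
    have h5 : ((∏ i, (e i + 1) : ℕ) : ℤ) = 67417920 := by
      rw [h4]
      push_cast
      rfl
    exact_mod_cast h5
  · have h4 := congrArg natDegree h3
    rw [natDegree_f, natDegree_prod _ _ (fun i _ => geo_ne (e i))] at h4
    simp only [natDegree_geo] at h4
    exact h4.symm

end Pool.Agent.Lib.MP_fe1391_co.CX42.Num88
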