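import Pool.Agent.Lib.MP_fe1391_co.CX42.Adp51
import Pool.Agent.Lib.MP_fe1391_co.CX42.Data88
import Pool.Agent.Lib.MP_fe1391_co.CX42.Num88
import Pool.Agent.Lib.MP_fe1391_co.Tame.Saito
import Pool.Agent.Lib.MP_fe1391_co.Tame.Res
import Pool.Agent.Lib.MP_fe1391_co.Tame.GrLog
import Pool.Agent.Lib.MP_fe1391_co.Tame.Grad
import Pool.Agent.Lib.MP_fe1391_co.Tame.Minors

/-!
# The counterexample in dimension sixteen: assembly
-/

set_option autoImplicit false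

namespace Pool.Agent.Lib.MP_fe1391_co.CX42

open MvPolynomial Pool.Agent.Lib.MP_fe1391_co.Tame Pool.Agent.Lib.MP_fe1391_co.Thick51

/-- free arrangements have the product form -/
theorem fwd51 : stFwd.{0} :=
  Fwd.thm4 (Saito.thm (Res.thm Grad.thmS) GrLog.thm) (Fwd.thm3 Minors.thm Grad.thmS Grad.thmHS)

/-- an arrangement whose polynomial is `f1 * f2` is not free -/
theorem not_free51 {K : Type} [Field K] {ℓ : ℕ} (B : Finset (Fin ℓ → K)) (hB : Tame.Norm B)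
    (h : PS51 B = ((Num88.f1 * Num88.f2 : Polynomial ℤ) : PowerSeries ℤ)) :
    ¬ Module.Free (S K ℓ) (LogA (S K ℓ) B 1) := by
  intro hF
  obtain ⟨d, hd⟩ := fwd51 K ℓ B hB hF
  have h1 : PS51 B = ∏ i, ∑ j ∈ Finset.range (d i + 1), (PowerSeries.X : PowerSeries ℤ) ^ j := hd
  rw [h] at h1
  exact Num88.not_product d h1

/-- the equivalence of the problem for one arrangement -/
def Conj51 (K : Type) [Field K] {ℓ : ℕ} (A : Finset (Submodule K (Fin ℓ → K))) : Prop :=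
  Module.Free (MvPolynomial (Fin ℓ) K) (Assemble.LDer K A) ↔
    ∃ f : Polynomial ℤ, f ≠ 0 ∧ f.reverse = f ∧ (f : PowerSeries ℤ) = Assemble.Psi K A

theorem final51 {K : Type} [Field K] (B₁ : Finset (Fin 4 → K)) (B₂ : Finset (Fin 12 → K))
    (n₁ : Tame.Norm B₁) (n₂ : Tame.Norm B₂)
    (h₁ : PS51 B₁ = ((Num88.f1 : Polynomial ℤ) : PowerSeries ℤ))
    (h₂ : PS51 B₂ = ((Num88.f2 : Polynomial ℤ) : PowerSeries ℤ))
    (hP : PS51 (prodB B₁ B₂) = PS51 B₁ * PS51 B₂) :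
    ∃ (ℓ : ℕ) (A : Finset (Submodule K (Fin ℓ → K))),
      (∀ H ∈ A, ∃ a : Module.Dual K (Fin ℓ → K), a ≠ 0 ∧ LinearMap.ker a = H) ∧
      ¬ Conj51 K A := by
  have hn := norm_prodB n₁ n₂
  have h3 : PS51 (prodB B₁ B₂) = ((Num88.f1 * Num88.f2 : Polynomial ℤ) : PowerSeries ℤ) := by
    rw [hP, h₁, h₂, Polynomial.coe_mul]
  obtain ⟨a1, a2, a3⟩ := adp51 (prodB B₁ B₂) hn
  refine ⟨4 + 12, Ar51 (prodB B₁ B₂), a1, fun hc => ?_⟩
  apply not_free51 (prodB B₁ B₂) hn h3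
  rw [a3]
  refine hc.2 ⟨Num88.f1 * Num88.f2, Num88.f_ne, Num88.reverse_f, ?_⟩
  rw [a2, h3]

end Pool.Agent.Lib.MP_fe1391_co.CX42
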