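import Mathlib

set_option autoImplicit false

/-!
# Regular sequences built variable by variable (monic polynomials)
-/

namespace Pool.Agent.Lib.MP_fe1391_co.CX42.Reg49

open MvPolynomial

/-- `r` is regular modulo the ideal `J` -/
def RegMod {R : Type*} [CommRing R] (J : Ideal R) (r : R) : Prop := ∀ a, r * a ∈ J → a ∈ J

/-- the sequence `L` is regular modulo `J` (natural order) -/
def RegFrom {R : Type*} [CommRing R] : Ideal R → List R → Prop
  | _, [] => True
  | J, f :: L => RegMod J f ∧ RegFrom (J ⊔ Ideal.span {f}) L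

theorem regFrom_append {R : Type*} [CommRing R] :
    ∀ (L : List R) (J : Ideal R) (M : List R), RegFrom J L →
      RegFrom (J ⊔ Ideal.span {x | x ∈ L}) M → RegFrom J (L ++ M)
  | [], J, M, _, h => by simpa using h
  | f :: L, J, M, h, h' => by
      refine ⟨h.1, regFrom_append L _ M h.2 ?_⟩
      have : J ⊔ Ideal.span {x | x ∈ f :: L} = J ⊔ Ideal.span {f} ⊔ Ideal.span {x | x ∈ L} := by
        rw [sup_assoc, ← Ideal.span_union]
        congr 2
        ext x; simp
      rw [← this]; exact h'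

theorem regMod_unit {R : Type*} [CommRing R] {J : Ideal R} {r s u c : R} (hu : IsUnit u)
    (hc : c ∈ J) (h : RegMod J r) (hs : s = u * r + c) : RegMod J s := by
  intro a ha
  have h1 : u * (r * a) ∈ J := by
    have : u * (r * a) = s * a - c * a := by rw [hs]; ring
    rw [this]
    exact J.sub_mem ha (J.mul_mem_right _ hc)
  obtain ⟨v, rfl⟩ := hu
  have h2 : r * a ∈ J := by
    have : r * a = (↑v⁻¹ : R) * (v * (r * a)) := by rw [← mul_assoc, Units.inv_mul, one_mul]
    rw [this]; exact J.mul_mem_left _ h1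
  exact h a h2

theorem sup_unit {R : Type*} [CommRing R] {J : Ideal R} {r s u c : R} (hu : IsUnit u)
    (hc : c ∈ J) (hs : s = u * r + c) : J ⊔ Ideal.span {s} = J ⊔ Ideal.span {r} := by
  obtain ⟨v, rfl⟩ := hu
  apply le_antisymm
  · refine sup_le le_sup_left ?_
    rw [Ideal.span_le, Set.singleton_subset_iff, SetLike.mem_coe, hs]
    exact Ideal.add_mem _ (Ideal.mul_mem_left _ _ (Ideal.mem_sup_right
      (Ideal.mem_span_singleton_self r))) (Ideal.mem_sup_left hc)
  · refine sup_le le_sup_left ?_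
    rw [Ideal.span_le, Set.singleton_subset_iff, SetLike.mem_coe]
    have : r = (↑v⁻¹ : R) * s - ↑v⁻¹ * c := by
      rw [hs, mul_add, ← mul_assoc, Units.inv_mul, one_mul, add_sub_cancel_right]
    rw [this]
    exact Ideal.sub_mem _ (Ideal.mul_mem_left _ _ (Ideal.mem_sup_right
      (Ideal.mem_span_singleton_self s))) (Ideal.mem_sup_left (Ideal.mul_mem_left _ _ hc))

theorem regFrom_unit {R : Type*} [CommRing R] {J : Ideal R} {r s u c : R} {L : List R}
    (hu : IsUnit u) (hc : c ∈ J) (hs : s = u * r + c) (h : RegFrom J (r :: L)) :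
    RegFrom J (s :: L) :=
  ⟨regMod_unit hu hc h.1 hs, by rw [sup_unit hu hc hs]; exact h.2⟩

/-! ## Polynomial extension -/

theorem mem_map_C {R : Type*} [CommRing R] (I : Ideal R) (g : Polynomial R) :
    g ∈ I.map (Polynomial.C : R →+* Polynomial R) ↔ g.map (Ideal.Quotient.mk I) = 0 := by
  rw [Ideal.mem_map_C_iff, Polynomial.ext_iff]
  refine forall_congr' fun n => ?_
  rw [Polynomial.coeff_map, Polynomial.coeff_zero, Ideal.Quotient.eq_zero_iff_mem]

theorem mem_map_C_sup {R : Type*} [CommRing R] (I : Ideal R) (f g : Polynomial R) :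
    g ∈ I.map (Polynomial.C : R →+* Polynomial R) ⊔ Ideal.span {f} ↔
      f.map (Ideal.Quotient.mk I) ∣ g.map (Ideal.Quotient.mk I) := by
  constructor
  · intro h
    obtain ⟨a, ha, b, hb, rfl⟩ := Submodule.mem_sup.1 h
    obtain ⟨c, rfl⟩ := Ideal.mem_span_singleton'.1 hb
    rw [Polynomial.map_add, (mem_map_C I a).1 ha, zero_add, Polynomial.map_mul]
    exact Dvd.intro_left _ rfl
  · rintro ⟨q, hq⟩
    obtain ⟨q, rfl⟩ := Polynomial.map_surjective _ Ideal.Quotient.mk_surjective q
    have h1 : g - f * q ∈ I.map (Polynomial.C : R →+* Polynomial R) := by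
      rw [mem_map_C, Polynomial.map_sub, Polynomial.map_mul, hq, sub_self]
    have : g = (g - f * q) + f * q := by ring
    rw [this]
    exact Ideal.add_mem _ (Ideal.mem_sup_left h1) (Ideal.mem_sup_right
      (Ideal.mul_mem_right _ _ (Ideal.mem_span_singleton_self f)))

/-- a monic polynomial is regular modulo an extended ideal -/
theorem monic_reg {R : Type*} [CommRing R] (I : Ideal R) (f : Polynomial R) (hf : f.Monic) :
    RegMod (I.map (Polynomial.C : R →+* Polynomial R)) f := by
  intro a ha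
  rw [mem_map_C] at ha ⊢
  rw [Polynomial.map_mul] at ha
  exact (Polynomial.Monic.mul_right_eq_zero_iff (hf.map (Ideal.Quotient.mk I))).1 ha

/-- a regular element stays regular modulo a monic polynomial -/
theorem reg_monic {R : Type*} [CommRing R] (I : Ideal R) (f : Polynomial R) (hf : f.Monic)
    (r : R) (hr : RegMod I r) :
    RegMod (I.map (Polynomial.C : R →+* Polynomial R) ⊔ Ideal.span {f}) (Polynomial.C r) := by
  intro a ha
  rw [mem_map_C_sup] at ha ⊢
  set φ := Ideal.Quotient.mk I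
  have hm : (f.map φ).Monic := hf.map φ
  rw [Polynomial.map_mul, Polynomial.map_C] at ha
  rw [← Polynomial.modByMonic_eq_zero_iff_dvd hm] at ha ⊢
  rw [← Polynomial.smul_eq_C_mul, Polynomial.smul_modByMonic] at ha
  ext n
  have h1 := congrArg (fun q => Polynomial.coeff q n) ha
  simp only [Polynomial.coeff_smul, smul_eq_mul, Polynomial.coeff_zero] at h1
  rw [Polynomial.coeff_zero]
  obtain ⟨b, hb⟩ := Ideal.Quotient.mk_surjective ((a.map φ %ₘ f.map φ).coeff n)
  rw [← hb] at h1 ⊢
  rw [← map_mul, Ideal.Quotient.eq_zero_iff_mem] at h1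
  rw [Ideal.Quotient.eq_zero_iff_mem]
  exact hr b h1

theorem regFrom_C {R : Type*} [CommRing R] : ∀ (L : List R) (J : Ideal R), RegFrom J L →
    RegFrom (J.map (Polynomial.C : R →+* Polynomial R))
      (L.map (Polynomial.C : R →+* Polynomial R))
  | [], _, _ => trivial
  | r :: L, J, h => by
      refine ⟨fun a ha => ?_, ?_⟩
      · rw [Ideal.mem_map_C_iff] at ha ⊢
        intro n
        have := ha n
        rw [Polynomial.coeff_C_mul] at this
        exact h.1 _ this
      · have h2 := regFrom_C L _ h.2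
        rw [Ideal.map_sup, Ideal.map_span, Set.image_singleton] at h2
        exact h2

theorem regFrom_monic {R : Type*} [CommRing R] (f : Polynomial R) (hf : f.Monic) :
    ∀ (L : List R) (J : Ideal R), RegFrom J L →
    RegFrom (J.map (Polynomial.C : R →+* Polynomial R) ⊔ Ideal.span {f})
      (L.map (Polynomial.C : R →+* Polynomial R))
  | [], _, _ => trivial
  | r :: L, J, h => by
      refine ⟨reg_monic J f hf r h.1, ?_⟩
      have h2 := regFrom_monic f hf L _ h.2
      rw [Ideal.map_sup, Ideal.map_span, Set.image_singleton] at h2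
      rw [sup_assoc, sup_comm (Ideal.span {f}), ← sup_assoc]
      exact h2

theorem regFrom_equiv {R R' : Type*} [CommRing R] [CommRing R'] (e : R ≃+* R') :
    ∀ (L : List R) (J : Ideal R), RegFrom J L →
      RegFrom (J.map (e : R →+* R')) (L.map (e : R →+* R'))
  | [], _, _ => trivial
  | f :: L, J, h => by
      refine ⟨fun a ha => ?_, ?_⟩
      · have h1 : f * e.symm a ∈ J := by
          obtain ⟨y, hy, hy2⟩ :=
            (Ideal.mem_map_iff_of_surjective (e : R →+* R') e.surjective).1 ha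
          have : f * e.symm a = y := by
            apply e.injective
            rw [map_mul, e.apply_symm_apply]
            exact hy2.symm
          rw [this]; exact hy
        have h2 := Ideal.mem_map_of_mem (e : R →+* R') (h.1 _ h1)
        simpa using h2
      · have h2 := regFrom_equiv e L _ h.2
        rw [Ideal.map_sup, Ideal.map_span, Set.image_singleton] at h2
        exact h2

/-! ## In the polynomial ring in `n + 1` variables -/

theorem finSucc_rename {K : Type*} [CommRing K] {n : ℕ} (p : MvPolynomial (Fin n) K) :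
    finSuccEquiv K n (rename Fin.succ p) = Polynomial.C p := by
  induction p using MvPolynomial.induction_on with
  | C a => rw [rename_C, finSuccEquiv_apply]; simp
  | add p q hp hq => rw [map_add, map_add, hp, hq, map_add]
  | mul_X p i hp => rw [map_mul, map_mul, hp, rename_X, finSuccEquiv_X_succ, map_mul]

/-- the shift of the variables -/
noncomputable abbrev sh (K : Type*) [CommRing K] (n : ℕ) :
    MvPolynomial (Fin n) K →+* MvPolynomial (Fin (n + 1)) K :=
  (rename Fin.succ : MvPolynomial (Fin n) K →ₐ[K] MvPolynomial (Fin (n + 1)) K).toRingHom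

variable {K : Type*} [CommRing K] {n : ℕ}

theorem sh_eq : sh K n = (((finSuccEquiv K n).symm.toRingEquiv : _ ≃+* _) : _ →+* _).comp
    (Polynomial.C : MvPolynomial (Fin n) K →+* Polynomial (MvPolynomial (Fin n) K)) := by
  refine RingHom.ext fun p => ?_
  show rename Fin.succ p = (finSuccEquiv K n).symm (Polynomial.C p)
  rw [eq_comm, AlgEquiv.symm_apply_eq]
  exact (finSucc_rename p).symm

theorem reg_sh (L : List (MvPolynomial (Fin n) K)) (J : Ideal (MvPolynomial (Fin n) K))
    (h : RegFrom J L) : RegFrom (J.map (sh K n)) (L.map (sh K n)) := by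
  have h2 := regFrom_equiv (finSuccEquiv K n).symm.toRingEquiv _ _ (regFrom_C L J h)
  rw [Ideal.map_map, List.map_map] at h2
  rw [sh_eq]; exact h2

theorem reg_insert (L : List (MvPolynomial (Fin n) K)) (J : Ideal (MvPolynomial (Fin n) K))
    (h : RegFrom J L) (F : MvPolynomial (Fin (n + 1)) K) (hF : (finSuccEquiv K n F).Monic) :
    RegFrom (J.map (sh K n)) (F :: L.map (sh K n)) := by
  have h1 : RegFrom (J.map (Polynomial.C : MvPolynomial (Fin n) K →+*
      Polynomial (MvPolynomial (Fin n) K))) (finSuccEquiv K n F ::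
      L.map (Polynomial.C : MvPolynomial (Fin n) K →+* Polynomial (MvPolynomial (Fin n) K))) :=
    ⟨monic_reg J _ hF, regFrom_monic _ hF L J h⟩
  have h2 := regFrom_equiv (finSuccEquiv K n).symm.toRingEquiv _ _ h1
  rw [Ideal.map_map, List.map_cons, List.map_map] at h2
  have e1 : ((finSuccEquiv K n).symm.toRingEquiv : _ →+* _) (finSuccEquiv K n F) = F :=
    (finSuccEquiv K n).symm_apply_apply F
  rw [e1] at h2
  rw [sh_eq]; exact h2

/-! ## Power sums of blocks of three variables -/

/-- the power sum of three variables -/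
noncomputable def pk (K : Type*) [CommRing K] {n : ℕ} (a b c : Fin n) (k : ℕ) :
    MvPolynomial (Fin n) K := X a ^ k + X b ^ k + X c ^ k

theorem sh_X (i : Fin n) : sh K n (X i) = X i.succ := rename_X _ _

theorem sh_pk (a b c : Fin n) (k : ℕ) : sh K n (pk K a b c k) = pk K a.succ b.succ c.succ k := by
  unfold pk
  rw [map_add, map_add, map_pow, map_pow, map_pow, sh_X, sh_X, sh_X]

theorem monic_a : (finSuccEquiv K n (X 0 ^ 3)).Monic := by
  rw [map_pow, finSuccEquiv_X_zero]
  exact Polynomial.monic_X_pow 3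

theorem monic_b : (finSuccEquiv K (n + 1) (X 0 ^ 2 + X 0 * X 1 + X 1 ^ 2)).Monic := by
  have h1 : (1 : Fin (n + 2)) = Fin.succ 0 := rfl
  rw [map_add, map_add, map_mul, map_pow, map_pow, finSuccEquiv_X_zero, h1, finSuccEquiv_X_succ]
  have : (Polynomial.X ^ 2 + Polynomial.X * Polynomial.C (X 0 : MvPolynomial (Fin (n + 1)) K) +
      Polynomial.C (X 0) ^ 2) = Polynomial.X ^ 2 + (Polynomial.C (X 0) * Polynomial.X +
      Polynomial.C (X 0 ^ 2)) := by
    rw [Polynomial.C_pow]; ring
  rw [this]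
  refine Polynomial.monic_X_pow_add ?_
  exact lt_of_le_of_lt Polynomial.degree_linear_le (by norm_num)

theorem monic_c : (finSuccEquiv K (n + 2) (X 0 + X 1 + X 2)).Monic := by
  have h1 : (1 : Fin (n + 3)) = Fin.succ 0 := rfl
  have h2 : (2 : Fin (n + 3)) = Fin.succ 1 := rfl
  rw [map_add, map_add, finSuccEquiv_X_zero, h1, h2, finSuccEquiv_X_succ, finSuccEquiv_X_succ,
    add_assoc, ← Polynomial.C_add]
  exact Polynomial.monic_X_add_C _

theorem reg_block (L : List (MvPolynomial (Fin n) K)) (h : RegFrom ⊥ L) (h2 : IsUnit (2 : K))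
    (h3 : IsUnit (3 : K)) :
    RegFrom ⊥ (pk K 0 1 2 1 :: pk K 0 1 2 2 :: pk K 0 1 2 3 ::
      ((L.map (sh K n)).map (sh K (n + 1))).map (sh K (n + 2))) := by
  have r1 := reg_insert L ⊥ h (X 0 ^ 3) monic_a
  rw [Ideal.map_bot] at r1
  have r2 := reg_insert _ ⊥ r1 (X 0 ^ 2 + X 0 * X 1 + X 1 ^ 2) monic_b
  rw [Ideal.map_bot] at r2
  have r3 := reg_insert _ ⊥ r2 (X 0 + X 1 + X 2) monic_c
  rw [Ideal.map_bot] at r3
  have e1 : (1 : Fin (n + 3)) = Fin.succ 0 := rfl
  have e2 : (2 : Fin (n + 3)) = Fin.succ 1 := rfl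
  have e3 : (1 : Fin (n + 2)) = Fin.succ 0 := rfl
  simp only [List.map_cons, map_add, map_mul, map_pow, sh_X, ← e1, ← e2, ← e3] at r3
  obtain ⟨q1, q2, q3, q4⟩ := r3
  have u2 : IsUnit (2 : MvPolynomial (Fin (n + 3)) K) := by
    have := h2.map (C : K →+* MvPolynomial (Fin (n + 3)) K)
    rwa [map_ofNat] at this
  have u3 : IsUnit (3 : MvPolynomial (Fin (n + 3)) K) := by
    have := h3.map (C : K →+* MvPolynomial (Fin (n + 3)) K)
    rwa [map_ofNat] at this
  have p1 : pk K (0 : Fin (n + 3)) 1 2 1 = X 0 + X 1 + X 2 := by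
    unfold pk; ring
  refine ⟨by rw [p1]; exact q1, ?_⟩
  rw [p1]
  set h1' : MvPolynomial (Fin (n + 3)) K := X 0 + X 1 + X 2 with hh1
  set J1 : Ideal (MvPolynomial (Fin (n + 3)) K) := ⊥ ⊔ Ideal.span {h1'} with hJ1
  have m1 : h1' ∈ J1 := Ideal.mem_sup_right (Ideal.mem_span_singleton_self _)
  refine regFrom_unit (c := (X 0 - X 1 - X 2) * h1') u2 (Ideal.mul_mem_left _ _ m1) ?_ ⟨q2, ?_⟩
  · rw [hh1]; unfold pk; ring
  · set J2 := J1 ⊔ Ideal.span {(X 1 ^ 2 + X 1 * X 2 + X 2 ^ 2 : MvPolynomial (Fin (n + 3)) K)}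
      with hJ2
    refine regFrom_unit (c := (X 0 ^ 2 - X 0 * (X 1 + X 2) + (X 1 + X 2) ^ 2) * h1' -
      3 * X 2 * (X 1 ^ 2 + X 1 * X 2 + X 2 ^ 2)) u3 ?_ ?_ ⟨q3, q4⟩
    · exact Ideal.sub_mem _ (Ideal.mul_mem_left _ _ (Ideal.mem_sup_left m1))
        (Ideal.mul_mem_left _ _ (Ideal.mem_sup_right (Ideal.mem_span_singleton_self _)))
    · rw [hh1]; unfold pk; ring

theorem regFrom_get {R : Type*} [CommRing R] : ∀ (L : List R) (J : Ideal R), RegFrom J L →
    ∀ (i : ℕ) (hi : i < L.length), RegMod (J ⊔ Ideal.span {x | x ∈ L.take i}) L[i]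
  | [], _, _, i, hi => absurd hi (Nat.not_lt_zero _)
  | f :: L, J, h, 0, _ => by simpa using h.1
  | f :: L, J, h, i + 1, hi => by
      have := regFrom_get L _ h.2 i (Nat.lt_of_succ_lt_succ hi)
      have e : J ⊔ Ideal.span {x | x ∈ (f :: L).take (i + 1)} =
          J ⊔ Ideal.span {f} ⊔ Ideal.span {x | x ∈ L.take i} := by
        rw [sup_assoc, ← Ideal.span_union]
        congr 2
        ext x; simp
      rw [e]; exact this

/-- a regular list gives a regular sequence indexed by `Fin m` -/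
theorem reg_fin {R : Type*} [CommRing R] {m : ℕ} (g : Fin m → R)
    (h : RegFrom ⊥ (List.ofFn g)) (i : Fin m) (a : R)
    (ha : g i * a ∈ Ideal.span (g '' {j | j < i})) : a ∈ Ideal.span (g '' {j | j < i}) := by
  have hl : (i : ℕ) < (List.ofFn g).length := by simp
  have h1 := regFrom_get _ _ h i hl
  have e : {x | x ∈ (List.ofFn g).take i} = g '' {j | j < i} := by
    ext x
    simp only [Set.mem_ofPred_eq, Set.mem_image, List.mem_take_iff_getElem, List.getElem_ofFn]
    constructor
    · rintro ⟨j, hj, rfl⟩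
      have hj' : j < (i : ℕ) := lt_of_lt_of_le hj (min_le_left _ _)
      exact ⟨⟨j, by omega⟩, hj', rfl⟩
    · rintro ⟨j, hj, rfl⟩
      refine ⟨j, ?_, rfl⟩
      simp only [List.length_ofFn, lt_min_iff]
      exact ⟨hj, j.2⟩
  rw [bot_sup_eq, e, List.getElem_ofFn] at h1
  exact h1 a ha

/-- the power sums of the four blocks of three variables -/
noncomputable def gv (K : Type*) [CommRing K] : Fin 12 → MvPolynomial (Fin 12) K := fun i =>
  ∑ j : Fin 3, X ⟨3 * ((i : ℕ) / 3) + j, by omega⟩ ^ ((i : ℕ) % 3 + 1)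

theorem gv_list (K : Type*) [CommRing K] : List.ofFn (gv K) =
    [pk K 0 1 2 1, pk K 0 1 2 2, pk K 0 1 2 3, pk K 3 4 5 1, pk K 3 4 5 2, pk K 3 4 5 3,
     pk K 6 7 8 1, pk K 6 7 8 2, pk K 6 7 8 3, pk K 9 10 11 1, pk K 9 10 11 2,
     pk K 9 10 11 3] := by
  simp only [List.ofFn_succ, List.ofFn_zero]
  simp only [gv, pk, Fin.sum_univ_three]
  rfl

/-- REG49: the twelve power sums form a regular sequence (2 and 3 invertible) -/
theorem reg49 (K : Type*) [CommRing K] (h2 : IsUnit (2 : K)) (h3 : IsUnit (3 : K)) :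
    ∀ (i : Fin 12) (a : MvPolynomial (Fin 12) K),
      gv K i * a ∈ Ideal.span (gv K '' {j | j < i}) → a ∈ Ideal.span (gv K '' {j | j < i}) := by
  intro i a
  refine reg_fin (gv K) ?_ i a
  rw [gv_list]
  have r1 := reg_block (K := K) (n := 0) [] trivial h2 h3
  have r2 := reg_block _ r1 h2 h3
  have r3 := reg_block _ r2 h2 h3
  have r4 := reg_block _ r3 h2 h3
  simp only [List.map_cons, List.map_nil, sh_pk] at r4
  exact r4

end Pool.Agent.Lib.MP_fe1391_co.CX42.Reg49
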