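import Pool.Agent.Lib.MP_fe1391_co.Tame.Stmts2
import Pool.Agent.Lib.MP_fe1391_co.CX42.Reg49

set_option autoImplicit false

/-!
# Four braid arrangements: the normal vectors, the Saito matrix
-/

namespace Pool.Agent.Lib.MP_fe1391_co.CX42.Sai49

open MvPolynomial Pool.Agent.Lib.MP_fe1391_co.Tame

universe u

/-- the coordinate `k` of block `b` -/
def ix (b : Fin 4) (k : Fin 3) : Fin 12 := finProdFinEquiv (b, k)

theorem ix_val (b : Fin 4) (k : Fin 3) : (ix b k : ℕ) = k + 3 * b := rfl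

theorem ix_div (b : Fin 4) (k : Fin 3) : (ix b k : ℕ) / 3 = b := by
  rw [ix_val]; omega

theorem ix_mod (b : Fin 4) (k : Fin 3) : (ix b k : ℕ) % 3 = k := by
  rw [ix_val]; omega

theorem ix_surj (i : Fin 12) : ∃ b k, i = ix b k := by
  let e : Fin 4 × Fin 3 ≃ Fin 12 := finProdFinEquiv
  exact ⟨(e.symm i).1, (e.symm i).2, (e.apply_symm_apply i).symm⟩

theorem sum_ix {M : Type*} [AddCommMonoid M] (f : Fin 12 → M) :
    ∑ i, f i = ∑ b : Fin 4, ∑ k : Fin 3, f (ix b k) := by
  rw [← Fintype.sum_prod_type' (f := fun b k => f (ix b k))]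
  exact (Fintype.sum_equiv (finProdFinEquiv : Fin 4 × Fin 3 ≃ Fin 12) _ _ (fun x => rfl)).symm

/-- the six roots of the braid arrangement -/
def cf : Fin 6 → Fin 3 → ℤ :=
  ![![1, 0, 0], ![0, 1, 0], ![0, 0, 1], ![1, -1, 0], ![1, 0, -1], ![0, 1, -1]]

/-- the normal vectors, integer version -/
def bz (p : Fin 4 × Fin 6) : Fin 12 → ℤ := fun i =>
  if (i : ℕ) / 3 = (p.1 : ℕ) then cf p.2 ⟨(i : ℕ) % 3, Nat.mod_lt _ (by norm_num)⟩ else 0

/-- the normal vectors -/
def bf (K : Type u) [Field K] (p : Fin 4 × Fin 6) : Fin 12 → K := fun i => (bz p i : K)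

theorem bz_ix (p : Fin 4 × Fin 6) (b : Fin 4) (k : Fin 3) :
    bz p (ix b k) = if b = p.1 then cf p.2 k else 0 := by
  have h : (⟨(ix b k : ℕ) % 3, Nat.mod_lt _ (by norm_num)⟩ : Fin 3) = k := Fin.ext (ix_mod b k)
  unfold bz
  rw [ix_div, h]
  by_cases hb : b = p.1
  · rw [if_pos (by rw [hb]), if_pos hb]
  · rw [if_neg (fun h => hb (Fin.ext h)), if_neg hb]

theorem bz_vals : ∀ p i, bz p i = 0 ∨ bz p i = 1 ∨ bz p i = -1 := by decide

theorem bf_ne (K : Type u) [Field K] (p : Fin 4 × Fin 6) (i : Fin 12) :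
    bf K p i ≠ 0 ↔ bz p i ≠ 0 := by
  unfold bf
  rcases bz_vals p i with h | h | h <;> simp [h]

/-- the support of a vector -/
theorem supp_of_smul {K : Type u} [Field K] {l : ℕ} {a b : Fin l → K} (hb : b ≠ 0) {c : K}
    (h : b = c • a) (i : Fin l) : b i ≠ 0 ↔ a i ≠ 0 := by
  have hc : c ≠ 0 := by
    rintro rfl
    exact hb (by rw [h, zero_smul])
  rw [h, Pi.smul_apply, smul_eq_mul]
  constructor
  · exact fun h => right_ne_zero_of_mul h
  · exact fun h => mul_ne_zero hc h

theorem bz_supp : ∀ p q : Fin 4 × Fin 6, (∀ i, bz p i ≠ 0 ↔ bz q i ≠ 0) → p = q := by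
  decide +kernel

theorem bz_nz : ∀ p : Fin 4 × Fin 6, ∃ i, bz p i ≠ 0 := by decide

theorem bz_z : ∀ p : Fin 4 × Fin 6, ∃ i, bz p i = 0 := by decide

theorem bf_inj (K : Type u) [Field K] : Function.Injective (bf K) := by
  intro p q h
  apply bz_supp
  intro i
  rw [← bf_ne K, ← bf_ne K, h]

open Classical in
/-- the normal vectors of four braid arrangements in dimension twelve -/
noncomputable def B24 (K : Type u) [Field K] : Finset (Fin 12 → K) := Finset.univ.image (bf K)

open Classical in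
/-- with the hyperplane `x_1 + ... + x_12 = 0` -/
noncomputable def B25 (K : Type u) [Field K] : Finset (Fin 12 → K) :=
  insert (fun _ => 1) (B24 K)

theorem bf_nz (K : Type u) [Field K] (p : Fin 4 × Fin 6) : bf K p ≠ 0 := by
  obtain ⟨i, hi⟩ := bz_nz p
  intro h
  exact (bf_ne K p i).2 hi (by rw [h]; rfl)

theorem norm24 (K : Type u) [Field K] : Tame.Norm (B24 K) := by
  classical
  constructor
  · intro b hb
    obtain ⟨p, -, rfl⟩ := Finset.mem_image.1 hb
    exact bf_nz K p
  · intro a ha b hb hab c h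
    obtain ⟨p, -, rfl⟩ := Finset.mem_image.1 ha
    obtain ⟨q, -, rfl⟩ := Finset.mem_image.1 hb
    apply hab
    congr 1
    apply bz_supp
    intro i
    rw [← bf_ne K, ← bf_ne K]
    exact (supp_of_smul (bf_nz K q) h i).symm

theorem one_not_mem (K : Type u) [Field K] : (fun _ => 1 : Fin 12 → K) ∉ B24 K := by
  classical
  intro h
  obtain ⟨p, -, hp⟩ := Finset.mem_image.1 h
  obtain ⟨i, hi⟩ := bz_z p
  have := congrFun hp i
  unfold bf at this
  rw [hi] at this
  simp at this

theorem norm25 (K : Type u) [Field K] : Tame.Norm (B25 K) := by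
  classical
  have h1 : (fun _ => 1 : Fin 12 → K) ≠ 0 := fun h => one_ne_zero (congrFun h 0)
  constructor
  · intro b hb
    rcases Finset.mem_insert.1 hb with rfl | hb
    · exact h1
    · exact (norm24 K).ne b hb
  · intro a ha b hb hab c h
    rcases Finset.mem_insert.1 ha with rfl | ha
    · rcases Finset.mem_insert.1 hb with rfl | hb
      · exact hab rfl
      · obtain ⟨q, -, rfl⟩ := Finset.mem_image.1 hb
        obtain ⟨i, hi⟩ := bz_z q
        exact (bf_ne K q i).1 ((supp_of_smul (bf_nz K q) h i).2 one_ne_zero) hi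
    · rcases Finset.mem_insert.1 hb with rfl | hb
      · obtain ⟨q, -, rfl⟩ := Finset.mem_image.1 ha
        obtain ⟨i, hi⟩ := bz_z q
        exact (bf_ne K q i).1 ((supp_of_smul h1 h i).1 one_ne_zero) hi
      · exact (norm24 K).ind a ha b hb hab c h

/-- the degrees -/
def dg (i : Fin 12) : ℕ := (i : ℕ) % 3 + 1

/-- the Saito matrix -/
noncomputable def th (K : Type u) [Field K] : Matrix (Fin 12) (Fin 12) (S K 12) := fun i j =>
  if (j : ℕ) / 3 = (i : ℕ) / 3 then X j ^ ((i : ℕ) % 3 + 1) else 0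

theorem th_ix (K : Type u) [Field K] (b b' : Fin 4) (k k' : Fin 3) :
    th K (ix b k) (ix b' k') = if b' = b then X (ix b' k') ^ ((k : ℕ) + 1) else 0 := by
  unfold th
  rw [ix_div, ix_div, ix_mod]
  by_cases h : b' = b
  · rw [if_pos (by rw [h]), if_pos h]
  · rw [if_neg (fun h' => h (Fin.ext h')), if_neg h]

theorem lin_bf (K : Type u) [Field K] (p : Fin 4 × Fin 6) :
    lin (bf K p) = ∑ k : Fin 3, C (cf p.2 k : K) * X (ix p.1 k) := by
  unfold lin bf
  rw [sum_ix, Finset.sum_eq_single p.1]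
  · refine Finset.sum_congr rfl fun k _ => ?_
    rw [bz_ix, if_pos rfl]
  · intro b _ hb
    refine Finset.sum_eq_zero fun k _ => ?_
    rw [bz_ix, if_neg hb]
    simp
  · intro h
    exact absurd (Finset.mem_univ _) h

theorem log24 (K : Type u) [Field K] (i : Fin 12) (b : Fin 12 → K) (hb : b ∈ B24 K) :
    lin b ∣ ∑ j, C (b j) * th K i j := by
  classical
  obtain ⟨p, -, rfl⟩ := Finset.mem_image.1 hb
  obtain ⟨b₀, k₀, rfl⟩ := ix_surj i
  rw [sum_ix]
  by_cases hb₀ : b₀ = p.1
  · subst hb₀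
    rw [Finset.sum_eq_single p.1]
    · rw [lin_bf]
      have e : ∀ k, C (bf K p (ix p.1 k)) * th K (ix p.1 k₀) (ix p.1 k) =
          C (cf p.2 k : K) * X (ix p.1 k) ^ ((k₀ : ℕ) + 1) := by
        intro k
        rw [th_ix, if_pos rfl]
        unfold bf
        rw [bz_ix, if_pos rfl]
      simp only [e]
      obtain ⟨p1, p2⟩ := p
      simp only [Fin.sum_univ_three]
      fin_cases p2 <;>
        simp [cf, ← sub_eq_add_neg, pow_succ] <;>
        rw [← pow_succ, ← pow_succ] <;> exact sub_dvd_pow_sub_pow _ _ _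
    · intro b _ hb
      refine Finset.sum_eq_zero fun k _ => ?_
      rw [th_ix, if_neg hb, mul_zero]
    · intro h
      exact absurd (Finset.mem_univ _) h
  · have : ∑ b : Fin 4, ∑ k : Fin 3, C (bf K p (ix b k)) * th K (ix b₀ k₀) (ix b k) = 0 := by
      refine Finset.sum_eq_zero fun b _ => Finset.sum_eq_zero fun k _ => ?_
      rw [th_ix]
      by_cases h : b = b₀
      · unfold bf
        rw [bz_ix, if_neg (by rw [h]; exact hb₀)]
        simp
      · rw [if_neg h, mul_zero]
    rw [this]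
    exact dvd_zero _

theorem det24 (K : Type u) [Field K] : (th K).det = Qof (B24 K) := by
  classical
  let e : Fin 3 × Fin 4 ≃ Fin 12 := (Equiv.prodComm _ _).trans finProdFinEquiv
  have he : ∀ k b, e (k, b) = ix b k := fun k b => rfl
  rw [← Matrix.det_submatrix_equiv_self e]
  have h1 : (th K).submatrix e e = Matrix.blockDiagonal
      (fun b : Fin 4 => (Matrix.of fun k k' => X (ix b k') ^ ((k : ℕ) + 1) :
        Matrix (Fin 3) (Fin 3) (S K 12))) := by
    refine Matrix.ext fun x y => ?_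
    obtain ⟨k, b⟩ := x
    obtain ⟨k', b'⟩ := y
    rw [Matrix.submatrix_apply, he, he, th_ix, Matrix.blockDiagonal_apply]
    by_cases h : b = b'
    · subst h; rw [if_pos rfl, if_pos rfl]; rfl
    · rw [if_neg h, if_neg (Ne.symm h)]
  rw [h1, Matrix.det_blockDiagonal]
  have h2 : Qof (B24 K) = ∏ b : Fin 4, ∏ k : Fin 6, lin (bf K (b, k)) := by
    unfold Qof B24
    rw [Finset.prod_image (fun p _ q _ h => bf_inj K h)]
    exact Fintype.prod_prod_type _
  rw [h2]
  have h3 : ∀ b : Fin 4, Matrix.det (Matrix.of fun k k' => X (ix b k') ^ ((k : ℕ) + 1) :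
      Matrix (Fin 3) (Fin 3) (S K 12)) = (-1) * ∏ k : Fin 6, lin (bf K (b, k)) := by
    intro b
    rw [Matrix.det_fin_three]
    simp only [lin_bf, Fin.prod_univ_succ, Fin.sum_univ_three]
    simp [cf]
    ring
  have h4 : ((-1 : S K 12)) ^ 4 = 1 := by norm_num
  rw [Finset.prod_congr rfl (fun b _ => h3 b), Finset.prod_mul_distrib, Finset.prod_const,
    Finset.card_univ, Fintype.card_fin, h4, one_mul]

theorem isSaito49 (K : Type u) [Field K] : IsSaito (B24 K) dg (th K) := by
  refine ⟨fun i j => ?_, log24 K, ⟨1, one_ne_zero, by rw [det24, C_1, one_mul]⟩⟩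
  unfold th dg
  split_ifs
  · exact isHomogeneous_X_pow _ _
  · exact isHomogeneous_zero _ _ _

/-- the values on the sum of the coordinates -/
theorem val49 (K : Type u) [Field K] (i : Fin 12) :
    ∑ j, C ((fun _ => 1 : Fin 12 → K) j) * th K i j = Reg49.gv K i := by
  obtain ⟨b₀, k₀, rfl⟩ := ix_surj i
  rw [sum_ix, Finset.sum_eq_single b₀]
  · unfold Reg49.gv
    refine Finset.sum_congr rfl fun k _ => ?_
    rw [th_ix, if_pos rfl, C_1, one_mul]
    congr 2
    · apply Fin.ext
      show (k : ℕ) + 3 * b₀ = 3 * ((ix b₀ k₀ : ℕ) / 3) + k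
      rw [ix_div]; ring
    · rw [ix_mod]
  · intro b _ hb
    refine Finset.sum_eq_zero fun k _ => ?_
    rw [th_ix, if_neg hb, mul_zero]
  · intro h
    exact absurd (Finset.mem_univ _) h

end Pool.Agent.Lib.MP_fe1391_co.CX42.Sai49
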