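import Pool.Agent.Lib.MP_fe1391_co.CX42.Dim42
import Pool.Agent.Lib.MP_fe1391_co.CX42.Sai49

/-!
# The number of hyperplanes
-/

set_option autoImplicit false

namespace Pool.Agent.Lib.MP_fe1391_co.CX42

open MvPolynomial Pool.Agent.Lib.MP_fe1391_co.Tame Pool.Agent.Lib.MP_fe1391_co.Thick51

universe u

theorem card_Ar42 {K : Type u} [Field K] {ℓ : ℕ} {B : Finset (Fin ℓ → K)} (hB : Tame.Norm B) :
    (Ar51 B).card = B.card := by
  classical
  unfold Ar51
  refine Finset.card_image_of_injOn fun a ha b hb h => ?_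
  by_contra hab
  obtain ⟨c, hc, hac⟩ := Trans.smul_of_ker (du_ne51 (hB.ne a ha)) h.symm
  apply hB.ind a ha b hb hab c
  have h1 := congrArg Trans.vec hac
  rw [Trans.vec_smul, vec_du51, vec_du51] at h1
  exact h1

theorem card_prodB42 {K : Type u} [Field K] {m n : ℕ} {B₁ : Finset (Fin m → K)}
    {B₂ : Finset (Fin n → K)} (h₁ : Tame.Norm B₁) : (prodB B₁ B₂).card = B₁.card + B₂.card := by
  classical
  unfold prodB
  rw [Finset.card_union_of_disjoint, Finset.card_image_of_injective, Finset.card_image_of_injective]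
  · intro a b h
    exact (append_inj88 h).2
  · intro a b h
    exact (append_inj88 h).1
  · rw [Finset.disjoint_left]
    intro a ha hb
    obtain ⟨x, hx, rfl⟩ := Finset.mem_image.1 ha
    obtain ⟨y, hy, h⟩ := Finset.mem_image.1 hb
    exact h₁.ne x hx (append_inj88 h).1.symm

theorem card_ext42 {K : Type u} [Field K] {n : ℕ} {B : Finset (Fin n → K)} (hB : Tame.Norm B) :
    ∀ k : ℕ, (ext42 B k).card = B.card + k
  | 0 => rfl
  | k + 1 => by
      have h := card_prodB42 (B₂ := L1 K) (norm_ext hB k)
      rw [card_ext42 hB k] at h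
      have h2 : (L1 K).card = 1 := by
        unfold L1
        exact Finset.card_singleton _
      rw [h2] at h
      exact h

theorem card_B25 (K : Type u) [Field K] : (Sai49.B25 K).card = 25 := by
  classical
  unfold Sai49.B25
  rw [Finset.card_insert_of_notMem (Sai49.one_not_mem K)]
  unfold Sai49.B24
  rw [Finset.card_image_of_injective _ (Sai49.bf_inj K), Finset.card_univ]
  simp

end Pool.Agent.Lib.MP_fe1391_co.CX42
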