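import Pool.Agent.Lib.MP_fe1391_co.CX42.DimProd81

/-!
# The product formula for the Solomon-Terao series
-/

set_option autoImplicit false

namespace Pool.Agent.Lib.MP_fe1391_co.CX42

open MvPolynomial Pool.Agent.Lib.MP_fe1391_co.Tame Pool.Agent.Lib.MP_fe1391_co.Thick51

universe u

theorem cauchy81 {R : Type*} [CommRing R] (F G : ℕ → R) (m n : ℕ) (hF : ∀ i, m < i → F i = 0)
    (hG : ∀ j, n < j → G j = 0) :
    ∑ p ∈ Finset.range (m + n + 1), ∑ x ∈ Finset.HasAntidiagonal.antidiagonal p, F x.1 * G x.2 =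
      (∑ i ∈ Finset.range (m + 1), F i) * ∑ j ∈ Finset.range (n + 1), G j := by
  rw [Finset.sum_mul_sum, ← Finset.sum_product',
    ← Finset.sum_fiberwise_of_maps_to (s := Finset.range (m + 1) ×ˢ Finset.range (n + 1))
      (t := Finset.range (m + n + 1)) (g := fun x => x.1 + x.2)]
  · refine Finset.sum_congr rfl fun p _ => ?_
    symm
    refine Finset.sum_subset ?_ ?_
    · intro x hx
      rw [Finset.mem_filter] at hx
      rw [Finset.HasAntidiagonal.mem_antidiagonal]
      exact hx.2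
    · intro x hx hx'
      rw [Finset.HasAntidiagonal.mem_antidiagonal] at hx
      rw [Finset.mem_filter, Finset.mem_product, Finset.mem_range, Finset.mem_range] at hx'
      by_cases h1 : m < x.1
      · rw [hF _ h1, zero_mul]
      · by_cases h2 : n < x.2
        · rw [hG _ h2, mul_zero]
        · exact absurd ⟨⟨by omega, by omega⟩, hx⟩ hx'
  · intro x hx
    rw [Finset.mem_product, Finset.mem_range, Finset.mem_range] at hx
    rw [Finset.mem_range]
    omega

theorem finrank_big81 {K : Type u} [Field K] {ℓ : ℕ} (B : Finset (Fin ℓ → K)) {p : ℕ}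
    (hp : ℓ < p) (k : ℕ) : Module.finrank K (LF81 B p k) = 0 := by
  have h : LF81 B p k = ⊥ := by
    rw [Submodule.eq_bot_iff]
    intro c hc
    funext I
    refine hc.1 I fun h => ?_
    have := Finset.card_le_univ I
    rw [Fintype.card_fin] at this
    omega
  rw [h, finrank_bot]

theorem prod81 (hA : stFin81.{u}) : stProd81.{u} := by
  intro K _ m n B₁ B₂
  have h0 : ∀ (ℓ : ℕ) (B : Finset (Fin ℓ → K)) (p : ℕ), DS51 B p =
      PowerSeries.mk fun k : ℕ => ((Module.finrank K (LF81 B p k) : ℕ) : ℤ) := by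
    intro ℓ B p
    unfold DS51
    congr 1
    funext k
    rw [hA K ℓ B p k]
  have h1 : ∀ p, DS51 (prodB B₁ B₂) p =
      ∑ x ∈ Finset.HasAntidiagonal.antidiagonal p, DS51 B₁ x.1 * DS51 B₂ x.2 := by
    intro p
    ext k
    rw [h0, PowerSeries.coeff_mk, dimProd81 K m n B₁ B₂ p k, map_sum]
    push_cast
    refine Finset.sum_congr rfl fun x _ => ?_
    rw [h0, h0, PowerSeries.coeff_mul]
    simp only [PowerSeries.coeff_mk]
  have h2 : ∀ (ℓ : ℕ) (B : Finset (Fin ℓ → K)) (p : ℕ), ℓ < p → DS51 B p = 0 := by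
    intro ℓ B p hp
    rw [h0]
    ext k
    rw [PowerSeries.coeff_mk, finrank_big81 B hp]
    simp
  have h3 := cauchy81 (fun i => DS51 B₁ i * (-PowerSeries.X) ^ i)
    (fun j => DS51 B₂ j * (-PowerSeries.X) ^ j) m n (fun i hi => by rw [h2 m B₁ i hi, zero_mul])
    (fun j hj => by rw [h2 n B₂ j hj, zero_mul])
  unfold PS51
  rw [← h3]
  refine Finset.sum_congr rfl fun p _ => ?_
  rw [h1, Finset.sum_mul]
  refine Finset.sum_congr rfl fun x hx => ?_
  rw [Finset.HasAntidiagonal.mem_antidiagonal] at hx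
  rw [← hx, pow_add]
  ring

end Pool.Agent.Lib.MP_fe1391_co.CX42
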