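import Pool.Agent.Lib.MP_fe1391_co.CX42.Asm51
import Pool.Agent.Lib.MP_fe1391_co.CX42.Prod81
import Pool.Agent.Lib.MP_fe1391_co.Tame.Final

/-!
# Counterexamples in all dimensions from sixteen on
-/

set_option autoImplicit false

namespace Pool.Agent.Lib.MP_fe1391_co.CX42

open MvPolynomial Pool.Agent.Lib.MP_fe1391_co.Tame Pool.Agent.Lib.MP_fe1391_co.Thick51

universe u

/-- the series of a free arrangement with a given homogeneous basis -/
theorem psi_saito42 {K : Type u} [Field K] {ℓ : ℕ} {B : Finset (Fin ℓ → K)} (hB : Tame.Norm B)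
    {d : Fin ℓ → ℕ} {θ : Matrix (Fin ℓ) (Fin ℓ) (S K ℓ)} (hθ : IsSaito B d θ) :
    PS51 B = ∏ i, ∑ j ∈ Finset.range (d i + 1), (PowerSeries.X : PowerSeries ℤ) ^ j := by
  have hne : (1 - PowerSeries.X : PowerSeries ℤ) ^ ℓ ≠ 0 := by
    apply pow_ne_zero
    intro h
    have := congrArg (PowerSeries.coeff 0) h
    simp at this
  apply mul_right_cancel₀ hne
  unfold PS51
  rw [Finset.sum_mul]
  have e1 : ∀ p ∈ Finset.range (ℓ + 1), DS51 B p *
        (-PowerSeries.X) ^ p * (1 - PowerSeries.X) ^ ℓ =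
      ∑ I ∈ Finset.powersetCard p (Finset.univ : Finset (Fin ℓ)),
        ∏ i ∈ I, (-(PowerSeries.X : PowerSeries ℤ) ^ (d i + 1)) := by
    intro p _
    have h3 : DS51 B p * (1 - PowerSeries.X) ^ ℓ =
      ∑ I ∈ Finset.powersetCard p (Finset.univ : Finset (Fin ℓ)), PowerSeries.X ^ (∑ i ∈ I, d i) :=
      Final.hilbP K ℓ B hB d θ hθ p
    rw [mul_right_comm, h3, Finset.sum_mul]
    refine Finset.sum_congr rfl fun I hI => ?_
    rw [Finset.mem_powersetCard] at hI
    rw [← hI.2, ← Finset.prod_pow_eq_pow_sum, ← Finset.prod_const, ← Finset.prod_mul_distrib]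
    exact Finset.prod_congr rfl fun i _ => by ring
  rw [Finset.sum_congr rfl e1]
  have e3 : ∑ p ∈ Finset.range (ℓ + 1),
      ∑ I ∈ Finset.powersetCard p (Finset.univ : Finset (Fin ℓ)),
        ∏ i ∈ I, (-(PowerSeries.X : PowerSeries ℤ) ^ (d i + 1)) =
      ∏ i, (1 + (-(PowerSeries.X : PowerSeries ℤ) ^ (d i + 1))) := by
    rw [Finset.prod_one_add, Finset.sum_powerset]
    simp
  rw [e3]
  have e4 : (1 - PowerSeries.X : PowerSeries ℤ) ^ ℓ = ∏ _i : Fin ℓ, (1 - PowerSeries.X) := by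
    simp
  rw [e4, ← Finset.prod_mul_distrib]
  refine Finset.prod_congr rfl fun i _ => ?_
  rw [geom_sum_mul_neg]
  ring

/-- the arrangement `{0}` in the line -/
def L1 (K : Type u) [Field K] : Finset (Fin 1 → K) := {fun _ => 1}

theorem norm_L1 (K : Type u) [Field K] : Tame.Norm (L1 K) := by
  constructor
  · intro b hb h
    rw [L1, Finset.mem_singleton] at hb
    rw [hb] at h
    exact one_ne_zero (congrFun h 0)
  · intro a ha b hb hab
    rw [L1, Finset.mem_singleton] at ha hb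
    exact absurd (ha.trans hb.symm) hab

theorem lin_one (K : Type u) [Field K] : lin (fun _ => 1 : Fin 1 → K) = X 0 := by
  unfold lin
  simp

theorem saito_L1 (K : Type u) [Field K] :
    IsSaito (L1 K) (fun _ => 1) (Matrix.of fun _ _ => (X 0 : S K 1)) where
  hom _ _ := isHomogeneous_X K 0
  log _ b hb := by
    rw [L1, Finset.mem_singleton] at hb
    rw [hb, lin_one]
    simp
  det := ⟨1, one_ne_zero, by
    rw [C_1, one_mul, Matrix.det_fin_one]
    unfold Qof
    rw [L1, Finset.prod_singleton, lin_one]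
    rfl⟩

theorem psi_L1 (K : Type u) [Field K] : PS51 (L1 K) = 1 + PowerSeries.X := by
  rw [psi_saito42 (norm_L1 K) (saito_L1 K)]
  simp [Finset.sum_range_succ]

/-- products with coordinate hyperplanes -/
noncomputable def ext42 {K : Type u} [Field K] {n : ℕ} (B : Finset (Fin n → K)) :
    ∀ k : ℕ, Finset (Fin (n + k) → K)
  | 0 => B
  | k + 1 => prodB (m := n + k) (n := 1) (ext42 B k) (L1 K)

theorem norm_ext {K : Type u} [Field K] {n : ℕ} {B : Finset (Fin n → K)} (hB : Tame.Norm B) :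
    ∀ k : ℕ, Tame.Norm (ext42 B k)
  | 0 => hB
  | k + 1 => norm_prodB (norm_ext hB k) (norm_L1 K)

theorem psi_ext (hP : stProd81.{u}) {K : Type u} [Field K] {n : ℕ} (B : Finset (Fin n → K)) :
    ∀ k : ℕ, PS51 (ext42 B k) = PS51 B * (1 + PowerSeries.X) ^ k
  | 0 => by
      rw [pow_zero, mul_one]
      rfl
  | k + 1 => by
      have h := hP K (n + k) 1 (ext42 B k) (L1 K)
      rw [psi_ext hP B k, psi_L1] at h
      rw [pow_succ, ← mul_assoc, ← h]
      rfl

end Pool.Agent.Lib.MP_fe1391_co.CX42
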