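import Mathlib

/-!
# Matrices with columns in one space and rows in another
-/

set_option autoImplicit false

namespace Pool.Agent.Lib.MP_fe1391_co.CX42

section Tens

variable {K : Type*} [Field K] {α β : Type*}

/-- matrices with columns in `U` and rows in `W` -/
def TT81 (U : Submodule K (α → K)) (W : Submodule K (β → K)) : Submodule K (α → β → K) where
  carrier := {M | (∀ b, (fun a => M a b) ∈ U) ∧ ∀ a, M a ∈ W}
  add_mem' := fun h h' => ⟨fun b => U.add_mem (h.1 b) (h'.1 b), fun a => W.add_mem (h.2 a) (h'.2 a)⟩
  zero_mem' := ⟨fun _ => U.zero_mem, fun _ => W.zero_mem⟩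
  smul_mem' := fun c _ h => ⟨fun b => U.smul_mem c (h.1 b), fun a => W.smul_mem c (h.2 a)⟩

theorem exists_TT81 (U : Submodule K (α → K)) (W : Submodule K (β → K)) (F : Finset α)
    (hF : ∀ x ∈ U, ∀ a, a ∉ F → x a = 0) [FiniteDimensional K U] :
    ∃ Φ : (Fin (Module.finrank K U) → W) →ₗ[K] (α → β → K),
      Function.Injective Φ ∧ LinearMap.range Φ = TT81 U W := by
  classical
  let u := Module.finBasis K U
  let Φ : (Fin (Module.finrank K U) → W) →ₗ[K] (α → β → K) :=
    { toFun := fun f a b => ∑ i, (f i : β → K) b * (u i : α → K) a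
      map_add' := fun f g => by
        funext a b
        simp [add_mul, Finset.sum_add_distrib]
      map_smul' := fun c f => by
        funext a b
        simp [Finset.mul_sum, mul_assoc] }
  have hΦ : ∀ f a b, Φ f a b = ∑ i, (f i : β → K) b * (u i : α → K) a := fun _ _ _ => rfl
  have hsum : ∀ (g : Fin (Module.finrank K U) → K) (a : α),
      ((∑ i, g i • u i : U) : α → K) a = ∑ i, g i * (u i : α → K) a := by
    intro g a
    rw [Submodule.coe_sum, Finset.sum_apply]
    rfl
  have hrange : LinearMap.range Φ = TT81 U W := by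
    ext M
    constructor
    · rintro ⟨f, rfl⟩
      refine ⟨fun b => ?_, fun a => ?_⟩
      · have : (fun a => Φ f a b) = ((∑ i, (f i : β → K) b • u i : U) : α → K) := by
          funext a
          rw [hsum, hΦ]
        rw [this]
        exact Subtype.property _
      · have : Φ f a = ∑ i, (u i : α → K) a • (f i : β → K) := by
          funext b
          rw [hΦ, Finset.sum_apply]
          exact Finset.sum_congr rfl fun i _ => by rw [Pi.smul_apply, smul_eq_mul, mul_comm]
        rw [this]
        exact W.sum_mem fun i _ => W.smul_mem _ (f i).2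
    · rintro ⟨h1, h2⟩
      choose φ hφ using fun i => (u.coord i).exists_extend
      refine ⟨fun i => ⟨∑ a ∈ F, φ i (Pi.single a 1) • M a,
        W.sum_mem fun a _ => W.smul_mem _ (h2 a)⟩, ?_⟩
      funext a b
      rw [hΦ]
      have e1 : ∀ i, (∑ a ∈ F, φ i (Pi.single a 1) • M a) b = u.coord i ⟨_, h1 b⟩ := by
        intro i
        have e2 : (fun a => M a b) = ∑ a ∈ F, M a b • (Pi.single a 1 : α → K) := by
          funext a'
          rw [Finset.sum_apply]
          by_cases ha : a' ∈ F
          · rw [Finset.sum_eq_single a']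
            · simp
            · intro x _ hx
              rw [Pi.smul_apply, Pi.single_eq_of_ne hx.symm, smul_zero]
            · intro h
              exact absurd ha h
          · rw [hF _ (h1 b) a' ha, Finset.sum_eq_zero]
            intro x hx
            rw [Pi.smul_apply, Pi.single_eq_of_ne (by rintro rfl; exact ha hx), smul_zero]
        have e3 : u.coord i ⟨_, h1 b⟩ = φ i (fun a => M a b) := by
          rw [← hφ i]
          rfl
        rw [e3, e2, map_sum, Finset.sum_apply]
        refine Finset.sum_congr rfl fun a _ => ?_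
        rw [map_smul, Pi.smul_apply, smul_eq_mul, smul_eq_mul, mul_comm]
      have e4 : ∑ i, (∑ a ∈ F, φ i (Pi.single a 1) • M a) b * (u i : α → K) a =
          ((∑ i, (u.coord i ⟨_, h1 b⟩) • u i : U) : α → K) a := by
        rw [hsum]
        exact Finset.sum_congr rfl fun i _ => by rw [e1]
      rw [e4]
      have e5 := u.sum_repr ⟨_, h1 b⟩
      have e6 : ∑ i, (u.coord i ⟨_, h1 b⟩) • u i = ⟨_, h1 b⟩ := e5
      rw [e6]
  have hinj : Function.Injective Φ := by
    rw [injective_iff_map_eq_zero]
    intro f hf
    funext i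
    apply Subtype.ext
    funext b
    have h1 : ∑ i, (f i : β → K) b • u i = 0 := by
      apply Subtype.ext
      funext a
      rw [hsum]
      exact congrFun (congrFun hf a) b
    exact Fintype.linearIndependent_iff.1 u.linearIndependent _ h1 i
  exact ⟨Φ, hinj, hrange⟩

theorem finrank_TT81 (U : Submodule K (α → K)) (W : Submodule K (β → K)) (F : Finset α)
    (hF : ∀ x ∈ U, ∀ a, a ∉ F → x a = 0) [FiniteDimensional K U] [FiniteDimensional K W] :
    Module.finrank K (TT81 U W) = Module.finrank K U * Module.finrank K W := by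
  obtain ⟨Φ, hinj, hrange⟩ := exists_TT81 U W F hF
  rw [← hrange, LinearMap.finrank_range_of_inj hinj]
  rw [Module.finrank_pi_fintype]
  simp

theorem finite_TT81 (U : Submodule K (α → K)) (W : Submodule K (β → K)) (F : Finset α)
    (hF : ∀ x ∈ U, ∀ a, a ∉ F → x a = 0) [FiniteDimensional K U] [FiniteDimensional K W] :
    FiniteDimensional K (TT81 U W) := by
  obtain ⟨Φ, hinj, hrange⟩ := exists_TT81 U W F hF
  rw [← hrange]
  infer_instance

theorem finite_of_supp81 (U : Submodule K (α → K)) (F : Finset α)
    (hF : ∀ x ∈ U, ∀ a, a ∉ F → x a = 0) : FiniteDimensional K U := by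
  classical
  let r : U →ₗ[K] (F → K) := (LinearMap.funLeft K K (fun a : F => (a : α))).comp U.subtype
  refine FiniteDimensional.of_injective r ?_
  rw [injective_iff_map_eq_zero]
  intro x hx
  apply Subtype.ext
  funext a
  by_cases ha : a ∈ F
  · exact congrFun hx ⟨a, ha⟩
  · exact hF x x.2 a ha

end Tens
end Pool.Agent.Lib.MP_fe1391_co.CX42
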