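import Pool.Agent.Lib.MP_fe1391_co.CX42.Join81
import Pool.Agent.Lib.MP_fe1391_co.CX42.Tens81

/-!
# The product formula for the dimensions
-/

set_option autoImplicit false

namespace Pool.Agent.Lib.MP_fe1391_co.CX42

open MvPolynomial Pool.Agent.Lib.MP_fe1391_co.Tame Pool.Agent.Lib.MP_fe1391_co.Thick51

universe u

section Cof

variable {K : Type u} [Field K] {ℓ : ℕ}

/-- all coefficients of a function on subsets -/
noncomputable def cof81 : (Finset (Fin ℓ) → S K ℓ) →ₗ[K] (Finset (Fin ℓ) × (Fin ℓ →₀ ℕ) → K) where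
  toFun c x := coeff x.2 (c x.1)
  map_add' c c' := by
    funext x
    simp
  map_smul' a c := by
    funext x
    simp

theorem cof_apply81 (c : Finset (Fin ℓ) → S K ℓ) (x : Finset (Fin ℓ) × (Fin ℓ →₀ ℕ)) :
    cof81 c x = coeff x.2 (c x.1) := rfl

theorem cof_inj81 : Function.Injective (cof81 (K := K) (ℓ := ℓ)) := by
  intro c c' h
  funext I
  ext μ
  exact congrFun h (I, μ)

/-- the space of coefficients of homogeneous logarithmic derivations -/
noncomputable def LM81 (B : Finset (Fin ℓ → K)) (p k : ℕ) :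
    Submodule K (Finset (Fin ℓ) × (Fin ℓ →₀ ℕ) → K) := (LF81 B p k).map cof81

theorem finrank_LM81 (B : Finset (Fin ℓ → K)) (p k : ℕ) :
    Module.finrank K (LM81 B p k) = Module.finrank K (LF81 B p k) :=
  (Submodule.equivMapOfInjective cof81 cof_inj81 (LF81 B p k)).finrank_eq.symm

theorem degree_of_coeff81 {f : S K ℓ} {k : ℕ} (hf : f.IsHomogeneous k) {μ : Fin ℓ →₀ ℕ}
    (h : coeff μ f ≠ 0) : μ.degree = k := by
  have h1 := hf h
  have e : Finsupp.weight (1 : Fin ℓ → ℕ) μ = μ.degree :=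
    (DFunLike.congr_fun (Finsupp.degree_eq_weight_one (R := ℕ)) μ).symm
  rw [← e]
  exact h1

theorem homog_of_coeff81 {f : S K ℓ} {k : ℕ} (h : ∀ μ, coeff μ f ≠ 0 → μ.degree = k) :
    f.IsHomogeneous k := by
  intro μ hμ
  have e : Finsupp.weight (1 : Fin ℓ → ℕ) μ = μ.degree :=
    (DFunLike.congr_fun (Finsupp.degree_eq_weight_one (R := ℕ)) μ).symm
  rw [e]
  exact h μ hμ

theorem LM_supp81 {B : Finset (Fin ℓ → K)} {p k : ℕ}
    {x : Finset (Fin ℓ) × (Fin ℓ →₀ ℕ) → K} (hx : x ∈ LM81 B p k)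
    {a : Finset (Fin ℓ) × (Fin ℓ →₀ ℕ)} (ha : x a ≠ 0) : a.1.card = p ∧ a.2.degree = k := by
  obtain ⟨c, hc, rfl⟩ := hx
  rw [cof_apply81] at ha
  constructor
  · by_contra h
    rw [hc.1 _ h, coeff_zero] at ha
    exact ha rfl
  · exact degree_of_coeff81 (hc.2.1 _) ha

/-- a finite set carrying everything of degree `k` -/
noncomputable def FS81 (ℓ k : ℕ) : Finset (Finset (Fin ℓ) × (Fin ℓ →₀ ℕ)) :=
  Finset.univ ×ˢ Finset.finsuppAntidiag Finset.univ k

theorem mem_anti81 {k : ℕ} {μ : Fin ℓ →₀ ℕ} :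
    μ ∈ Finset.finsuppAntidiag Finset.univ k ↔ μ.degree = k := by
  rw [Finset.mem_finsuppAntidiag, Finsupp.degree_eq_sum]
  simp

theorem LM_FS81 {B : Finset (Fin ℓ → K)} {p k : ℕ}
    {x : Finset (Fin ℓ) × (Fin ℓ →₀ ℕ) → K} (hx : x ∈ LM81 B p k)
    (a : Finset (Fin ℓ) × (Fin ℓ →₀ ℕ)) (ha : a ∉ FS81 ℓ k) : x a = 0 := by
  by_contra h
  apply ha
  unfold FS81
  rw [Finset.mem_product]
  exact ⟨Finset.mem_univ _, mem_anti81.2 (LM_supp81 hx h).2⟩

instance fin_LM81 (B : Finset (Fin ℓ → K)) (p k : ℕ) : FiniteDimensional K (LM81 B p k) :=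
  finite_of_supp81 _ (FS81 ℓ k) fun _ hx => LM_FS81 hx

end Cof

section Main

variable {K : Type u} [Field K] {m n : ℕ}

theorem mem_LF_prod81 {B₁ : Finset (Fin m → K)} {B₂ : Finset (Fin n → K)} {p k : ℕ}
    {c : Finset (Fin (m + n)) → S K (m + n)} :
    c ∈ LF81 (prodB B₁ B₂) p k ↔ (∀ X, X.card ≠ p → c X = 0) ∧ (∀ X, (c X).IsHomogeneous k) ∧
      (∀ b ∈ B₁, ∀ J ν I, lin b ∣ fcon81 b (colm81 c J ν) I) ∧
      ∀ b ∈ B₂, ∀ I μ J, lin b ∣ fcon81 b (roww81 c I μ) J := by
  classical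
  constructor
  · rintro ⟨h1, h2, h3⟩
    refine ⟨h1, h2, fun b hb => ?_, fun b hb => ?_⟩
    · rw [← log_left81]
      intro X
      refine h3 _ ?_ X
      unfold prodB
      rw [Finset.mem_union]
      exact Or.inl (Finset.mem_image_of_mem _ hb)
    · rw [← log_right81]
      intro X
      refine h3 _ ?_ X
      unfold prodB
      rw [Finset.mem_union]
      exact Or.inr (Finset.mem_image_of_mem _ hb)
  · rintro ⟨h1, h2, h3, h4⟩
    refine ⟨h1, h2, fun b hb => ?_⟩
    unfold prodB at hb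
    rw [Finset.mem_union, Finset.mem_image, Finset.mem_image] at hb
    rcases hb with ⟨b', hb', rfl⟩ | ⟨b', hb', rfl⟩
    · exact (log_left81 b' c).2 (h3 b' hb')
    · exact (log_right81 b' c).2 (h4 b' hb')

/-- the matrix of coefficients -/
noncomputable def Gam81 : (Finset (Fin (m + n)) → S K (m + n)) →ₗ[K]
    (Finset (Fin m) × (Fin m →₀ ℕ) → Finset (Fin n) × (Fin n →₀ ℕ) → K) where
  toFun c a b := coeff (jm81 (phL81 m n) a.2 b.2) (c (jn81 a.1 b.1))
  map_add' c c' := by
    funext a b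
    simp
  map_smul' r c := by
    funext a b
    simp

theorem Gam_apply81 (c : Finset (Fin (m + n)) → S K (m + n))
    (a : Finset (Fin m) × (Fin m →₀ ℕ)) (b : Finset (Fin n) × (Fin n →₀ ℕ)) :
    Gam81 c a b = coeff (jm81 (phL81 m n) a.2 b.2) (c (jn81 a.1 b.1)) := rfl

theorem Gam_inj81 : Function.Injective (Gam81 (K := K) (m := m) (n := n)) := by
  intro c c' h
  funext X
  obtain ⟨I, J, rfl⟩ := jn_surj81 X
  ext κ
  obtain ⟨μ, ν, rfl⟩ := jm_surj81 (phL81 m n) κ
  exact congrFun (congrFun h (I, μ)) (J, ν)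

/-- the multidegree of an entry -/
noncomputable def key81 (a : Finset (Fin m) × (Fin m →₀ ℕ)) (b : Finset (Fin n) × (Fin n →₀ ℕ)) :
    (ℕ × ℕ) × (ℕ × ℕ) := ((a.1.card, b.1.card), (a.2.degree, b.2.degree))

/-- one block -/
noncomputable def Bl81 (B₁ : Finset (Fin m → K)) (B₂ : Finset (Fin n → K))
    (x : (ℕ × ℕ) × (ℕ × ℕ)) :
    Submodule K (Finset (Fin m) × (Fin m →₀ ℕ) → Finset (Fin n) × (Fin n →₀ ℕ) → K) :=
  TT81 (LM81 B₁ x.1.1 x.2.1) (LM81 B₂ x.1.2 x.2.2)

theorem Bl_key81 {B₁ : Finset (Fin m → K)} {B₂ : Finset (Fin n → K)} {x : (ℕ × ℕ) × (ℕ × ℕ)}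
    {M : Finset (Fin m) × (Fin m →₀ ℕ) → Finset (Fin n) × (Fin n →₀ ℕ) → K}
    (hM : M ∈ Bl81 B₁ B₂ x) {a : Finset (Fin m) × (Fin m →₀ ℕ)}
    {b : Finset (Fin n) × (Fin n →₀ ℕ)} (h : M a b ≠ 0) : key81 a b = x := by
  have h1 := LM_supp81 (hM.1 b) h
  have h2 := LM_supp81 (hM.2 a) h
  unfold key81
  rw [h1.1, h1.2, h2.1, h2.2]

theorem Bl_le81 {B₁ : Finset (Fin m → K)} {B₂ : Finset (Fin n → K)} {x : (ℕ × ℕ) × (ℕ × ℕ)}
    {p k : ℕ} (hp : x.1.1 + x.1.2 = p) (hk : x.2.1 + x.2.2 = k) :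
    Bl81 B₁ B₂ x ≤ (LF81 (prodB B₁ B₂) p k).map Gam81 := by
  classical
  intro M hM
  let lp : Finset (Fin (m + n)) → Finset (Fin m) := fun X =>
    Finset.univ.filter fun s => Fin.castAdd n s ∈ X
  let rp : Finset (Fin (m + n)) → Finset (Fin n) := fun X =>
    Finset.univ.filter fun t => Fin.natAdd m t ∈ X
  have hlp : ∀ I J, lp (jn81 I J) = I := by
    intro I J
    ext s
    simp [lp, mem_jn_left81]
  have hrp : ∀ I J, rp (jn81 I J) = J := by
    intro I J
    ext t
    simp [rp, mem_jn_right81]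
  let c : Finset (Fin (m + n)) → S K (m + n) := fun X =>
    ∑ μ ∈ Finset.finsuppAntidiag Finset.univ x.2.1,
      ∑ ν ∈ Finset.finsuppAntidiag Finset.univ x.2.2,
        monomial (jm81 (phL81 m n) μ ν) (M (lp X, μ) (rp X, ν))
  have hc : ∀ I J μ ν, coeff (jm81 (phL81 m n) μ ν) (c (jn81 I J)) = M (I, μ) (J, ν) := by
    intro I J μ ν
    simp only [c, coeff_sum, hlp, hrp, coeff_monomial]
    by_cases h : μ ∈ Finset.finsuppAntidiag Finset.univ x.2.1 ∧
        ν ∈ Finset.finsuppAntidiag Finset.univ x.2.2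
    · rw [Finset.sum_eq_single_of_mem μ h.1, Finset.sum_eq_single_of_mem ν h.2, if_pos rfl]
      · intro ν' _ hν'
        rw [if_neg fun h3 => hν' (jm_inj81 _ h3).2]
      · intro μ' _ hμ'
        refine Finset.sum_eq_zero fun ν' _ => ?_
        rw [if_neg fun h3 => hμ' (jm_inj81 _ h3).1]
    · have h0 : M (I, μ) (J, ν) = 0 := by
        by_contra h1
        have h2 := Bl_key81 hM h1
        apply h
        rw [mem_anti81, mem_anti81, ← h2]
        exact ⟨rfl, rfl⟩
      rw [h0]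
      refine Finset.sum_eq_zero fun μ' hμ' => Finset.sum_eq_zero fun ν' hν' => ?_
      by_cases h3 : jm81 (phL81 m n) μ' ν' = jm81 (phL81 m n) μ ν
      · obtain ⟨rfl, rfl⟩ := jm_inj81 _ h3
        exact absurd ⟨hμ', hν'⟩ h
      · rw [if_neg h3]
  refine ⟨c, ?_, ?_⟩
  · refine mem_LF_prod81.2 ⟨fun X hX => ?_, fun X => ?_, fun b hb J ν I => ?_,
      fun b hb I μ J => ?_⟩
    · obtain ⟨I, J, rfl⟩ := jn_surj81 X
      ext κ
      obtain ⟨μ, ν, rfl⟩ := jm_surj81 (phL81 m n) κ
      rw [hc, coeff_zero]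
      by_contra h1
      have h2 := Bl_key81 hM h1
      apply hX
      rw [card_jn81, ← hp, ← h2]
      rfl
    · obtain ⟨I, J, rfl⟩ := jn_surj81 X
      apply homog_of_coeff81
      intro κ hκ
      obtain ⟨μ, ν, rfl⟩ := jm_surj81 (phL81 m n) κ
      rw [hc] at hκ
      have h2 := Bl_key81 hM hκ
      rw [degree_jm81, ← hk, ← h2]
      rfl
    · obtain ⟨c', hc', h1⟩ := hM.1 (J, ν)
      have h2 : colm81 c J ν = c' := by
        funext I'
        ext μ
        rw [coeff_colm81, hc]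
        exact (congrFun h1 (I', μ)).symm
      rw [h2]
      exact hc'.2.2 b hb I
    · obtain ⟨c', hc', h1⟩ := hM.2 (I, μ)
      have h2 : roww81 c I μ = c' := by
        funext J'
        ext ν
        rw [coeff_roww81, hc]
        exact (congrFun h1 (J', ν)).symm
      rw [h2]
      exact hc'.2.2 b hb J
  · funext a b
    exact hc a.1 b.1 a.2 b.2

theorem Gam_key81 {B₁ : Finset (Fin m → K)} {B₂ : Finset (Fin n → K)} {p k : ℕ}
    {c : Finset (Fin (m + n)) → S K (m + n)} (hc : c ∈ LF81 (prodB B₁ B₂) p k)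
    {a : Finset (Fin m) × (Fin m →₀ ℕ)} {b : Finset (Fin n) × (Fin n →₀ ℕ)}
    (h : Gam81 c a b ≠ 0) : a.1.card + b.1.card = p ∧ a.2.degree + b.2.degree = k := by
  rw [Gam_apply81] at h
  constructor
  · by_contra h1
    rw [← card_jn81] at h1
    rw [hc.1 _ h1, coeff_zero] at h
    exact h rfl
  · rw [← degree_jm81 (phL81 m n)]
    exact degree_of_coeff81 (hc.2.1 _) h

/-- the part of a matrix in one block -/
noncomputable def cut81 (x : (ℕ × ℕ) × (ℕ × ℕ))
    (M : Finset (Fin m) × (Fin m →₀ ℕ) → Finset (Fin n) × (Fin n →₀ ℕ) → K)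
    (a : Finset (Fin m) × (Fin m →₀ ℕ)) (b : Finset (Fin n) × (Fin n →₀ ℕ)) : K :=
  if key81 a b = x then M a b else 0

theorem cut_mem81 {B₁ : Finset (Fin m → K)} {B₂ : Finset (Fin n → K)} {p k : ℕ}
    {c : Finset (Fin (m + n)) → S K (m + n)} (hc : c ∈ LF81 (prodB B₁ B₂) p k)
    {x : (ℕ × ℕ) × (ℕ × ℕ)} (hp : x.1.1 + x.1.2 = p) (hk : x.2.1 + x.2.2 = k) :
    cut81 x (Gam81 c) ∈ Bl81 B₁ B₂ x := by
  have hc' := mem_LF_prod81.1 hc
  refine ⟨fun b => ?_, fun a => ?_⟩
  · obtain ⟨J, ν⟩ := b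
    by_cases h : J.card = x.1.2 ∧ ν.degree = x.2.2
    · refine ⟨colm81 c J ν, ⟨fun I hI => ?_, fun I => ?_, fun b hb I => hc'.2.2.1 b hb J ν I⟩, ?_⟩
      · unfold colm81
        rw [hc.1, map_zero, coeff_zero]
        rw [card_jn81]
        omega
      · exact homog_itr81 (phL81 m n) (hc.2.1 _) ν (by rw [h.2]; exact hk)
      · funext a
        rw [cof_apply81, coeff_colm81]
        unfold cut81
        split_ifs with h1
        · rfl
        · by_contra h2
          have h3 := Gam_key81 (a := a) (b := (J, ν)) hc h2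
          apply h1
          unfold key81
          refine Prod.ext (Prod.ext ?_ ?_) (Prod.ext ?_ ?_)
          · have := h3.1
            simp only at this ⊢
            omega
          · exact h.1
          · have := h3.2
            simp only at this ⊢
            omega
          · exact h.2
    · have h0 : (fun a => cut81 x (Gam81 c) a (J, ν)) = 0 := by
        funext a
        unfold cut81
        rw [if_neg, Pi.zero_apply]
        intro h1
        apply h
        rw [← h1]
        exact ⟨rfl, rfl⟩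
      rw [h0]
      exact Submodule.zero_mem _
  · obtain ⟨I, μ⟩ := a
    by_cases h : I.card = x.1.1 ∧ μ.degree = x.2.1
    · refine ⟨roww81 c I μ, ⟨fun J hJ => ?_, fun J => ?_, fun b hb J => hc'.2.2.2 b hb I μ J⟩, ?_⟩
      · unfold roww81
        rw [hc.1, map_zero, coeff_zero]
        rw [card_jn81]
        omega
      · exact homog_itr81 (phR81 m n) (hc.2.1 _) μ (by rw [h.2]; omega)
      · funext b
        rw [cof_apply81, coeff_roww81]
        unfold cut81
        split_ifs with h1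
        · rfl
        · by_contra h2
          have h3 := Gam_key81 (a := (I, μ)) (b := b) hc h2
          apply h1
          unfold key81
          refine Prod.ext (Prod.ext ?_ ?_) (Prod.ext ?_ ?_)
          · exact h.1
          · have := h3.1
            simp only at this ⊢
            omega
          · exact h.2
          · have := h3.2
            simp only at this ⊢
            omega
    · have h0 : cut81 x (Gam81 c) (I, μ) = 0 := by
        funext b
        unfold cut81
        rw [if_neg, Pi.zero_apply]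
        intro h1
        apply h
        rw [← h1]
        exact ⟨rfl, rfl⟩
      rw [h0]
      exact Submodule.zero_mem _

end Main

theorem dimProd81 : stDimProd81.{u} := by
  intro K _ m n B₁ B₂ p k
  classical
  let X : Finset ((ℕ × ℕ) × (ℕ × ℕ)) :=
    Finset.HasAntidiagonal.antidiagonal p ×ˢ Finset.HasAntidiagonal.antidiagonal k
  let Sg : ((x : X) → Bl81 B₁ B₂ x.1) →ₗ[K]
      (Finset (Fin m) × (Fin m →₀ ℕ) → Finset (Fin n) × (Fin n →₀ ℕ) → K) :=
    ∑ x : X, (Bl81 B₁ B₂ x.1).subtype.comp (LinearMap.proj x)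
  have hSg : ∀ f a b, Sg f a b = ∑ x : X, (f x : _ → _ → K) a b := by
    intro f a b
    simp only [Sg, LinearMap.sum_apply, Finset.sum_apply, LinearMap.comp_apply,
      LinearMap.proj_apply, Submodule.subtype_apply]
  have hX : ∀ x : X, x.1.1.1 + x.1.1.2 = p ∧ x.1.2.1 + x.1.2.2 = k := by
    rintro ⟨x, hx⟩
    rw [Finset.mem_product, Finset.HasAntidiagonal.mem_antidiagonal,
      Finset.HasAntidiagonal.mem_antidiagonal] at hx
    exact hx
  have h1 : Function.Injective Sg := by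
    rw [injective_iff_map_eq_zero]
    intro f hf
    funext x
    apply Subtype.ext
    funext a b
    by_contra h
    have h2 := Bl_key81 (f x).2 h
    have h3 := congrFun (congrFun hf a) b
    rw [hSg, Finset.sum_eq_single x] at h3
    · exact h h3
    · intro y _ hy
      by_contra h4
      have h5 := Bl_key81 (f y).2 h4
      exact hy (Subtype.ext (h5.symm.trans h2))
    · intro h4
      exact absurd (Finset.mem_univ _) h4
  have h2 : LinearMap.range Sg = (LF81 (prodB B₁ B₂) p k).map Gam81 := by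
    apply le_antisymm
    · rintro _ ⟨f, rfl⟩
      have : Sg f = ∑ x : X, (f x : _ → _ → K) := by
        funext a b
        rw [hSg, Finset.sum_apply, Finset.sum_apply]
      rw [this]
      exact Submodule.sum_mem _ fun x _ => Bl_le81 (hX x).1 (hX x).2 (f x).2
    · rintro _ ⟨c, hc, rfl⟩
      refine ⟨fun x => ⟨cut81 x.1 (Gam81 c), cut_mem81 hc (hX x).1 (hX x).2⟩, ?_⟩
      funext a b
      rw [hSg]
      simp only [cut81]
      by_cases h : Gam81 c a b = 0
      · rw [h]
        exact Finset.sum_eq_zero fun x _ => by rw [ite_self]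
      · have h3 := Gam_key81 hc h
        have h4 : key81 a b ∈ X := by
          rw [Finset.mem_product, Finset.HasAntidiagonal.mem_antidiagonal,
      Finset.HasAntidiagonal.mem_antidiagonal]
          exact h3
        rw [Finset.sum_eq_single ⟨key81 a b, h4⟩, if_pos rfl]
        · intro y _ hy
          rw [if_neg]
          intro h5
          exact hy (Subtype.ext h5.symm)
        · intro h5
          exact absurd (Finset.mem_univ _) h5
  have h3 : Module.finrank K (LF81 (prodB B₁ B₂) p k) =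
      Module.finrank K ((LF81 (prodB B₁ B₂) p k).map Gam81) :=
    (Submodule.equivMapOfInjective Gam81 Gam_inj81 (LF81 (prodB B₁ B₂) p k)).finrank_eq
  have hfin : ∀ x : X, FiniteDimensional K (Bl81 B₁ B₂ x.1) := fun x =>
    finite_TT81 _ _ (FS81 m x.1.2.1) fun y hy => LM_FS81 hy
  rw [h3, ← h2, LinearMap.finrank_range_of_inj h1, Module.finrank_pi_fintype]
  have h4 : ∀ x : X, Module.finrank K (Bl81 B₁ B₂ x.1) =
      Module.finrank K (LF81 B₁ x.1.1.1 x.1.2.1) * Module.finrank K (LF81 B₂ x.1.1.2 x.1.2.2) := by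
    intro x
    unfold Bl81
    rw [finrank_TT81 _ _ (FS81 m x.1.2.1) fun y hy => LM_FS81 hy, finrank_LM81, finrank_LM81]
  rw [Finset.sum_congr rfl fun x _ => h4 x]
  rw [Finset.sum_coe_sort X fun x => Module.finrank K (LF81 B₁ x.1.1 x.2.1) *
    Module.finrank K (LF81 B₂ x.1.2 x.2.2)]
  rw [Finset.sum_product]

end Pool.Agent.Lib.MP_fe1391_co.CX42
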