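import Pool.Agent.Lib.MP_fe1391_co.Thick51.Ser

/-!
# Products of arrangements: definitions and statements
-/

set_option autoImplicit false

namespace Pool.Agent.Lib.MP_fe1391_co.CX42

open MvPolynomial Pool.Agent.Lib.MP_fe1391_co.Tame Pool.Agent.Lib.MP_fe1391_co.Thick51

universe u

/-- the sign of putting `i` in front of the sorted set `J` -/
def eps81 {ℓ : ℕ} (i : Fin ℓ) (J : Finset (Fin ℓ)) : ℤ := (-1) ^ (J.filter fun j => j < i).card

/-- contraction with a constant covector, for functions on subsets -/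
noncomputable def fcon81 {K : Type u} [Field K] {ℓ : ℕ} (b : Fin ℓ → K)
    (c : Finset (Fin ℓ) → S K ℓ) (J : Finset (Fin ℓ)) : S K ℓ :=
  ∑ i ∈ Jᶜ, eps81 i J • (C (b i) * c (insert i J))

/-- homogeneous logarithmic `p`-derivations, as functions on subsets -/
noncomputable def LF81 {K : Type u} [Field K] {ℓ : ℕ} (B : Finset (Fin ℓ → K)) (p k : ℕ) :
    Submodule K (Finset (Fin ℓ) → S K ℓ) where
  carrier := {c | (∀ I, I.card ≠ p → c I = 0) ∧ (∀ I, (c I).IsHomogeneous k) ∧
    ∀ b ∈ B, ∀ J, lin b ∣ fcon81 b c J}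
  add_mem' := by
    rintro c c' ⟨h1, h2, h3⟩ ⟨h1', h2', h3'⟩
    refine ⟨fun I hI => ?_, fun I => (h2 I).add (h2' I), fun b hb J => ?_⟩
    · rw [Pi.add_apply, h1 I hI, h1' I hI, add_zero]
    · have := dvd_add (h3 b hb J) (h3' b hb J)
      simpa only [fcon81, Pi.add_apply, mul_add, smul_add, Finset.sum_add_distrib] using this
  zero_mem' := by
    refine ⟨fun I _ => rfl, fun I => isHomogeneous_zero _ _ _, fun b _ J => ?_⟩
    simp [fcon81]
  smul_mem' := by
    rintro a c ⟨h1, h2, h3⟩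
    refine ⟨fun I hI => ?_, fun I => ?_, fun b hb J => ?_⟩
    · rw [Pi.smul_apply, h1 I hI, smul_zero]
    · rw [Pi.smul_apply, smul_eq_C_mul]
      exact (h2 I).C_mul a
    · have := Dvd.dvd.mul_left (h3 b hb J) (C a)
      simpa only [fcon81, Pi.smul_apply, smul_eq_C_mul, Finset.mul_sum, mul_left_comm,
        mul_smul_comm] using this

/-- the product of two arrangements, in `K^(m+n)` -/
noncomputable def prodB {K : Type u} [Field K] {m n : ℕ} (B₁ : Finset (Fin m → K))
    (B₂ : Finset (Fin n → K)) : Finset (Fin (m + n) → K) := by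
  classical
  exact B₁.image (fun b => Fin.append b 0) ∪ B₂.image (fun b => Fin.append 0 b)

/-- A: alternating arrays are functions on subsets -/
def stFin81 : Prop :=
  ∀ (K : Type u) [Field K] (ℓ : ℕ) (B : Finset (Fin ℓ → K)) (p k : ℕ),
    dm51 B p k = Module.finrank K (LF81 B p k)

/-- B: the product formula for dimensions -/
def stDimProd81 : Prop :=
  ∀ (K : Type u) [Field K] (m n : ℕ) (B₁ : Finset (Fin m → K)) (B₂ : Finset (Fin n → K))
    (p k : ℕ), Module.finrank K (LF81 (prodB B₁ B₂) p k) =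
      ∑ x ∈ Finset.HasAntidiagonal.antidiagonal p, ∑ y ∈ Finset.HasAntidiagonal.antidiagonal k,
        Module.finrank K (LF81 B₁ x.1 y.1) * Module.finrank K (LF81 B₂ x.2 y.2)

/-- C: the product formula -/
def stProd81 : Prop :=
  ∀ (K : Type u) [Field K] (m n : ℕ) (B₁ : Finset (Fin m → K)) (B₂ : Finset (Fin n → K)),
    PS51 (prodB B₁ B₂) = PS51 B₁ * PS51 B₂

end Pool.Agent.Lib.MP_fe1391_co.CX42
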