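import Pool.Agent.Lib.MP_fe1391_co.Tame.Minors
import Pool.Agent.Lib.MP_fe1391_co.Tame.Grad
import Pool.Agent.Lib.MP_fe1391_co.Thick51.Ser
import Pool.Agent.Lib.MP_fe1391_co.CX42.StProd81

/-!
# Logarithmic derivations: alternating arrays and functions of finite sets
-/

set_option autoImplicit false

namespace Pool.Agent.Lib.MP_fe1391_co.CX42.FinA86

open MvPolynomial Pool.Agent.Lib.MP_fe1391_co.Tame

universe u

section Gen

variable {A : Type*} [CommRing A] {ℓ : ℕ}

/-- contraction in terms of functions of finite sets -/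
def ctr (b : Fin ℓ → A) (c : Finset (Fin ℓ) → A) (J : Finset (Fin ℓ)) : A :=
  ∑ i ∈ Jᶜ, (-1) ^ (J.filter (· < i)).card * (b i * c (insert i J))

/-- value of an array at a finite set -/
def toF {p : ℕ} (a : (Fin p → Fin ℓ) → A) (J : Finset (Fin ℓ)) : A :=
  if h : J.card = p then a (J.orderEmbOfFin h) else 0

theorem toF_of {p : ℕ} (a : (Fin p → Fin ℓ) → A) {J : Finset (Fin ℓ)} (h : J.card = p) :
    toF a J = a (J.orderEmbOfFin h) := dif_pos h

theorem toF_ne {p : ℕ} (a : (Fin p → Fin ℓ) → A) {J : Finset (Fin ℓ)} (h : J.card ≠ p) :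
    toF a J = 0 := dif_neg h

/-- every order embedding is the enumeration of its image -/
theorem emb_eq {p : ℕ} (I : Fin p ↪o Fin ℓ) :
    (Finset.univ.map I.toEmbedding).orderEmbOfFin (by simp) = I := by
  have hc : (Finset.univ.map I.toEmbedding).card = p := by simp
  exact (Finset.orderEmbOfFin_unique' hc (f := I) (fun x => by simp)).symm

theorem toF_map {p : ℕ} (a : (Fin p → Fin ℓ) → A) (I : Fin p ↪o Fin ℓ) :
    toF a (Finset.univ.map I.toEmbedding) = a I := by
  rw [toF_of a (by simp), emb_eq]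

theorem isAlt_insertNth {p : ℕ} {a : (Fin (p + 1) → Fin ℓ) → A} (ha : IsAlt a)
    (k : Fin (p + 1)) (i : Fin ℓ) (v : Fin p → Fin ℓ) :
    a (k.insertNth i v) = (-1) ^ (k : ℕ) * a (Fin.cons i v) := by
  have h := AlternatingMap.map_insertNth (Htpy.amap a ha) k (Pi.single i (1 : A))
    (fun j => Pi.single (v j) (1 : A))
  have e1 : (k.insertNth (Pi.single i (1 : A)) (fun j => Pi.single (v j) (1 : A)) :
      Fin (p + 1) → Fin ℓ → A) =
      fun j => Pi.single ((k.insertNth i v : Fin (p + 1) → Fin ℓ) j) (1 : A) := by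
    funext j
    refine Fin.succAboveCases k ?_ (fun j => ?_) j
    · simp
    · simp
  have e2 : (Matrix.vecCons (Pi.single i (1 : A)) (fun j => Pi.single (v j) (1 : A)) :
      Fin (p + 1) → Fin ℓ → A) =
      fun j => Pi.single ((Fin.cons i v : Fin (p + 1) → Fin ℓ) j) (1 : A) := by
    funext j
    refine Fin.cases ?_ (fun j => ?_) j
    · rfl
    · rfl
  rw [e1, e2, Htpy.amap_basis, Htpy.amap_basis] at h
  rw [h]
  rcases Nat.even_or_odd (k : ℕ) with he | ho
  · rw [he.neg_one_pow, he.neg_one_pow, one_mul, one_smul]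
  · rw [ho.neg_one_pow, ho.neg_one_pow, neg_smul, one_smul, neg_mul, one_mul]

/-- the sign of the sorted insertion -/
theorem cons_emb {p : ℕ} {a : (Fin (p + 1) → Fin ℓ) → A} (ha : IsAlt a) {J : Finset (Fin ℓ)}
    (hJ : J.card = p) {i : Fin ℓ} (hi : i ∉ J) :
    a (Fin.cons i (J.orderEmbOfFin hJ)) =
      (-1) ^ (J.filter (· < i)).card * toF a (insert i J) := by
  classical
  have hc : (insert i J).card = p + 1 := by rw [Finset.card_insert_of_notMem hi, hJ]
  set e := (insert i J).orderEmbOfFin hc with he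
  have hir : i ∈ Set.range e := by
    rw [he, Finset.range_orderEmbOfFin]
    exact Finset.mem_insert_self i J
  obtain ⟨k, hk⟩ := hir
  have h1 : (fun j => e (k.succAbove j)) = J.orderEmbOfFin hJ := by
    refine Finset.orderEmbOfFin_unique hJ (fun j => ?_) (fun x y hxy => ?_)
    · have h2 : e (k.succAbove j) ∈ insert i J := Finset.orderEmbOfFin_mem _ hc _
      rcases Finset.mem_insert.1 h2 with h3 | h3
      · exfalso
        rw [← hk] at h3
        exact Fin.succAbove_ne k j (e.injective h3)
      · exact h3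
    · exact e.strictMono (Fin.strictMono_succAbove k hxy)
  have h2 : (e : Fin (p + 1) → Fin ℓ) = k.insertNth i (J.orderEmbOfFin hJ) := by
    rw [← h1]
    funext j
    refine Fin.succAboveCases k ?_ (fun j => ?_) j
    · rw [Fin.insertNth_apply_same, hk]
    · rw [Fin.insertNth_apply_succAbove]
  have h3 : (J.filter (· < i)).card = (k : ℕ) := by
    have h4 : J.filter (· < i) = (Finset.univ.filter (fun j : Fin (p + 1) => j < k)).map
        e.toEmbedding := by
      ext x
      simp only [Finset.mem_filter, Finset.mem_map, Finset.mem_univ, true_and,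
        RelEmbedding.coe_toEmbedding]
      constructor
      · rintro ⟨hx, hxi⟩
        have hxr : x ∈ Set.range e := by
          rw [he, Finset.range_orderEmbOfFin]
          exact Finset.mem_insert_of_mem hx
        obtain ⟨j, rfl⟩ := hxr
        rw [← hk] at hxi
        exact ⟨j, e.lt_iff_lt.1 hxi, rfl⟩
      · rintro ⟨j, hj, rfl⟩
        have hji : e j < i := by rw [← hk]; exact e.lt_iff_lt.2 hj
        refine ⟨?_, hji⟩
        have h5 : e j ∈ insert i J := Finset.orderEmbOfFin_mem _ hc _
        rcases Finset.mem_insert.1 h5 with h6 | h6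
        · exact absurd h6 hji.ne
        · exact h6
    rw [h4, Finset.card_map]
    have : (Finset.univ.filter (fun j : Fin (p + 1) => j < k)) = Finset.Iio k := by
      ext x
      simp
    rw [this, Fin.card_Iio]
  rw [h3, toF_of a hc, ← he, h2, isAlt_insertNth ha, ← mul_assoc, ← pow_add,
    Even.neg_one_pow ⟨_, rfl⟩, one_mul]

/-- contraction of an array with a covector -/
theorem con_toF {p : ℕ} {a : (Fin (p + 1) → Fin ℓ) → A} (ha : IsAlt a) (b : Fin ℓ → A)
    {J : Finset (Fin ℓ)} (hJ : J.card = p) :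
    con b a (J.orderEmbOfFin hJ) = ctr b (toF a) J := by
  classical
  change ∑ i, b i * a (Fin.cons i (J.orderEmbOfFin hJ)) = _
  rw [ctr, ← Finset.sum_subset (Finset.subset_univ Jᶜ)]
  · refine Finset.sum_congr rfl fun i hi => ?_
    rw [Finset.mem_compl] at hi
    rw [cons_emb ha hJ hi]
    ring
  · intro i _ hi
    rw [Finset.mem_compl, not_not] at hi
    have : ¬ Function.Injective (Fin.cons i (J.orderEmbOfFin hJ) : Fin (p + 1) → Fin ℓ) := by
      intro hinj
      have hir : i ∈ Set.range (J.orderEmbOfFin hJ) := by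
        rw [Finset.range_orderEmbOfFin]
        exact hi
      obtain ⟨k, hk⟩ := hir
      have h0 : (Fin.cons i (J.orderEmbOfFin hJ) : Fin (p + 1) → Fin ℓ) 0 =
          (Fin.cons i (J.orderEmbOfFin hJ) : Fin (p + 1) → Fin ℓ) k.succ := by
        rw [Fin.cons_zero, Fin.cons_succ, hk]
      exact absurd (hinj h0) (Fin.succ_ne_zero k).symm
    rw [ha.nz _ this, mul_zero]

theorem isAlt_con {p : ℕ} {a : (Fin (p + 1) → Fin ℓ) → A} (ha : IsAlt a) (b : Fin ℓ → A) :
    IsAlt (con b a) := by
  have h := Htpy.isAlt_of_map ((Htpy.amap a ha).curryLeft b)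
  have e : (fun w : Fin p → Fin ℓ =>
      ((Htpy.amap a ha).curryLeft b) (fun k => Pi.single (w k) 1)) = con b a := by
    funext w
    rw [AlternatingMap.curryLeft_apply_apply]
    have h1 : b = ∑ i, b i • (Pi.single i (1 : A) : Fin ℓ → A) := by
      funext j
      simp [Finset.sum_apply, Pi.single_apply]
    conv_lhs => rw [h1]
    change (Htpy.amap a ha).toMultilinearMap (Fin.cons _ _) = _
    rw [← MultilinearMap.curryLeft_apply, map_sum, sum_apply]
    change _ = ∑ i, b i * a (Fin.cons i w)
    refine Finset.sum_congr rfl fun i _ => ?_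
    rw [map_smul, smul_apply, MultilinearMap.curryLeft_apply, smul_eq_mul]
    congr 1
    rw [← Htpy.amap_basis a ha]
    change (Htpy.amap a ha) _ = _
    congr 1
    funext j
    refine Fin.cases ?_ (fun j => ?_) j
    · rfl
    · rfl
  rw [← e]
  exact h

/-- an alternating array in terms of its values at increasing indices -/
theorem array_expand {p : ℕ} {a : (Fin p → Fin ℓ) → A} (ha : IsAlt a) (w : Fin p → Fin ℓ) :
    a w = ∑ I : Fin p ↪o Fin ℓ,
      (Matrix.of fun i j => (Pi.single (w i) (1 : A) : Fin ℓ → A) (I j)).det * a I := by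
  rw [← Htpy.amap_basis a ha, Minors.expand]
  refine Finset.sum_congr rfl fun I _ => ?_
  rw [Htpy.amap_basis a ha]

/-- the array with given values at finite sets -/
noncomputable def arr (p : ℕ) (c : Finset (Fin ℓ) → A) (w : Fin p → Fin ℓ) : A :=
  (∑ I : Fin p ↪o Fin ℓ, c (Finset.univ.map I.toEmbedding) • Minors.psi 1 I)
    (fun k => Pi.single (w k) 1)

theorem isAlt_arr (p : ℕ) (c : Finset (Fin ℓ) → A) : IsAlt (arr p c) :=
  Htpy.isAlt_of_map _

theorem arr_apply (p : ℕ) (c : Finset (Fin ℓ) → A) (w : Fin p → Fin ℓ) :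
    arr p c w = ∑ I : Fin p ↪o Fin ℓ, c (Finset.univ.map I.toEmbedding) *
      ((1 : Matrix (Fin ℓ) (Fin ℓ) A).submatrix I w).det := by
  let ev : ((Fin ℓ → A) [⋀^Fin p]→ₗ[A] A) →ₗ[A] A :=
    { toFun := fun f => f (fun k => Pi.single (w k) 1)
      map_add' := fun _ _ => rfl
      map_smul' := fun _ _ => rfl }
  change ev _ = _
  rw [map_sum]
  refine Finset.sum_congr rfl fun I _ => ?_
  rw [map_smul, smul_eq_mul]
  congr 1
  exact Minors.psi_basis 1 I w

theorem arr_emb {p : ℕ} (c : Finset (Fin ℓ) → A) (J : Fin p ↪o Fin ℓ) :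
    arr p c J = c (Finset.univ.map J.toEmbedding) := by
  classical
  rw [arr_apply, Finset.sum_eq_single J]
  · have : (1 : Matrix (Fin ℓ) (Fin ℓ) A).submatrix J J = 1 := by
      exact Matrix.submatrix_one_embedding J.toEmbedding
    rw [this, Matrix.det_one, mul_one]
  · intro I _ hIJ
    have hne : ∃ i, ∀ j, I i ≠ J j := by
      by_contra hcon
      push Not at hcon
      apply hIJ
      have h1 : Finset.univ.map I.toEmbedding ⊆ Finset.univ.map J.toEmbedding := by
        intro x hx
        obtain ⟨i, -, rfl⟩ := Finset.mem_map.1 hx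
        obtain ⟨j, hj⟩ := hcon i
        rw [RelEmbedding.coe_toEmbedding, hj]
        exact Finset.mem_map_of_mem _ (Finset.mem_univ j)
      have h2 : Finset.univ.map I.toEmbedding = Finset.univ.map J.toEmbedding :=
        Finset.eq_of_subset_of_card_le h1 (by simp)
      have e1 := emb_eq I
      have e2 := emb_eq J
      rw [← e1, ← e2]
      congr 1
    obtain ⟨i, hi⟩ := hne
    rw [Matrix.det_eq_zero_of_row_eq_zero i, mul_zero]
    intro j
    rw [Matrix.submatrix_apply, Matrix.one_apply_ne (hi j)]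
  · intro h
    exact absurd (Finset.mem_univ _) h

theorem toF_arr {p : ℕ} {c : Finset (Fin ℓ) → A} (hc : ∀ J, J.card ≠ p → c J = 0) :
    toF (arr p c) = c := by
  funext J
  by_cases h : J.card = p
  · rw [toF_of _ h, arr_emb]
    congr 1
    ext x
    rw [Finset.mem_map]
    constructor
    · rintro ⟨i, -, rfl⟩
      exact Finset.orderEmbOfFin_mem _ h i
    · intro hx
      have : x ∈ Set.range (J.orderEmbOfFin h) := by
        rw [Finset.range_orderEmbOfFin]
        exact hx
      obtain ⟨i, hi⟩ := this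
      exact ⟨i, Finset.mem_univ _, hi⟩
  · rw [toF_ne _ h, hc J h]

theorem ctr_toF_dvd {p : ℕ} {a : (Fin (p + 1) → Fin ℓ) → A} (ha : IsAlt a) (b : Fin ℓ → A)
    (x : A) : (∀ (w : Fin (p + 1) → Fin ℓ) (j : Fin (p + 1)),
      x ∣ ∑ i, b i * a (Function.update w j i)) ↔ ∀ J, x ∣ ctr b (toF a) J := by
  classical
  constructor
  · intro h J
    by_cases hJ : J.card = p
    · rw [← con_toF ha b hJ]
      rcases isEmpty_or_nonempty (Fin ℓ) with hem | ⟨⟨i₀⟩⟩
      · change x ∣ ∑ i, b i * a (Fin.cons i (J.orderEmbOfFin hJ))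
        rw [Finset.univ_eq_empty, Finset.sum_empty]
        exact dvd_zero x
      · have h1 := h (Fin.cons i₀ (J.orderEmbOfFin hJ)) 0
        simp only [Fin.update_cons_zero] at h1
        exact h1
    · have : ctr b (toF a) J = 0 := by
        rw [ctr]
        refine Finset.sum_eq_zero fun i hi => ?_
        rw [Finset.mem_compl] at hi
        rw [toF_ne, mul_zero, mul_zero]
        rw [Finset.card_insert_of_notMem hi]
        omega
      rw [this]
      exact dvd_zero x
  · intro h w j
    have h1 : ∀ v : Fin p → Fin ℓ, x ∣ con b a v := by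
      intro v
      rw [array_expand (isAlt_con ha b) v]
      refine Finset.dvd_sum fun I _ => Dvd.dvd.mul_left ?_ _
      have h2 := h (Finset.univ.map I.toEmbedding)
      rw [← con_toF ha b (J := Finset.univ.map I.toEmbedding) (p := p) (by simp), emb_eq] at h2
      exact h2
    have h3 : ∑ i, b i * a (Function.update w j i) = (-1) ^ (j : ℕ) * con b a (j.removeNth w) := by
      change _ = (-1) ^ (j : ℕ) * ∑ i, b i * a (Fin.cons i (j.removeNth w))
      rw [Finset.mul_sum]
      refine Finset.sum_congr rfl fun i _ => ?_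
      have e : Function.update w j i = j.insertNth i (j.removeNth w) := by
        rw [Fin.insertNth_removeNth]
      rw [e, isAlt_insertNth ha]
      ring
    rw [h3]
    exact Dvd.dvd.mul_left (h1 _) _

end Gen

section Main

variable {K : Type u} [Field K] {ℓ : ℕ}

/-- Homogeneous logarithmic `p`-derivations as functions of finite sets of indices: supported on
the sets of `p` elements, with values forms of degree `k`, and for every `b` in `B` the contraction
with `b` divisible by the linear form of `b`. -/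
def LF (B : Finset (Fin ℓ → K)) (p k : ℕ) : Submodule K (Finset (Fin ℓ) → S K ℓ) where
  carrier := {c | (∀ J, J.card ≠ p → c J = 0) ∧ (∀ J, (c J).IsHomogeneous k) ∧
    ∀ b ∈ B, ∀ J, lin b ∣ ctr (fun i => C (b i)) c J}
  add_mem' := by
    rintro c c' ⟨h1, h2, h3⟩ ⟨h1', h2', h3'⟩
    refine ⟨fun J hJ => ?_, fun J => (h2 J).add (h2' J), fun b hb J => ?_⟩
    · rw [Pi.add_apply, h1 J hJ, h1' J hJ, add_zero]
    · have := dvd_add (h3 b hb J) (h3' b hb J)
      simpa only [ctr, Pi.add_apply, mul_add, Finset.sum_add_distrib] using this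
  zero_mem' := by
    refine ⟨fun J _ => rfl, fun J => isHomogeneous_zero _ _ _, fun b _ J => ?_⟩
    simp [ctr]
  smul_mem' := by
    rintro r c ⟨h1, h2, h3⟩
    refine ⟨fun J hJ => ?_, fun J => ?_, fun b hb J => ?_⟩
    · rw [Pi.smul_apply, h1 J hJ, smul_zero]
    · exact (homogeneousSubmodule (Fin ℓ) K k).smul_mem r (h2 J)
    · have := Dvd.dvd.mul_left (h3 b hb J) (C r)
      have e : ctr (fun i => C (b i)) (r • c) J = C r * ctr (fun i => C (b i)) c J := by
        rw [ctr, ctr, Finset.mul_sum]
        refine Finset.sum_congr rfl fun i _ => ?_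
        rw [Pi.smul_apply, smul_eq_C_mul]
        ring
      rw [e]
      exact this

theorem mem_LF {B : Finset (Fin ℓ → K)} {p k : ℕ} {c : Finset (Fin ℓ) → S K ℓ} :
    c ∈ LF B p k ↔ (∀ J, J.card ≠ p → c J = 0) ∧ (∀ J, (c J).IsHomogeneous k) ∧
      ∀ b ∈ B, ∀ J, lin b ∣ ctr (fun i => C (b i)) c J := Iff.rfl

theorem toF_log {B : Finset (Fin ℓ → K)} {p : ℕ} {a : (Fin p → Fin ℓ) → S K ℓ} (ha : IsAlt a) :
    a ∈ LogA (S K ℓ) B p ↔ ∀ b ∈ B, ∀ J, lin b ∣ ctr (fun i => C (b i)) (toF a) J := by
  change (IsAlt a ∧ ∀ b ∈ B, ∀ (w : Fin p → Fin ℓ) (j : Fin p), _ ∣ _) ↔ _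
  rw [and_iff_right ha]
  cases p with
  | zero =>
    constructor
    · intro _ b _ J
      have : ctr (fun i => C (b i)) (toF a) J = 0 := by
        rw [ctr]
        refine Finset.sum_eq_zero fun i hi => ?_
        rw [Finset.mem_compl] at hi
        rw [toF_ne, mul_zero, mul_zero]
        rw [Finset.card_insert_of_notMem hi]
        omega
      rw [this]
      exact dvd_zero _
    · intro _ b _ w j
      exact Fin.elim0 j
  | succ p =>
    refine forall₂_congr fun b _ => ?_
    exact ctr_toF_dvd ha (fun i => C (b i)) (lin b)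

/-- the restriction to finite sets as a linear map -/
noncomputable def toFL (p : ℕ) : ((Fin p → Fin ℓ) → S K ℓ) →ₗ[K] (Finset (Fin ℓ) → S K ℓ) where
  toFun a := toF a
  map_add' a a' := by
    funext J
    by_cases h : J.card = p
    · rw [Pi.add_apply, toF_of _ h, toF_of _ h, toF_of _ h, Pi.add_apply]
    · rw [Pi.add_apply, toF_ne _ h, toF_ne _ h, toF_ne _ h, add_zero]
  map_smul' r a := by
    funext J
    by_cases h : J.card = p
    · rw [RingHom.id_apply, Pi.smul_apply, toF_of _ h, toF_of _ h, Pi.smul_apply]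
    · rw [RingHom.id_apply, Pi.smul_apply, toF_ne _ h, toF_ne _ h, smul_zero]

theorem hom_of_emb {p k : ℕ} {a : (Fin p → Fin ℓ) → S K ℓ} (ha : IsAlt a)
    (h : ∀ I : Fin p ↪o Fin ℓ, (a I).IsHomogeneous k) (w : Fin p → Fin ℓ) :
    (a w).IsHomogeneous k := by
  rw [array_expand ha w]
  refine IsHomogeneous.sum _ _ _ fun I _ => ?_
  have e : (Matrix.of fun i j => (Pi.single (w i) (1 : S K ℓ) : Fin ℓ → S K ℓ) (I j)).det =
      C (Matrix.of fun i j => (Pi.single (w i) (1 : K) : Fin ℓ → K) (I j)).det := by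
    rw [RingHom.map_det]
    congr 1
    ext i j
    rw [RingHom.mapMatrix_apply, Matrix.map_apply, Matrix.of_apply, Matrix.of_apply,
      Pi.single_apply, Pi.single_apply]
    split_ifs <;> simp
  rw [e]
  simpa using (isHomogeneous_C (Fin ℓ) _).mul (h I)

/-- **The two forms of logarithmic derivations have the same dimensions.** -/
theorem finrank_LF (B : Finset (Fin ℓ → K)) (p k : ℕ) :
    Module.finrank K (LF B p k) = Thick51.dm51 B p (k : ℤ) := by
  unfold Thick51.dm51
  set L : Submodule K ((Fin p → Fin ℓ) → S K ℓ) :=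
    Hm grS (fun _ : (Fin p → Fin ℓ) => 0) (k : ℤ) ⊓ (LogA (S K ℓ) B p).restrictScalars K with hL
  have hmem : ∀ a, a ∈ L ↔ (∀ w, (a w).IsHomogeneous k) ∧ a ∈ LogA (S K ℓ) B p := by
    intro a
    rw [hL, Submodule.mem_inf, Submodule.restrictScalars_mem]
    refine and_congr_left fun _ => ?_
    change (∀ w, a w ∈ grS ((k : ℤ) - 0)) ↔ _
    refine forall_congr' fun w => ?_
    rw [sub_zero, Grad.grS_nat, mem_homogeneousSubmodule]
  have hinj : Function.Injective ((toFL (K := K) (ℓ := ℓ) p).domRestrict L) := by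
    rw [← LinearMap.ker_eq_bot, LinearMap.ker_eq_bot']
    rintro ⟨a, ha⟩ h0
    have ha' : IsAlt a := ((hmem a).1 ha).2.1
    have h1 : toF a = 0 := h0
    apply Subtype.ext
    funext w
    change a w = 0
    rw [array_expand ha' w]
    refine Finset.sum_eq_zero fun I _ => ?_
    rw [← toF_map a I, h1, Pi.zero_apply, mul_zero]
  have hr : LinearMap.range ((toFL (K := K) (ℓ := ℓ) p).domRestrict L) = LF B p k := by
    ext c
    rw [LinearMap.mem_range]
    constructor
    · rintro ⟨⟨a, ha⟩, rfl⟩
      obtain ⟨h1, h2⟩ := (hmem a).1 ha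
      refine mem_LF.2 ⟨fun J hJ => toF_ne a hJ, fun J => ?_, ?_⟩
      · change (toF a J).IsHomogeneous k
        by_cases h : J.card = p
        · rw [toF_of _ h]
          exact h1 _
        · rw [toF_ne _ h]
          exact isHomogeneous_zero _ _ _
      · exact (toF_log h2.1).1 h2
    · intro hc
      obtain ⟨h1, h2, h3⟩ := mem_LF.1 hc
      have e := toF_arr (p := p) h1
      refine ⟨⟨arr p c, (hmem _).2 ⟨fun w => ?_, ?_⟩⟩, e⟩
      · refine hom_of_emb (isAlt_arr p c) (fun I => ?_) w
        rw [arr_emb]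
        exact h2 _
      · rw [toF_log (isAlt_arr p c), e]
        exact h3
  rw [← hr]
  exact LinearMap.finrank_range_of_inj hinj

end Main

/-- The functions on finite sets of the statement file are the same. -/
theorem stFin_86 : stFin81.{u} := by
  intro K _ ℓ B p k
  rw [← finrank_LF]
  have e : LF B p k = LF81 B p k := by
    ext c
    refine and_congr_right fun _ => and_congr_right fun _ => forall₂_congr fun b _ =>
      forall_congr' fun J => ?_
    have e2 : ctr (fun i => C (b i)) c J = fcon81 b c J := by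
      rw [ctr, fcon81]
      refine Finset.sum_congr rfl fun i _ => ?_
      rw [eps81, zsmul_eq_mul]
      push_cast
      rfl
    rw [e2]
  rw [e]

end Pool.Agent.Lib.MP_fe1391_co.CX42.FinA86
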