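import Pool.Agent.Lib.MP_fe1391_co.Thick51.Ser
import Pool.Agent.Lib.MP_fe1391_co.Tame.Final

/-!
# A free arrangement and a hyperplane: the power series
-/

set_option autoImplicit false

namespace Pool.Agent.Lib.MP_fe1391_co.CX42

open MvPolynomial Pool.Agent.Lib.MP_fe1391_co.Tame Pool.Agent.Lib.MP_fe1391_co.Thick51

universe u

/-- the first telescoping sum -/
theorem tel1_88 {R : Type*} [CommRing R] (x : R) (D ζ : ℕ → R) (h0 : D 0 = ζ 0)
    (h1 : ∀ p, D (p + 1) = ζ (p + 1) + x * ζ p) (N : ℕ) :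
    ∑ p ∈ Finset.range (N + 1), D p * (-x) ^ p =
      (1 - x ^ 2) * ∑ p ∈ Finset.range (N + 1), ζ p * (-x) ^ p + x ^ 2 * (ζ N * (-x) ^ N) := by
  induction N with
  | zero =>
    simp only [zero_add, Finset.sum_range_one, h0]
    ring
  | succ N ih =>
    rw [Finset.sum_range_succ, ih, Finset.sum_range_succ _ (N + 1), h1, pow_succ (-x) N]
    ring

/-- the second telescoping sum -/
theorem tel2_88 {R : Type*} [CommRing R] (x : R) (E ζ : ℕ → R) (h0 : E 0 = ζ 0)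
    (h1 : ∀ p, E (p + 2) = ζ (p + 2) + ζ (p + 1)) (N : ℕ) :
    ∑ p ∈ Finset.range (N + 2), E p * (-x) ^ p -
        x * ∑ p ∈ Finset.range (N + 2), E p * (-1) ^ p =
      (1 - x) * ∑ p ∈ Finset.range (N + 2), ζ p * (-x) ^ p +
        x * (ζ (N + 1) * ((-x) ^ (N + 1) - (-1) ^ (N + 1))) := by
  induction N with
  | zero =>
    simp only [zero_add, Finset.sum_range_succ, Finset.sum_range_zero, h0]
    ring
  | succ N ih =>
    have e : N + 1 + 2 = (N + 2) + 1 := by omega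
    have e2 : N + 1 + 1 = N + 2 := by omega
    rw [e, Finset.sum_range_succ, Finset.sum_range_succ _ (N + 2),
      Finset.sum_range_succ (fun p => ζ p * (-x) ^ p) (N + 2), h1, e2]
    have h2 : (-x) ^ (N + 2) = (-x) * (-x) ^ (N + 1) := by rw [← pow_succ']
    have h3 : (-1 : R) ^ (N + 2) = - (-1) ^ (N + 1) := by
      rw [pow_succ' (-1 : R) (N + 1)]
      ring
    rw [h2, h3]
    linear_combination ih

/-- sums over subsets by cardinality -/
theorem sub_88 {R : Type*} [CommRing R] {ℓ : ℕ} (x y : R) (d : Fin ℓ → ℕ) :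
    ∑ p ∈ Finset.range (ℓ + 1), (∑ I ∈ Finset.powersetCard p (Finset.univ : Finset (Fin ℓ)),
      x ^ (∑ i ∈ I, d i)) * y ^ p = ∏ i, (1 + x ^ (d i) * y) := by
  rw [Finset.prod_one_add, Finset.sum_powerset]
  simp only [Finset.card_univ, Fintype.card_fin]
  refine Finset.sum_congr rfl fun p _ => ?_
  rw [Finset.sum_mul]
  refine Finset.sum_congr rfl fun I hI => ?_
  rw [Finset.mem_powersetCard] at hI
  rw [Finset.prod_mul_distrib, Finset.prod_const, hI.2, Finset.prod_pow_eq_pow_sum]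

/-- the power series half of the formula for a free arrangement and a hyperplane -/
theorem gf67 (K : Type u) [Field K] (ℓ : ℕ) (hℓ : 1 ≤ ℓ) (B B0 : Finset (Fin ℓ → K))
    (hB0 : Tame.Norm B0) (d : Fin ℓ → ℕ) (θ : Matrix (Fin ℓ) (Fin ℓ) (S K ℓ))
    (hS : IsSaito B0 d θ) (ζ : ℕ → PowerSeries ℤ) (h0 : ζ 0 = DS51 B0 0) (h0' : DS51 B 0 = ζ 0)
    (h1 : ∀ p, DS51 B (p + 1) = ζ (p + 1) + PowerSeries.X * ζ p)
    (h2 : ∀ p, DS51 B0 (p + 2) = ζ (p + 2) + ζ (p + 1)) (h3 : ∀ p, ℓ ≤ p → ζ p = 0) :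
    PS51 B = (1 + PowerSeries.X) *
      (∏ i, ∑ j ∈ Finset.range (d i + 1), (PowerSeries.X : PowerSeries ℤ) ^ j -
        PowerSeries.X * ∏ i, ∑ j ∈ Finset.range (d i), (PowerSeries.X : PowerSeries ℤ) ^ j) := by
  set x : PowerSeries ℤ := PowerSeries.X with hx
  have hH : ∀ p : ℕ, DS51 B0 p * (1 - x) ^ ℓ =
      ∑ I ∈ Finset.powersetCard p (Finset.univ : Finset (Fin ℓ)), x ^ (∑ i ∈ I, d i) :=
    fun p => Final.hilbP K ℓ B0 hB0 d θ hS p
  have hY : ∀ y : PowerSeries ℤ,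
      (∑ p ∈ Finset.range (ℓ + 1), DS51 B0 p * y ^ p) * (1 - x) ^ ℓ =
        ∏ i, (1 + x ^ (d i) * y) := by
    intro y
    rw [← sub_88, Finset.sum_mul]
    refine Finset.sum_congr rfl fun p _ => ?_
    rw [← hH]
    ring
  have hG : ∀ n : ℕ, (1 - x) * ∑ j ∈ Finset.range n, x ^ j = 1 - x ^ n := fun n =>
    mul_neg_geom_sum x n
  have hG2 : ∀ e : Fin ℓ → ℕ, ∏ i, (1 - x ^ (e i)) =
      (1 - x) ^ ℓ * ∏ i, ∑ j ∈ Finset.range (e i), x ^ j := by
    intro e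
    have : ∏ i : Fin ℓ, (1 - x ^ (e i)) = ∏ i : Fin ℓ, ((1 - x) * ∑ j ∈ Finset.range (e i), x ^ j) :=
      Finset.prod_congr rfl fun i _ => (hG _).symm
    rw [this, Finset.prod_mul_distrib, Finset.prod_const, Finset.card_univ, Fintype.card_fin]
  have hA := tel1_88 x (DS51 B) ζ h0' h1 ℓ
  rw [h3 ℓ le_rfl, zero_mul, mul_zero, add_zero] at hA
  obtain ⟨N, rfl⟩ : ∃ N, ℓ = N + 1 := ⟨ℓ - 1, by omega⟩
  have hB := tel2_88 x (DS51 B0) ζ h0.symm h2 N
  rw [h3 (N + 1) le_rfl, zero_mul, mul_zero, add_zero] at hB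
  set T := ∑ p ∈ Finset.range (N + 1 + 1), ζ p * (-x) ^ p with hT
  have hne : (1 - x : PowerSeries ℤ) ^ (N + 1) ≠ 0 := by
    apply pow_ne_zero
    intro h
    have := congrArg (PowerSeries.constantCoeff (R := ℤ)) h
    simp [hx] at this
  have hC : (1 - x) * T = ∏ i, ∑ j ∈ Finset.range (d i + 1), x ^ j -
      x * ∏ i, ∑ j ∈ Finset.range (d i), x ^ j := by
    apply mul_right_cancel₀ hne
    have e1 := hY (-x)
    have e2 := hY (-1)
    have e3 : ∏ i, (1 + x ^ (d i) * (-x)) = ∏ i, (1 - x ^ (d i + 1)) :=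
      Finset.prod_congr rfl fun i _ => by ring
    have e4 : ∏ i, (1 + x ^ (d i) * (-1)) = ∏ i, (1 - x ^ (d i)) :=
      Finset.prod_congr rfl fun i _ => by ring
    rw [e3, hG2 fun i => d i + 1] at e1
    rw [e4, hG2 d] at e2
    have e5 : (1 - x) * T * (1 - x) ^ (N + 1) =
        (∑ p ∈ Finset.range (N + 1 + 1), DS51 B0 p * (-x) ^ p) * (1 - x) ^ (N + 1) -
        x * ((∑ p ∈ Finset.range (N + 1 + 1), DS51 B0 p * (-1) ^ p) * (1 - x) ^ (N + 1)) := by
      rw [← hB]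
      ring
    rw [e5, e1, e2]
    ring
  have hP : PS51 B = ∑ p ∈ Finset.range (N + 1 + 1), DS51 B p * (-x) ^ p := rfl
  rw [hP, hA, ← hC]
  ring

end Pool.Agent.Lib.MP_fe1391_co.CX42
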