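import Pool.Agent.Lib.MP_fe1391_co.CX42.Num88

/-!
# The polynomial of four braid arrangements and a hyperplane, from the general formula
-/

set_option autoImplicit false

namespace Pool.Agent.Lib.MP_fe1391_co.CX42.Num88

open Polynomial

theorem coe_geo (n : ℕ) : ((geo n : ℤ[X]) : PowerSeries ℤ) =
    ∑ j ∈ Finset.range n, (PowerSeries.X : PowerSeries ℤ) ^ j := by
  rw [geo, ← Polynomial.coeToPowerSeries.ringHom_apply, map_sum]
  refine Finset.sum_congr rfl fun j _ => ?_
  rw [map_pow, Polynomial.coeToPowerSeries.ringHom_apply, Polynomial.coe_X]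

/-- the formula for a free arrangement with exponents `(1, 2, 3)^4` and a hyperplane -/
theorem coe_f2 (d : Fin 12 → ℕ) (hd : ∀ i, d i = (i : ℕ) % 3 + 1) :
    ((f2 : ℤ[X]) : PowerSeries ℤ) = (1 + PowerSeries.X) *
      (∏ i, ∑ j ∈ Finset.range (d i + 1), (PowerSeries.X : PowerSeries ℤ) ^ j -
        PowerSeries.X * ∏ i, ∑ j ∈ Finset.range (d i), (PowerSeries.X : PowerSeries ℤ) ^ j) := by
  have h1 : ∀ e : Fin 12 → ℕ, ∏ i, ∑ j ∈ Finset.range (e i), (PowerSeries.X : PowerSeries ℤ) ^ j =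
      ((∏ i, geo (e i) : ℤ[X]) : PowerSeries ℤ) := by
    intro e
    rw [← Polynomial.coeToPowerSeries.ringHom_apply, map_prod]
    refine Finset.prod_congr rfl fun i _ => ?_
    rw [Polynomial.coeToPowerSeries.ringHom_apply, coe_geo]
  rw [h1 d, h1 fun i => d i + 1]
  have h2 : f2 = (1 + X) * (∏ i, geo (d i + 1) - X * ∏ i, geo (d i)) := by
    have h3 : geo 1 = 1 := by simp [geo]
    simp only [hd, Fin.prod_univ_succ, Fin.prod_univ_zero]
    norm_num [Fin.val_succ, h3]
    rw [f2]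
    ring
  rw [h2]
  simp only [Polynomial.coe_mul, Polynomial.coe_add, Polynomial.coe_sub, Polynomial.coe_one,
    Polynomial.coe_X]

end Pool.Agent.Lib.MP_fe1391_co.CX42.Num88
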