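import Pool.Agent.Lib.MP_fe1391_co.CX42.FreeC39
import Pool.Agent.Lib.MP_fe1391_co.CX42.Gf67
import Pool.Agent.Lib.MP_fe1391_co.CX42.Num88b
import Pool.Agent.Lib.MP_fe1391_co.CX42.Reg49
import Pool.Agent.Lib.MP_fe1391_co.CX42.Sai49

/-!
# The Solomon-Terao series of a free arrangement with one more hyperplane

`m4_39`: the general formula when the Koszul complex of `g i = ∑ j, lam j θ i j` is exact;
`psi25`: four braid arrangements `A_3` with the hyperplane `x_1 + ... + x_12 = 0`.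
-/

set_option autoImplicit false

namespace Pool.Agent.Lib.MP_fe1391_co.CX42

open MvPolynomial Pool.Agent.Lib.MP_fe1391_co.Tame Pool.Agent.Lib.MP_fe1391_co.Thick51
open Pool.Agent.Lib.MP_fe1391_co.CX.FP39

universe u

theorem m4_39 (K : Type u) [Field K] (ℓ : ℕ) (B B0 : Finset (Fin ℓ → K)) (hB : Tame.Norm B0)
    (d : Fin ℓ → ℕ) (θ : Matrix (Fin ℓ) (Fin ℓ) (S K ℓ)) (hS : IsSaito B0 d θ)
    (lam : Fin ℓ → K) (hN : Tame.Norm B) (hBB : ∀ b, b ∈ B ↔ b = lam ∨ b ∈ B0)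
    (hlam : lam ∉ B0) (hg : Reg72 (fun i => ∑ j, C (lam j) * θ i j)) :
    PS51 B = (1 + PowerSeries.X) *
      (∏ i, ∑ j ∈ Finset.range (d i + 1), (PowerSeries.X : PowerSeries ℤ) ^ j -
        PowerSeries.X * ∏ i, ∑ j ∈ Finset.range (d i), (PowerSeries.X : PowerSeries ℤ) ^ j) := by
  have hℓ : 1 ≤ ℓ := by
    rcases Nat.eq_zero_or_pos ℓ with h | h
    · subst h
      exact absurd (Subsingleton.elim lam 0) (hN.ne lam ((hBB lam).2 (Or.inl rfl)))
    · exact h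
  exact gf67 K ℓ hℓ B B0 hB d θ hS (zet B0 lam) (zet_zero B0 lam) (zet_zero' B B0 lam)
    (ser_decomp hN hBB hlam) (ser_exact hB hS hg) (zet_big hℓ hB hS hg)

/-- the twenty-five hyperplanes -/
theorem psi25 (K : Type u) [Field K] (h2 : (2 : K) ≠ 0) (h3 : (3 : K) ≠ 0) :
    PS51 (Sai49.B25 K) = ((Num88.f2 : Polynomial ℤ) : PowerSeries ℤ) := by
  classical
  rw [Num88.coe_f2 Sai49.dg (fun _ => rfl)]
  refine m4_39 K 12 (Sai49.B25 K) (Sai49.B24 K) (Sai49.norm24 K) Sai49.dg (Sai49.th K)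
    (Sai49.isSaito49 K) (fun _ => 1) (Sai49.norm25 K) (fun b => ?_) (Sai49.one_not_mem K) ?_
  · unfold Sai49.B25
    rw [Finset.mem_insert]
  · have hv : (fun i => ∑ j, C ((fun _ => 1 : Fin 12 → K) j) * Sai49.th K i j) = Reg49.gv K := by
      funext i
      exact Sai49.val49 K i
    rw [hv]
    exact Reg49.reg49 K (isUnit_iff_ne_zero.2 h2) (isUnit_iff_ne_zero.2 h3)

end Pool.Agent.Lib.MP_fe1391_co.CX42
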