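import Pool.Agent.Lib.MP_fe1391_co.CX42.K33B12
import Pool.Agent.Lib.MP_fe1391_co.CX42.Num88

/-!
# The dual matroid of `K_{3,3}`: Hilbert functions and the Solomon-Terao series
-/

set_option autoImplicit false

namespace Pool.Agent.Lib.MP_fe1391_co.CX12

open MvPolynomial Matrix Pool.Agent.Lib.MP_fe1391_co.Tame Pool.Agent.Lib.MP_fe1391_co.Quad51
open Pool.Agent.Lib.MP_fe1391_co.Quad51.Tra22 Pool.Agent.Lib.MP_fe1391_co.Thick51

universe u

variable {K : Type u} [Field K]

/-- dimension of the homogeneous polynomials -/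
noncomputable def cc (K : Type u) [Field K] (m : ℤ) : ℤ :=
  (Module.finrank K (grS (K := K) (ℓ := 4) m) : ℤ)

theorem cc_neg {m : ℤ} (hm : m < 0) : cc K m = 0 := gr_neg m hm

theorem cc_zero : cc K 0 = 1 := by
  have h := Grad.thmHS K 4
  have h1 := congrArg PowerSeries.constantCoeff h
  rw [map_mul, map_pow, map_sub, map_one, PowerSeries.constantCoeff_X, sub_zero, one_pow, mul_one,
    ← PowerSeries.coeff_zero_eq_constantCoeff_apply, PowerSeries.coeff_mk] at h1
  exact h1

theorem Q_gr' : Q K ∈ grS (K := K) (ℓ := 4) 8 := Q_gr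

/-- the fields are cubic -/
theorem T_gr (n : Fin 4) : T K n ∈ Vg K 4 3 := by
  have h0 : (X 0 : S K 4).IsHomogeneous 1 := isHomogeneous_X K 0
  have h1 : (X 1 : S K 4).IsHomogeneous 1 := isHomogeneous_X K 1
  have h2 : (X 2 : S K 4).IsHomogeneous 1 := isHomogeneous_X K 2
  have h3 : (X 3 : S K 4).IsHomogeneous 1 := isHomogeneous_X K 3
  have c2 : ∀ {p : S K 4} {n : ℕ}, p.IsHomogeneous n → (2 * p).IsHomogeneous n := by
    intro p n hp
    have := (isHomogeneous_C (Fin 4) (2 : K)).mul hp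
    rw [zero_add] at this
    have e : (C (2 : K) : S K 4) = 2 := map_ofNat C 2
    rwa [e] at this
  intro i
  apply grS_of_hom51 (n := 3)
  fin_cases n
  · fin_cases i
    · exact h0.mul (((((h0.mul h3).neg.sub ((c2 h1).mul h2)).sub ((c2 h1).mul h3)).sub
        ((c2 h2).mul h3)).sub (h3.pow 2))
    · exact ((h1.mul (h1.add h3)).mul ((c2 h2).add h3)).neg
    · exact ((h2.mul (h2.add h3)).mul ((c2 h1).add h3)).neg
  · fin_cases i
    · exact (h0.mul h2).mul (h0.sub h3)
    · exact ((h1.mul h2).mul (h1.add h3)).neg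
    · exact (h2.mul (h2.add h3)).mul ((c2 h0).add h2)
  · fin_cases i
    · exact (h0.mul h1).mul (h0.sub h3)
    · exact (h1.mul (h1.add h3)).mul ((c2 h0).add h1)
    · exact ((h1.mul h2).mul (h2.add h3)).neg
  · fin_cases i
    · exact h0.mul (((((h0.pow 2).add ((c2 h0).mul h1)).add ((c2 h0).mul h2)).add
        (h0.mul h3)).add ((c2 h1).mul h2))
    · exact (h0.mul h1).mul (h1.add h3)
    · exact (h0.mul h2).mul (h2.add h3)

/-- linear combinations of the fields -/
noncomputable def FF (K : Type u) [Field K] : (Fin 4 → S K 4) →ₗ[K] (Fin 3 → S K 4) where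
  toFun e := e 0 • T K 0 + e 1 • T K 1 + e 2 • T K 2 + e 3 • T K 3
  map_add' e f := by
    simp only [Pi.add_apply, add_smul]
    abel
  map_smul' c e := by
    simp only [Pi.smul_apply, smul_assoc, RingHom.id_apply, smul_add]

theorem FF_apply (e : Fin 4 → S K 4) :
    FF K e = e 0 • T K 0 + e 1 • T K 1 + e 2 • T K 2 + e 3 • T K 3 := rfl

/-- multiples of the relation -/
noncomputable def GG (K : Type u) [Field K] : S K 4 →ₗ[K] (Fin 4 → S K 4) where
  toFun c := fun i => X i * c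
  map_add' c d := by
    funext i
    exact mul_add _ _ _
  map_smul' a c := by
    funext i
    exact mul_smul_comm _ _ _

theorem FF_map (h2 : (2 : K) ≠ 0) (m : ℤ) :
    (Hm grS (fun _ : Fin 4 => (3 : ℤ)) m : Submodule K (Fin 4 → S K 4)).map (FF K) =
      pc (L1 (dd K)) m := by
  ext v
  rw [Submodule.mem_map, mem_pc51]
  constructor
  · rintro ⟨e, he, rfl⟩
    have k : ∀ i, e i • T K i ∈ Vg K 4 m := by
      intro i
      have := Vg_smul51 (he i) (T_gr (K := K) i)
      rwa [sub_add_cancel] at this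
    have l : ∀ i, e i • T K i ∈ L1 (dd K) := fun i => Submodule.smul_mem _ _ (T_mem K i)
    rw [FF_apply]
    exact ⟨Submodule.add_mem _ (Submodule.add_mem _ (Submodule.add_mem _ (k 0) (k 1)) (k 2)) (k 3),
      Submodule.add_mem _ (Submodule.add_mem _ (Submodule.add_mem _ (l 0) (l 1)) (l 2)) (l 3)⟩
  · rintro ⟨hv, hL⟩
    obtain ⟨e, he⟩ := span1 h2 hL
    refine ⟨fun i => Grad.pS (m - 3) (e i), fun i => Grad.pS_mem _ _, ?_⟩
    rw [FF_apply]
    have h1 := congrArg (pv51 m) he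
    rw [pv_of_mem51 hv, map_add, map_add, map_add, pv_smul51' (T_gr 0), pv_smul51' (T_gr 1),
      pv_smul51' (T_gr 2), pv_smul51' (T_gr 3)] at h1
    exact h1.symm

theorem FF_ker (h2 : (2 : K) ≠ 0) (m : ℤ) :
    (Hm grS (fun _ : Fin 4 => (3 : ℤ)) m ⊓ LinearMap.ker (FF K) : Submodule K (Fin 4 → S K 4)) =
      (grS (K := K) (ℓ := 4) (m - 4)).map (GG K) := by
  ext e
  rw [Submodule.mem_inf, Submodule.mem_map, LinearMap.mem_ker, FF_apply]
  constructor
  · rintro ⟨he, h0⟩
    obtain ⟨c, hc⟩ := relations h2 h0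
    refine ⟨c, ?_, funext fun i => (hc i).symm⟩
    have h1 := he 0
    rw [hc 0] at h1
    have h3 := grS_div51 (X_ne 0) (X_gr 0) h1
    have e1 : m - 3 - 1 = m - 4 := by ring
    rwa [e1] at h3
  · rintro ⟨c, hc, rfl⟩
    refine ⟨fun i => ?_, ?_⟩
    · have h1 := grS_mul51 (X_gr (K := K) i) hc
      have e1 : 1 + (m - 4) = m - 3 := by ring
      rw [e1] at h1
      exact h1
    · show (X 0 * c) • T K 0 + (X 1 * c) • T K 1 + (X 2 * c) • T K 2 + (X 3 * c) • T K 3 = 0
      have hr := relT (K := K)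
      funext i
      have hri := congrFun hr i
      simp only [Pi.add_apply, Pi.smul_apply, smul_eq_mul, Pi.zero_apply] at hri ⊢
      linear_combination c * hri

theorem finrank_Hm4 (a m : ℤ) :
    (Module.finrank K (Hm grS (fun _ : Fin 4 => a) m : Submodule K (Fin 4 → S K 4)) : ℤ) =
      4 * cc K (m - a) := by
  rw [Count.finrank_hm (Grad.thmS K 4).fin]
  rw [Finset.sum_const, Finset.card_univ, Fintype.card_fin]
  simp [cc]

theorem hh1 (h2 : (2 : K) ≠ 0) (m : ℤ) : hh (L1 (dd K)) m = 4 * cc K (m - 3) - cc K (m - 4) := by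
  have : Module.Finite K (Hm grS (fun _ : Fin 4 => (3 : ℤ)) m : Submodule K (Fin 4 → S K 4)) :=
    Count.finite_hm (Grad.thmS K 4).fin _ _
  have h := dim_map51 (FF K) (Hm grS (fun _ : Fin 4 => (3 : ℤ)) m : Submodule K (Fin 4 → S K 4))
  rw [FF_map h2, FF_ker h2, dim_inj51] at h
  · have h3 := finrank_Hm4 (K := K) 3 m
    rw [h] at h3
    push_cast at h3
    rw [hh, cc, cc] at *
    linarith
  · intro x hx
    have := congrFun hx 0
    exact (mul_eq_zero.1 this).resolve_left (X_ne 0)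

/-- the contraction with the variables -/
noncomputable def HH (K : Type u) [Field K] : (Fin 4 → S K 4) →ₗ[K] S K 4 where
  toFun q := X 0 * q 0 + X 1 * q 1 + X 2 * q 2 + X 3 * q 3
  map_add' e f := by
    simp only [Pi.add_apply]
    ring
  map_smul' c e := by
    simp only [Pi.smul_apply, mul_smul_comm, RingHom.id_apply, smul_add]

theorem HH_apply (q : Fin 4 → S K 4) :
    HH K q = X 0 * q 0 + X 1 * q 1 + X 2 * q 2 + X 3 * q 3 := rfl

/-- polynomials without constant term -/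
theorem HH_surj {n : ℤ} (hn : 1 ≤ n) {f : S K 4} (hf : f ∈ grS (K := K) (ℓ := 4) n) :
    ∃ q : Fin 4 → S K 4, (∀ i, q i ∈ grS (K := K) (ℓ := 4) (n - 1)) ∧ HH K q = f := by
  have h1 : f ∈ Ideal.span (Set.range (X : Fin 4 → S K 4)) := by
    rw [← Set.image_univ, mem_ideal_span_X_image]
    intro μ hμ
    rw [Grad.grS_of_nonneg (by omega), mem_homogeneousSubmodule] at hf
    by_contra hc
    push Not at hc
    have h3 : μ = 0 := by
      ext i
      exact hc i (Set.mem_univ i)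
    have h4 := hf (mem_support_iff.1 hμ)
    rw [h3] at h4
    simp at h4
    omega
  rw [Ideal.mem_span_range_iff_exists_fun] at h1
  obtain ⟨q, hq⟩ := h1
  refine ⟨fun i => Grad.pS (n - 1) (q i), fun i => Grad.pS_mem _ _, ?_⟩
  rw [Fin.sum_univ_four] at hq
  have h2 := congrArg (Grad.pS n) hq
  have h3 := Grad.pS_of_mem hf n
  rw [if_pos rfl] at h3
  rw [h3, map_add, map_add, map_add, mul_comm (q 0), mul_comm (q 1), mul_comm (q 2),
    mul_comm (q 3), pS_mul_r51 (X_gr 0), pS_mul_r51 (X_gr 1), pS_mul_r51 (X_gr 2),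
    pS_mul_r51 (X_gr 3)] at h2
  exact h2

theorem finrank_ZZ (m : ℤ) :
    (Module.finrank K (Hm grS (fun _ : Fin 4 => (5 : ℤ)) m ⊓ LinearMap.ker (HH K) :
      Submodule K (Fin 4 → S K 4)) : ℤ) = 4 * cc K (m - 5) - cc K (m - 4) + if m = 4 then 1 else 0 := by
  have : Module.Finite K (Hm grS (fun _ : Fin 4 => (5 : ℤ)) m : Submodule K (Fin 4 → S K 4)) :=
    Count.finite_hm (Grad.thmS K 4).fin _ _
  have h := dim_map51 (HH K) (Hm grS (fun _ : Fin 4 => (5 : ℤ)) m : Submodule K (Fin 4 → S K 4))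
  have h3 := finrank_Hm4 (K := K) 5 m
  rcases lt_or_ge m 5 with hm | hm
  · have e1 : cc K (m - 5) = 0 := cc_neg (by omega)
    rw [e1] at h3 ⊢
    have e2 : - cc K (m - 4) + (if m = 4 then 1 else 0) = 0 := by
      by_cases h4 : m = 4
      · rw [if_pos h4, h4, sub_self, cc_zero]
        rfl
      · rw [if_neg h4, cc_neg (by omega)]
        rfl
    omega
  · have e1 : (Hm grS (fun _ : Fin 4 => (5 : ℤ)) m : Submodule K (Fin 4 → S K 4)).map (HH K) =
        grS (K := K) (ℓ := 4) (m - 4) := by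
      apply le_antisymm
      · rw [Submodule.map_le_iff_le_comap]
        intro q hq
        rw [Submodule.mem_comap, HH_apply]
        have k : ∀ i, X i * q i ∈ grS (K := K) (ℓ := 4) (m - 4) := by
          intro i
          have h1 := grS_mul51 (X_gr (K := K) i) (hq i)
          have e1 : 1 + (m - 5) = m - 4 := by ring
          rw [e1] at h1
          exact h1
        exact Submodule.add_mem _ (Submodule.add_mem _ (Submodule.add_mem _ (k 0) (k 1)) (k 2))
          (k 3)
      · intro f hf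
        obtain ⟨q, hq, rfl⟩ := HH_surj (by omega) hf
        refine ⟨q, fun i => ?_, rfl⟩
        have := hq i
        have e1 : m - 4 - 1 = m - 5 := by ring
        rw [e1] at this
        exact this
    rw [e1] at h
    rw [if_neg (by omega), add_zero]
    rw [h] at h3
    push_cast at h3
    unfold cc at h3 ⊢
    omega

/-- the dot product with `w` -/
def dl12 {A : Type*} [CommRing A] (w : Fin 3 → A) : (Fin 3 → A) →ₗ[A] A where
  toFun v := w ⬝ᵥ v
  map_add' _ _ := dotProduct_add _ _ _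
  map_smul' _ _ := dotProduct_smul _ _ _

/-- the dot products with the fields -/
noncomputable def TT (K : Type u) [Field K] : (Fin 3 → S K 4) →ₗ[K] (Fin 4 → S K 4) :=
  LinearMap.pi fun i => (dl12 (T K i)).restrictScalars K

theorem TT_apply (w : Fin 3 → S K 4) (i : Fin 4) : TT K w i = T K i ⬝ᵥ w := rfl

/-- multiplication by `Q` -/
noncomputable def QQ (K : Type u) [Field K] : (Fin 4 → S K 4) →ₗ[K] (Fin 4 → S K 4) :=
  LinearMap.pi fun i => (LinearMap.mulLeft K (Q K)).comp (LinearMap.proj i)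

theorem QQ_apply (q : Fin 4 → S K 4) (i : Fin 4) : QQ K q i = Q K * q i := rfl

theorem TT_eq (h2 : (2 : K) ≠ 0) (m : ℤ) : (pc (L2 (dd K)) m).map (TT K) =
    (Hm grS (fun _ : Fin 4 => (5 : ℤ)) m ⊓ LinearMap.ker (HH K) :
      Submodule K (Fin 4 → S K 4)).map (QQ K) := by
  ext e
  rw [Submodule.mem_map, Submodule.mem_map]
  constructor
  · rintro ⟨w, ⟨hw, hL⟩, rfl⟩
    have hL' : w ∈ L2 (dd K) := hL
    have k : ∀ i, ∃ q, T K i ⬝ᵥ w = Q K * q := fun i => Qdvd2 (T_mem K i) hL'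
    choose q hq using k
    refine ⟨q, ⟨fun i => ?_, ?_⟩, funext fun i => ?_⟩
    · have h1 := Vg_dot51 (T_gr (K := K) i) hw
      rw [hq i] at h1
      have h3 := grS_div51 Q_ne Q_gr h1
      have e1 : 3 + m - 8 = m - 5 := by ring
      rw [e1] at h3
      exact h3
    · show HH K q = 0
      rw [HH_apply]
      apply mul_left_cancel₀ (Q_ne (K := K))
      have := congrArg (fun v => v ⬝ᵥ w) (relT (K := K))
      simp only [add_dotProduct, smul_dotProduct, smul_eq_mul, zero_dotProduct] at this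
      rw [hq 0, hq 1, hq 2, hq 3] at this
      linear_combination this
    · rw [TT_apply, QQ_apply, hq i]
  · rintro ⟨q, ⟨hq, h0⟩, rfl⟩
    have h0' : HH K q = 0 := h0
    rw [HH_apply] at h0'
    obtain ⟨w, hw, hi⟩ := ex2 h2 h0'
    refine ⟨w, ⟨?_, hw⟩, funext fun i => by rw [TT_apply, QQ_apply, hi i]⟩
    -- homogeneity: `w` and its component of degree `m` have the same dot products
    have h3 : pv51 m w = w := by
      have h4 : pv51 m w - w = 0 := by
        apply orth h2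
        intro i
        rw [dotProduct_sub]
        have h5 : Grad.pS (3 + m) (w ⬝ᵥ T K i) = pv51 (3 + m - 3) w ⬝ᵥ T K i :=
          pS_dot51 (T_gr i) (3 + m) w
        rw [dotProduct_comm w, hi i] at h5
        have h6 : Q K * q i ∈ grS (K := K) (ℓ := 4) (3 + m) := by
          have := grS_mul51 (Q_gr (K := K)) (hq i)
          have e2 : 8 + (m - 5) = 3 + m := by ring
          rw [e2] at this
          exact this
        have h7 := Grad.pS_of_mem h6 (3 + m)
        rw [if_pos rfl] at h7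
        rw [h7, add_sub_cancel_left] at h5
        rw [hi i, h5, dotProduct_comm, sub_self]
      exact sub_eq_zero.1 h4
    rw [← h3]
    exact pv_mem51 m w

theorem hh2 (h2 : (2 : K) ≠ 0) (m : ℤ) : hh (L2 (dd K)) m =
    4 * cc K (m - 5) - cc K (m - 4) + if m = 4 then 1 else 0 := by
  rw [hh, ← finrank_ZZ, ← dim_inj51 (TT K), TT_eq h2, dim_inj51 (QQ K)]
  · intro x hx
    funext i
    have := congrFun hx i
    rw [QQ_apply] at this
    exact (mul_eq_zero.1 this).resolve_left Q_ne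
  · intro x hx
    refine orth h2 fun i => ?_
    have := congrFun hx i
    rw [TT_apply] at this
    exact this

theorem fin_id {A : Type*} [CommRing A] (x H : A) (h : H * (1 - x) ^ 4 = 1) :
    (1 - x ^ 2) * (H - x * (4 * (x ^ 3 * H) - x ^ 4 * H) +
      x ^ 2 * (4 * (x ^ 5 * H) - x ^ 4 * H + x ^ 4) - x ^ (8 + 3) * H) =
    1 + 4 * x + 9 * x ^ 2 + 16 * x ^ 3 + 21 * x ^ 4 + 21 * x ^ 5 + 17 * x ^ 6 + 9 * x ^ 7 +
      3 * x ^ 8 + x ^ 9 := by
  linear_combination ((1 + 4 * x + 9 * x ^ 2 + 16 * x ^ 3 + 21 * x ^ 4 + 21 * x ^ 5 +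
    17 * x ^ 6 + 9 * x ^ 7 + 3 * x ^ 8 + x ^ 9) - (1 - x ^ 2) * x ^ 6) * h

theorem psi9 (h2 : (2 : K) ≠ 0) :
    PS51 (B9 K) = ((CX42.Num88.f1 : Polynomial ℤ) : PowerSeries ℤ) := by
  have hH : HS51 K 4 = PowerSeries.mk fun k : ℕ => cc K k := rfl
  have hs : ∀ n : ℕ, PowerSeries.mk (fun k : ℕ => cc K ((k : ℤ) - (n : ℕ))) =
      (PowerSeries.X : PowerSeries ℤ) ^ n * HS51 K 4 := fun n =>
    mk_shift (cc K) (fun m hm => cc_neg hm) n
  have s3 := hs 3
  have s4 := hs 4
  have s5 := hs 5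
  push_cast at s3 s4 s5
  have e1 : PowerSeries.mk (fun k : ℕ => hh (L1 (dd K)) (k : ℤ)) =
      4 * (PowerSeries.X ^ 3 * HS51 K 4) - PowerSeries.X ^ 4 * HS51 K 4 := by
    rw [← s3, ← s4]
    ext k
    rw [PowerSeries.coeff_mk, hh1 h2, map_sub, PowerSeries.coeff_mk]
    have : (4 : PowerSeries ℤ) = PowerSeries.C (4 : ℤ) := by simp
    rw [this, PowerSeries.coeff_C_mul, PowerSeries.coeff_mk]
  have e2 : PowerSeries.mk (fun k : ℕ => hh (L2 (dd K)) (k : ℤ)) =
      4 * (PowerSeries.X ^ 5 * HS51 K 4) - PowerSeries.X ^ 4 * HS51 K 4 + PowerSeries.X ^ 4 := by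
    rw [← s5, ← s4]
    ext k
    rw [PowerSeries.coeff_mk, hh2 h2, map_add, map_sub, PowerSeries.coeff_mk]
    have : (4 : PowerSeries ℤ) = PowerSeries.C (4 : ℤ) := by simp
    rw [this, PowerSeries.coeff_C_mul, PowerSeries.coeff_mk, PowerSeries.coeff_X_pow]
    congr 1
    by_cases hk : k = 4
    · rw [if_pos hk, if_pos (by omega)]
    · rw [if_neg hk, if_neg (by omega)]
  have hp := Tra22.psi (B9 K) (norm9 K) (bv K 0) (mem0 K) 3 (piv0 K)
  rw [hp]
  change (1 - PowerSeries.X ^ 2) * (HS51 K 4 -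
        PowerSeries.X * PowerSeries.mk (fun k : ℕ => hh (L1 (dd K)) k) +
        PowerSeries.X ^ 2 * PowerSeries.mk (fun k : ℕ => hh (L2 (dd K)) k) -
        PowerSeries.X ^ ((Br (B9 K) (bv K 0)).card + 3) * HS51 K 4) = _
  rw [e1, e2, card8]
  have hHS : HS51 K 4 * (1 - PowerSeries.X) ^ 4 = 1 := Grad.thmHS K 4
  have hf : ((CX42.Num88.f1 : Polynomial ℤ) : PowerSeries ℤ) = 1 + 4 * PowerSeries.X +
      9 * PowerSeries.X ^ 2 + 16 * PowerSeries.X ^ 3 + 21 * PowerSeries.X ^ 4 +
      21 * PowerSeries.X ^ 5 + 17 * PowerSeries.X ^ 6 + 9 * PowerSeries.X ^ 7 +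
      3 * PowerSeries.X ^ 8 + PowerSeries.X ^ 9 := by
    show Polynomial.coeToPowerSeries.ringHom CX42.Num88.f1 = _
    simp only [CX42.Num88.f1, map_add, map_mul, map_pow, map_one, map_ofNat,
      Polynomial.coeToPowerSeries.ringHom_apply, Polynomial.coe_X]
  rw [hf]
  exact fin_id _ _ hHS

end Pool.Agent.Lib.MP_fe1391_co.CX12
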