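import Pool.Agent.Lib.MP_fe1391_co.CX42.Num88

/-!
# The numbers with additional factors `1 + x`
-/

set_option autoImplicit false

namespace Pool.Agent.Lib.MP_fe1391_co.CX42.Num88

open Polynomial

theorem prod_le42 {ι : Type*} (s : Finset ι) (e : ι → ℕ) :
    ∏ k ∈ s, (e k + 1) ≤ 2 ^ ∑ k ∈ s, e k := by
  rw [← Finset.prod_pow_eq_pow_sum]
  exact Finset.prod_le_prod' fun k _ => Nat.lt_two_pow_self

/-- the arithmetic behind the product form, with additional factors `1 + x` -/
theorem arith42 {ι : Type*} [Fintype ι] [DecidableEq ι] (k : ℕ) (e : ι → ℕ)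
    (h1 : ∏ i, (e i + 1) = 67417920 * 2 ^ k) (h2 : ∑ i, e i = 34 + k) : False := by
  have hp : Nat.Prime 17 := by norm_num
  have hd : 17 ∣ ∏ i, (e i + 1) := by
    rw [h1]
    exact Dvd.dvd.mul_right (by norm_num) _
  obtain ⟨i, -, c, hc⟩ := (Nat.Prime.prime hp).exists_mem_finset_dvd hd
  have h3 := Finset.add_sum_erase Finset.univ e (Finset.mem_univ i)
  have h4 := Finset.mul_prod_erase Finset.univ (fun i => e i + 1) (Finset.mem_univ i)
  rw [h2] at h3
  rw [h1] at h4
  simp only [hc] at h4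
  have hc1 : 1 ≤ c := by omega
  have hk : 0 < 2 ^ k := by positivity
  by_cases hd2 : 17 ∣ ∏ j ∈ Finset.univ.erase i, (e j + 1)
  · obtain ⟨j, hj, b, hb⟩ := (Nat.Prime.prime hp).exists_mem_finset_dvd hd2
    have h5 := Finset.add_sum_erase (Finset.univ.erase i) e hj
    have h6 := Finset.mul_prod_erase (Finset.univ.erase i) (fun i => e i + 1) hj
    simp only [hb] at h6
    have hb1 : 1 ≤ b := by omega
    have h7 := prod_le42 ((Finset.univ.erase i).erase j) e
    set R := ∏ k ∈ (Finset.univ.erase i).erase j, (e k + 1)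
    set s := ∑ k ∈ (Finset.univ.erase i).erase j, e k
    have hcb : c * b ≤ 2 ^ (c - 1) * 2 ^ (b - 1) := by
      refine Nat.mul_le_mul ?_ ?_
      · have : c - 1 < 2 ^ (c - 1) := Nat.lt_two_pow_self
        omega
      · have : b - 1 < 2 ^ (b - 1) := Nat.lt_two_pow_self
        omega
    have h8 : 289 * (c * b * R) = 289 * (233280 * 2 ^ k) := by
      rw [← h6] at h4
      calc 289 * (c * b * R) = 17 * c * (17 * b * R) := by ring
        _ = 67417920 * 2 ^ k := h4
        _ = 289 * (233280 * 2 ^ k) := by ring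
    have h9 : c * b * R = 233280 * 2 ^ k := Nat.eq_of_mul_eq_mul_left (by norm_num) h8
    have h10 : c * b * R ≤ 2 ^ (c - 1) * 2 ^ (b - 1) * 2 ^ s := Nat.mul_le_mul hcb h7
    rw [h9, ← pow_add, ← pow_add] at h10
    have h11 : c - 1 + (b - 1) + s ≤ k + 2 := by omega
    have h12 : 2 ^ (c - 1 + (b - 1) + s) ≤ 2 ^ (k + 2) := Nat.pow_le_pow_right (by norm_num) h11
    rw [pow_add 2 k 2] at h12
    omega
  · have hco : Nat.Coprime 289 (∏ j ∈ Finset.univ.erase i, (e j + 1)) := by
      have h5 : Nat.Coprime (17 ^ 2) (∏ j ∈ Finset.univ.erase i, (e j + 1)) :=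
        Nat.Coprime.pow_left 2 ((Nat.Prime.coprime_iff_not_dvd hp).2 hd2)
      simpa using h5
    have h5 : 289 ∣ 17 * c := by
      refine Nat.Coprime.dvd_of_dvd_mul_right hco ?_
      rw [h4]
      exact Dvd.dvd.mul_right (by norm_num) _
    obtain ⟨b, hb⟩ := h5
    rw [hb] at h4 hc
    have hb1 : 1 ≤ b := by omega
    have h7 := prod_le42 (Finset.univ.erase i) e
    set R := ∏ k ∈ Finset.univ.erase i, (e k + 1)
    set s := ∑ k ∈ Finset.univ.erase i, e k
    have hbb : b ≤ 2 ^ (b - 1) := by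
      have : b - 1 < 2 ^ (b - 1) := Nat.lt_two_pow_self
      omega
    have h8 : 289 * (b * R) = 289 * (233280 * 2 ^ k) := by
      calc 289 * (b * R) = 289 * b * R := by ring
        _ = 67417920 * 2 ^ k := h4
        _ = 289 * (233280 * 2 ^ k) := by ring
    have h9 : b * R = 233280 * 2 ^ k := Nat.eq_of_mul_eq_mul_left (by norm_num) h8
    have h10 : b * R ≤ 2 ^ (b - 1) * 2 ^ s := Nat.mul_le_mul hbb h7
    rw [h9, ← pow_add] at h10
    have h11 : b - 1 + s ≤ k := by omega
    have h12 : 2 ^ (b - 1 + s) ≤ 2 ^ k := Nat.pow_le_pow_right (by norm_num) h11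
    omega

theorem one_add_ne42 : (1 + X : ℤ[X]) ≠ 0 := by
  rw [← geo2]
  exact geo_ne 1

theorem f_ne42 (k : ℕ) : f1 * f2 * (1 + X) ^ k ≠ 0 :=
  mul_ne_zero f_ne (pow_ne_zero _ one_add_ne42)

theorem natDegree_f42 (k : ℕ) : (f1 * f2 * (1 + X) ^ k).natDegree = 34 + k := by
  rw [natDegree_mul f_ne (pow_ne_zero _ one_add_ne42), natDegree_f, natDegree_pow, ← geo2,
    natDegree_geo, mul_one]

theorem reverse_f42 (k : ℕ) : (f1 * f2 * (1 + X) ^ k).reverse = f1 * f2 * (1 + X) ^ k := by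
  rw [reverse_mul_of_domain, reverse_f, reverse_pow, reverse_one_add]

/-- the product with additional factors `1 + x` is not of the product form -/
theorem not_product42 {ι : Type*} [Fintype ι] (k : ℕ) (e : ι → ℕ) :
    ((f1 * f2 * (1 + X) ^ k : ℤ[X]) : PowerSeries ℤ) ≠
      ∏ i, ∑ j ∈ Finset.range (e i + 1), (PowerSeries.X : PowerSeries ℤ) ^ j := by
  classical
  intro h
  have h1 : ∏ i, ∑ j ∈ Finset.range (e i + 1), (PowerSeries.X : PowerSeries ℤ) ^ j =
      ((∏ i, geo (e i + 1) : ℤ[X]) : PowerSeries ℤ) := by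
    have h2 : ∀ n, ((geo n : ℤ[X]) : PowerSeries ℤ) =
        ∑ j ∈ Finset.range n, (PowerSeries.X : PowerSeries ℤ) ^ j := by
      intro n
      rw [geo, ← Polynomial.coeToPowerSeries.ringHom_apply, map_sum]
      refine Finset.sum_congr rfl fun j _ => ?_
      rw [map_pow, Polynomial.coeToPowerSeries.ringHom_apply, Polynomial.coe_X]
    rw [← Polynomial.coeToPowerSeries.ringHom_apply, map_prod]
    refine Finset.prod_congr rfl fun i _ => ?_
    rw [Polynomial.coeToPowerSeries.ringHom_apply, h2]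
  rw [h1] at h
  have h3 : f1 * f2 * (1 + X) ^ k = ∏ i, geo (e i + 1) := Polynomial.coe_injective ℤ h
  refine arith42 k e ?_ ?_
  · have h4 := congrArg (eval 1) h3
    rw [eval_mul, eval_f, eval_prod, eval_pow, eval_add, eval_one, eval_X] at h4
    simp only [eval_geo] at h4
    have h5 : ((∏ i, (e i + 1) : ℕ) : ℤ) = 67417920 * 2 ^ k := by
      rw [show (2 : ℤ) = 1 + 1 by norm_num, h4]
      push_cast
      rfl
    exact_mod_cast h5
  · have h4 := congrArg natDegree h3
    rw [natDegree_f42, natDegree_prod _ _ (fun i _ => geo_ne (e i))] at h4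
    simp only [natDegree_geo] at h4
    exact h4.symm

end Pool.Agent.Lib.MP_fe1391_co.CX42.Num88
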