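import Pool.Agent.Lib.MP_fe1391_co.CX42.Card42
import Pool.Agent.Lib.MP_fe1391_co.CX42.Num42
import Pool.Agent.Lib.MP_fe1391_co.CX42.FinA86
import Pool.Agent.Lib.MP_fe1391_co.CX42.FreeM39
import Pool.Agent.Lib.MP_fe1391_co.CX42.K33C12

/-!
# Non-free arrangements with palindromic Solomon-Terao polynomial, in all dimensions from sixteen on
-/

set_option autoImplicit false

namespace Pool.Agent.Lib.MP_fe1391_co.CX42

open MvPolynomial Pool.Agent.Lib.MP_fe1391_co.Tame Pool.Agent.Lib.MP_fe1391_co.Thick51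

universe u

theorem card_B9 (K : Type u) [Field K] : (CX12.B9 K).card = 9 := by
  classical
  unfold CX12.B9
  rw [Finset.card_image_of_injective _ (CX12.bv_inj K), Finset.card_univ, Fintype.card_fin]

theorem main42 (K : Type u) [Field K] (h2 : (2 : K) ≠ 0) (h3 : (3 : K) ≠ 0) (ℓ : ℕ)
    (hℓ : 16 ≤ ℓ) : ∃ A : Finset (Submodule K (Fin ℓ → K)),
      (∀ H ∈ A, ∃ a : Module.Dual K (Fin ℓ → K), a ≠ 0 ∧ LinearMap.ker a = H) ∧
      A.card = ℓ + 18 ∧
      (∃ f : Polynomial ℤ, f ≠ 0 ∧ f.reverse = f ∧ f.natDegree = ℓ + 18 ∧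
        (f : PowerSeries ℤ) = Assemble.Psi K A) ∧
      ¬ Module.Free (MvPolynomial (Fin ℓ) K) (Assemble.LDer K A) ∧
      ¬ ∃ d : Fin ℓ → ℕ, Assemble.Psi K A =
        ∏ i, ∑ j ∈ Finset.range (d i + 1), PowerSeries.X ^ j := by
  obtain ⟨k, rfl⟩ := Nat.exists_eq_add_of_le hℓ
  have hP : stProd81.{u} := prod81 FinA86.stFin_86
  have n1 := CX12.norm9 K
  have n2 := Sai49.norm25 K
  have n0 : Tame.Norm (prodB (m := 4) (n := 12) (CX12.B9 K) (Sai49.B25 K)) := norm_prodB n1 n2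
  set B0 : Finset (Fin 16 → K) := prodB (m := 4) (n := 12) (CX12.B9 K) (Sai49.B25 K) with hB0
  have hn : Tame.Norm (ext42 B0 k) := norm_ext n0 k
  have p0 : PS51 B0 = ((Num88.f1 * Num88.f2 : Polynomial ℤ) : PowerSeries ℤ) := by
    have h := hP K 4 12 (CX12.B9 K) (Sai49.B25 K)
    rw [CX12.psi9 h2, psi25 K h2 h3, ← Polynomial.coe_mul] at h
    exact h
  have p1 : PS51 (ext42 B0 k) =
      ((Num88.f1 * Num88.f2 * (1 + Polynomial.X) ^ k : Polynomial ℤ) : PowerSeries ℤ) := by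
    rw [psi_ext hP, p0]
    simp only [Polynomial.coe_mul, Polynomial.coe_pow, Polynomial.coe_add, Polynomial.coe_one,
      Polynomial.coe_X]
  obtain ⟨a1, a2, a3⟩ := adp51 (ext42 B0 k) hn
  have hnp : ¬ ∃ d : Fin (16 + k) → ℕ, PS51 (ext42 B0 k) =
      ∏ i, ∑ j ∈ Finset.range (d i + 1), (PowerSeries.X : PowerSeries ℤ) ^ j := by
    rintro ⟨d, hd⟩
    rw [p1] at hd
    exact Num88.not_product42 k d hd
  refine ⟨Ar51 (ext42 B0 k), a1, ?_, ⟨Num88.f1 * Num88.f2 * (1 + Polynomial.X) ^ k,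
    Num88.f_ne42 k, Num88.reverse_f42 k, ?_, ?_⟩, ?_, ?_⟩
  · have hc : B0.card = 9 + 25 := by
      rw [hB0, card_prodB42 n1, card_B9, card_B25]
    rw [card_Ar42 hn, card_ext42 n0, hc]
    omega
  · rw [Num88.natDegree_f42]
    omega
  · rw [a2, p1]
  · rw [← a3]
    intro hF
    exact hnp (Final.fwd K (16 + k) (ext42 B0 k) hn hF)
  · rw [a2]
    exact hnp

end Pool.Agent.Lib.MP_fe1391_co.CX42
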