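import Pool.Agent.Lib.MP_fe1391_co.Tame.Pair
import Pool.Agent.Lib.MP_fe1391_co.Tame.ConSq

/-!
# Exactness of the Koszul complex of a regular sequence, for alternating arrays
-/

set_option autoImplicit false

namespace Pool.Agent.Lib.MP_fe1391_co.CX42

open Pool.Agent.Lib.MP_fe1391_co.Tame Pool.Agent.Lib.MP_fe1391_co.Tame.Htpy
open Pool.Agent.Lib.MP_fe1391_co.Tame.Pair

section Koszul

variable {A : Type*} [CommRing A] {m : ℕ}

/-- every `g i` is a nonzerodivisor modulo the ideal of the previous elements -/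
def Reg72 (g : Fin m → A) : Prop :=
  ∀ (i : Fin m) (a : A), g i * a ∈ Ideal.span (g '' {j | j < i}) →
    a ∈ Ideal.span (g '' {j | j < i})

/-- the array vanishes unless all indices are less than `k` -/
def Sup72 {p : ℕ} (k : ℕ) (a : (Fin p → Fin m) → A) : Prop :=
  ∀ w : Fin p → Fin m, (∃ j, k ≤ (w j : ℕ)) → a w = 0

theorem con_single {p : ℕ} (k : Fin m) (a : (Fin (p + 1) → Fin m) → A) (w : Fin p → Fin m) :
    con (Pi.single k 1) a w = a (Fin.cons k w) := by
  show ∑ i, (Pi.single k 1 : Fin m → A) i * a (Fin.cons i w) = _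
  rw [Finset.sum_eq_single k]
  · rw [Pi.single_eq_same, one_mul]
  · intro b _ hb
    rw [Pi.single_eq_of_ne hb, zero_mul]
  · intro h
    exact absurd (Finset.mem_univ _) h

theorem con_con_anti {p : ℕ} (u v : Fin m → A) (a : (Fin (p + 2) → Fin m) → A) (ha : IsAlt a) :
    con u (con v a) = - con v (con u a) := by
  funext w
  show ∑ i, u i * ∑ j, v j * a (Fin.cons j (Fin.cons i w : Fin (p + 1) → Fin m)) =
    - ∑ j, v j * ∑ i, u i * a (Fin.cons i (Fin.cons j w : Fin (p + 1) → Fin m))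
  simp only [Finset.mul_sum]
  rw [Finset.sum_comm, ← Finset.sum_neg_distrib]
  refine Finset.sum_congr rfl fun j _ => ?_
  rw [← Finset.sum_neg_distrib]
  refine Finset.sum_congr rfl fun i _ => ?_
  rw [← ConSq.cons_cons_swap j i w, ha.sw _ 0 1
    (by rw [← Fin.succ_zero_eq_one]; exact (Fin.succ_ne_zero _).symm)]
  ring

/-- moving an index to the front -/
theorem alt_cons {p : ℕ} (a : (Fin (p + 1) → Fin m) → A) (ha : IsAlt a) (w : Fin (p + 1) → Fin m)
    (j : Fin (p + 1)) :
    (-1) ^ (j : ℕ) * a (Fin.cons (w j) (j.removeNth w) : Fin (p + 1) → Fin m) = a w := by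
  have h := (amap a ha).neg_one_pow_smul_map_insertNth j (Pi.single (w j) 1 : Fin m → A)
    (j.removeNth fun k => (Pi.single (w k) 1 : Fin m → A))
  have h1 : j.insertNth (Pi.single (w j) 1 : Fin m → A)
      (j.removeNth fun k => (Pi.single (w k) 1 : Fin m → A)) =
      fun k => (Pi.single (w k) 1 : Fin m → A) :=
    Fin.insertNth_self_removeNth j (fun k => (Pi.single (w k) 1 : Fin m → A))
  have h2 : (Matrix.vecCons (Pi.single (w j) 1 : Fin m → A)
      (j.removeNth fun k => (Pi.single (w k) 1 : Fin m → A)) : Fin (p + 1) → Fin m → A) =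
      fun k => (Pi.single ((Fin.cons (w j) (j.removeNth w) : Fin (p + 1) → Fin m) k) 1 :
        Fin m → A) := by
    funext k
    refine Fin.cases ?_ (fun k => ?_) k
    · rfl
    · rfl
  rw [h1, h2, amap_basis, amap_basis] at h
  rw [← h]
  rcases Nat.even_or_odd (j : ℕ) with he | ho
  · rw [he.neg_one_pow, he.neg_one_pow, one_mul, one_smul]
  · rw [ho.neg_one_pow, ho.neg_one_pow, neg_smul, one_smul, neg_mul, one_mul, neg_neg]

theorem sup_sub {p : ℕ} (k : Fin m) (a : (Fin (p + 1) → Fin m) → A) (ha : IsAlt a)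
    (hs : Sup72 ((k : ℕ) + 1) a) :
    Sup72 (k : ℕ) (a - wedge (Pi.single k 1) (con (Pi.single k 1) a)) := by
  classical
  rintro w ⟨j0, hj0⟩
  rw [Pi.sub_apply]
  by_cases hw : Function.Injective w
  · rcases eq_or_ne (w j0) k with h | h
    · have h1 : wedge (Pi.single k 1) (con (Pi.single k 1) a) w = a w := by
        unfold wedge
        rw [Finset.sum_eq_single j0]
        · rw [con_single, ← alt_cons a ha w j0, h, Pi.single_eq_same, one_mul]
        · intro j _ hj
          rw [Pi.single_eq_of_ne (fun h' => hj (hw (h'.trans h.symm))), zero_mul, mul_zero]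
        · intro h'
          exact absurd (Finset.mem_univ _) h'
      rw [h1, sub_self]
    · have hgt : (k : ℕ) + 1 ≤ (w j0 : ℕ) :=
        Nat.succ_le_of_lt (lt_of_le_of_ne hj0 fun h' => h (Fin.ext h'.symm))
      have h1 : wedge (Pi.single k 1) (con (Pi.single k 1) a) w = 0 := by
        unfold wedge
        refine Finset.sum_eq_zero fun j _ => ?_
        rcases eq_or_ne (w j) k with h' | h'
        · have hj : j0 ≠ j := by
            rintro rfl
            exact h h'
          obtain ⟨j', hj'⟩ := Fin.exists_succAbove_eq hj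
          rw [con_single, hs _ ⟨j'.succ, ?_⟩, mul_zero, mul_zero]
          rw [Fin.cons_succ]
          show (k : ℕ) + 1 ≤ (w (j.succAbove j') : ℕ)
          rw [hj']
          exact hgt
        · rw [Pi.single_eq_of_ne h', zero_mul, mul_zero]
      rw [hs w ⟨j0, hgt⟩, h1, sub_self]
  · rw [ha.nz w hw, (isAlt_wedge _ _ (isAlt_con _ a ha)).nz w hw, sub_self]

theorem sup_con {p : ℕ} (k : Fin m) (a : (Fin (p + 1) → Fin m) → A) (ha : IsAlt a)
    (hs : Sup72 ((k : ℕ) + 1) a) : Sup72 (k : ℕ) (con (Pi.single k 1) a) := by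
  rintro w ⟨j, hj⟩
  rw [con_single]
  rcases eq_or_ne (w j) k with h | h
  · apply ha.nz
    intro hi
    have := @hi 0 j.succ (by rw [Fin.cons_zero, Fin.cons_succ, h])
    exact Fin.succ_ne_zero _ this.symm
  · exact hs _ ⟨j.succ, by
      rw [Fin.cons_succ]
      exact Nat.succ_le_of_lt (lt_of_le_of_ne hj fun h' => h (Fin.ext h'.symm))⟩

theorem sup_wedge {p : ℕ} (k : Fin m) (a : (Fin p → Fin m) → A) (hs : Sup72 (k : ℕ) a) :
    Sup72 ((k : ℕ) + 1) (wedge (Pi.single k 1) a) := by
  rintro w ⟨j0, hj0⟩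
  unfold wedge
  refine Finset.sum_eq_zero fun j _ => ?_
  rcases eq_or_ne (w j) k with h' | h'
  · have hj : j0 ≠ j := by
      rintro rfl
      rw [h'] at hj0
      omega
    obtain ⟨j', hj'⟩ := Fin.exists_succAbove_eq hj
    rw [hs _ ⟨j', ?_⟩, mul_zero, mul_zero]
    show (k : ℕ) ≤ (w (j.succAbove j') : ℕ)
    rw [hj']
    omega
  · rw [Pi.single_eq_of_ne h', zero_mul, mul_zero]

theorem isAlt_add {p : ℕ} {a b : (Fin p → Fin m) → A} (ha : IsAlt a) (hb : IsAlt b) :
    IsAlt (a + b) :=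
  ⟨fun w hw => by rw [Pi.add_apply, ha.nz w hw, hb.nz w hw, add_zero],
    fun w i j h => by rw [Pi.add_apply, Pi.add_apply, ha.sw w i j h, hb.sw w i j h]; ring⟩

theorem isAlt_sub {p : ℕ} {a b : (Fin p → Fin m) → A} (ha : IsAlt a) (hb : IsAlt b) :
    IsAlt (a - b) :=
  ⟨fun w hw => by rw [Pi.sub_apply, ha.nz w hw, hb.nz w hw, sub_zero],
    fun w i j h => by rw [Pi.sub_apply, Pi.sub_apply, ha.sw w i j h, hb.sw w i j h]; ring⟩

theorem isAlt_smul {p : ℕ} (c : A) {a : (Fin p → Fin m) → A} (ha : IsAlt a) :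
    IsAlt (c • a) :=
  ⟨fun w hw => by rw [Pi.smul_apply, ha.nz w hw, smul_zero],
    fun w i j h => by rw [Pi.smul_apply, Pi.smul_apply, ha.sw w i j h, smul_neg]⟩

theorem isAlt_zero {p : ℕ} : IsAlt (0 : (Fin p → Fin m) → A) :=
  ⟨fun w _ => rfl, fun w i j _ => by simp⟩

/-- an array of level one is alternating -/
theorem isAlt_one (a : (Fin 1 → Fin m) → A) : IsAlt a := by
  refine ⟨fun w hw => ?_, fun w i j h => ?_⟩
  · exact absurd (fun x y _ => Subsingleton.elim x y) hw
  · exact absurd (Subsingleton.elim i j) h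

theorem sum_mul_single (g : Fin m → A) (k : Fin m) :
    ∑ i, g i * (Pi.single k 1 : Fin m → A) i = g k := by
  rw [Finset.sum_eq_single k]
  · rw [Pi.single_eq_same, mul_one]
  · intro b _ hb
    rw [Pi.single_eq_of_ne hb, mul_zero]
  · intro h
    exact absurd (Finset.mem_univ _) h

/-- contraction of an exterior product, lowest level -/
theorem con_wedge_zero (v t : Fin m → A) (a : (Fin 0 → Fin m) → A) :
    con v (wedge t a) = (∑ i, v i * t i) • a := by
  funext w
  show ∑ i, v i * wedge t a (Fin.cons i w) = (∑ i, v i * t i) * a w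
  rw [Finset.sum_mul]
  refine Finset.sum_congr rfl fun i _ => ?_
  unfold wedge
  rw [Fin.sum_univ_one]
  have : Fin.removeNth (0 : Fin 1) (Fin.cons i w : Fin 1 → Fin m) = w := by
    funext k
    exact k.elim0
  rw [this]
  simp only [Fin.cons_zero, Fin.val_zero, pow_zero, one_mul]
  ring

theorem wedge_zero' {p : ℕ} (t : Fin m → A) : wedge t (0 : (Fin p → Fin m) → A) = 0 := by
  funext w
  simp [wedge]

/-- a scalar in the ideal is a contraction -/
theorem scalar (g : Fin m → A) (k : Fin m) (a : (Fin 0 → Fin m) → A)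
    (h : a Fin.elim0 ∈ Ideal.span (g '' {j | j < k})) :
    ∃ b : (Fin 1 → Fin m) → A, IsAlt b ∧ Sup72 (k : ℕ) b ∧ con g b = a := by
  classical
  have h1 : Ideal.span (g '' {j | j < k}) ≤
      Ideal.span (Set.range fun j : Fin m => if j < k then g j else 0) := by
    apply Ideal.span_mono
    rintro _ ⟨j, hj, rfl⟩
    exact ⟨j, if_pos hj⟩
  obtain ⟨c, hc⟩ := Ideal.mem_span_range_iff_exists_fun.1 (h1 h)
  refine ⟨fun w => if w 0 < k then c (w 0) else 0, isAlt_one _, ?_, ?_⟩
  · rintro w ⟨j, hj⟩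
    have : j = 0 := Subsingleton.elim _ _
    subst this
    exact if_neg (not_lt.2 hj)
  · funext w
    show ∑ i, g i * (if (Fin.cons i w : Fin 1 → Fin m) 0 < k then
      c ((Fin.cons i w : Fin 1 → Fin m) 0) else 0) = a w
    have hw : w = Fin.elim0 := Subsingleton.elim _ _
    rw [hw, ← hc]
    refine Finset.sum_congr rfl fun i _ => ?_
    rw [Fin.cons_zero]
    split_ifs
    · ring
    · ring

theorem koszul_aux (g : Fin m → A) (hg : Reg72 g) : ∀ k : ℕ, k ≤ m → ∀ (p : ℕ)
    (a : (Fin (p + 1) → Fin m) → A), IsAlt a → Sup72 k a → con g a = 0 →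
    ∃ b : (Fin (p + 2) → Fin m) → A, IsAlt b ∧ Sup72 k b ∧ con g b = a := by
  intro k
  induction k with
  | zero =>
    intro _ p a _ hs _
    have ha : a = 0 := funext fun w => hs w ⟨0, Nat.zero_le _⟩
    exact ⟨0, isAlt_zero, fun w _ => rfl, by rw [ha, map_zero]⟩
  | succ k ih =>
    intro hk p a ha hs h
    have hkm : k < m := hk
    obtain ⟨K, hK⟩ : ∃ K : Fin m, (K : ℕ) = k := ⟨⟨k, hkm⟩, rfl⟩
    rw [← hK] at hs
    have ih' := ih hkm.le
    rw [← hK] at ih'
    have ha1 : IsAlt (con (Pi.single K 1) a) := isAlt_con _ a ha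
    have hs1 := sup_con K a ha hs
    have hs0 := sup_sub K a ha hs
    have ha0 : IsAlt (a - wedge (Pi.single K 1) (con (Pi.single K 1) a)) :=
      isAlt_sub ha (isAlt_wedge _ _ ha1)
    -- the two facts about the contraction with `e`
    have key : con g (a - wedge (Pi.single K 1) (con (Pi.single K 1) a)) =
        - (g K • con (Pi.single K 1) a) ∧
        ∃ b : (Fin (p + 1) → Fin m) → A, IsAlt b ∧ Sup72 (K : ℕ) b ∧
          con g b = con (Pi.single K 1) a := by
      cases p with
      | zero =>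
        have h1 : con g (a - wedge (Pi.single K 1) (con (Pi.single K 1) a)) =
            - (g K • con (Pi.single K 1) a) := by
          rw [map_sub, h, con_wedge_zero, sum_mul_single, zero_sub]
        refine ⟨h1, scalar g K _ (hg K _ ?_)⟩
        have h2 := congrFun h1 Fin.elim0
        rw [Pi.neg_apply, Pi.smul_apply, smul_eq_mul] at h2
        rw [← neg_neg (g K * con (Pi.single K 1) a Fin.elim0), ← h2]
        refine neg_mem (S := Ideal A) ?_
        show ∑ i, g i * _ ∈ _
        refine Ideal.sum_mem _ fun i _ => ?_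
        rcases lt_or_ge i K with hi | hi
        · exact Ideal.mul_mem_right _ _ (Ideal.subset_span ⟨i, hi, rfl⟩)
        · rw [hs0 _ ⟨0, by rw [Fin.cons_zero]; exact hi⟩, mul_zero]
          exact zero_mem _
      | succ q =>
        have h3 : con g (con (Pi.single K 1) a) = 0 := by
          rw [con_con_anti _ _ a ha, h, map_zero, neg_zero]
        refine ⟨?_, ih' q _ ha1 hs1 h3⟩
        rw [map_sub, h, con_wedge, sum_mul_single, h3, wedge_zero', sub_zero, zero_sub]
    obtain ⟨h1, b1, hb1, hbs1, hb1'⟩ := key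
    have h4 : con g ((a - wedge (Pi.single K 1) (con (Pi.single K 1) a)) + g K • b1) = 0 := by
      rw [map_add, h1, map_smul, hb1', neg_add_cancel]
    obtain ⟨b0, hb0, hbs0, hb0'⟩ := ih' p _ (isAlt_add ha0 (isAlt_smul (g K) hb1))
      (fun w hw => by
        rw [Pi.add_apply, Pi.smul_apply, hs0 w hw, hbs1 w hw, smul_zero, add_zero]) h4
    refine ⟨b0 - wedge (Pi.single K 1) b1, isAlt_sub hb0 (isAlt_wedge _ _ hb1), ?_, ?_⟩
    · rw [← hK]
      rintro w ⟨j, hj⟩
      rw [Pi.sub_apply, hbs0 w ⟨j, by omega⟩, sup_wedge K b1 hbs1 w ⟨j, hj⟩, sub_zero]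
    · rw [map_sub, hb0', con_wedge, sum_mul_single, hb1']
      abel

/-- The Koszul complex of a regular sequence is exact in positive degrees. -/
theorem koszul72 (g : Fin m → A) (hg : Reg72 g) (p : ℕ) (a : (Fin (p + 1) → Fin m) → A)
    (ha : IsAlt a) (h : con g a = 0) :
    ∃ b : (Fin (p + 2) → Fin m) → A, IsAlt b ∧ con g b = a := by
  obtain ⟨b, hb, -, hb'⟩ := koszul_aux g hg m le_rfl p a ha
    (fun w ⟨j, hj⟩ => absurd (w j).2 (not_lt.2 hj)) h
  exact ⟨b, hb, hb'⟩

end Koszul

end Pool.Agent.Lib.MP_fe1391_co.CX42
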