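import Pool.Agent.Lib.MP_fe1391_co.Tame.Final
import Pool.Agent.Lib.MP_fe1391_co.CX42.Koszul72

/-!
# A free arrangement together with one more hyperplane: decomposition

`B0` is an arrangement, `lam` one more covector, `B` the union.  The logarithmic
`(p + 1)`-derivations of `B` are `z + E ∧ u` with `z`, `u` logarithmic for `B0` and killed by
contraction with `lam`.
-/

set_option autoImplicit false

namespace Pool.Agent.Lib.MP_fe1391_co.CX.FP39

open MvPolynomial Pool.Agent.Lib.MP_fe1391_co.Tame Pool.Agent.Lib.MP_fe1391_co.Tame.Htpy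

universe u

variable {K : Type u} [Field K] {ℓ : ℕ}

/-- a covector with constant coefficients -/
noncomputable def cv (b : Fin ℓ → K) : Fin ℓ → S K ℓ := fun i => C (b i)

/-- the Euler vector field -/
noncomputable def eu : Fin ℓ → S K ℓ := fun i => X i

theorem sum_cv_eu (b : Fin ℓ → K) : ∑ i, cv b i * eu i = lin b := rfl

theorem con_apply {A : Type*} [CommRing A] {p : ℕ} (v : Fin ℓ → A) (a : (Fin (p + 1) → Fin ℓ) → A)
    (w : Fin p → Fin ℓ) : con v a w = ∑ i, v i * a (Fin.cons i w) := rfl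

theorem isAlt_con {A : Type*} [CommRing A] {p : ℕ} (v : Fin ℓ → A)
    {a : (Fin (p + 1) → Fin ℓ) → A} (ha : IsAlt a) : IsAlt (con v a) := by
  constructor
  · intro w hw
    rw [con_apply]
    refine Finset.sum_eq_zero fun i _ => ?_
    rw [ha.nz, mul_zero]
    intro h
    apply hw
    intro x y hxy
    have := @h x.succ y.succ (by simpa using hxy)
    exact Fin.succ_injective _ this
  · intro w i j hij
    rw [con_apply, con_apply, ← Finset.sum_neg_distrib]
    refine Finset.sum_congr rfl fun k _ => ?_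
    rw [Contr.cons_swap_succ, ha.sw _ _ _ (fun h => hij (Fin.succ_injective _ h)), mul_neg]

theorem con_mem {B : Finset (Fin ℓ → K)} {p : ℕ} (v : Fin ℓ → S K ℓ)
    {a : (Fin (p + 1) → Fin ℓ) → S K ℓ} (ha : a ∈ LogA (S K ℓ) B (p + 1)) :
    con v a ∈ LogA (S K ℓ) B p := by
  rw [Trans.mem_logA] at ha ⊢
  refine ⟨isAlt_con v ha.1, fun b hb w j => ?_⟩
  have h : ∑ i, C (b i) * con v a (Function.update w j i) =
      ∑ k, v k * ∑ i, C (b i) * a (Function.update (Fin.cons k w) j.succ i) := by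
    simp only [con_apply, Finset.mul_sum]
    rw [Finset.sum_comm]
    refine Finset.sum_congr rfl fun k _ => Finset.sum_congr rfl fun i _ => ?_
    rw [Contr.update_cons_succ]
    ring
  rw [h]
  exact Finset.dvd_sum fun k _ => Dvd.dvd.mul_left (ha.2 b hb _ _) _

theorem dvd_con {B : Finset (Fin ℓ → K)} {p : ℕ} {b : Fin ℓ → K} (hb : b ∈ B)
    {a : (Fin (p + 1) → Fin ℓ) → S K ℓ} (ha : a ∈ LogA (S K ℓ) B (p + 1)) (w : Fin p → Fin ℓ) :
    lin b ∣ con (cv b) a w := by
  rw [Trans.mem_logA] at ha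
  rcases isEmpty_or_nonempty (Fin ℓ) with he | ⟨⟨i0⟩⟩
  · rw [con_apply, Finset.univ_eq_empty, Finset.sum_empty]
    exact dvd_zero _
  · have h1 := ha.2 b hb (Fin.cons i0 w) 0
    simp only [Fin.update_cons_zero] at h1
    exact h1

/-- for alternating arrays the first slot is enough -/
theorem dvd_of_con {p : ℕ} {b : Fin ℓ → K} {a : (Fin (p + 1) → Fin ℓ) → S K ℓ} (ha : IsAlt a)
    (h : ∀ w, lin b ∣ con (cv b) a w) (w : Fin (p + 1) → Fin ℓ) (j : Fin (p + 1)) :
    lin b ∣ ∑ i, C (b i) * a (Function.update w j i) := by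
  have h0 : ∀ w : Fin (p + 1) → Fin ℓ, lin b ∣ ∑ i, C (b i) * a (Function.update w 0 i) := by
    intro w
    have h1 := h (Fin.tail w)
    have h2 : ∀ i, Function.update w 0 i = (Fin.cons i (Fin.tail w) : Fin (p + 1) → Fin ℓ) := by
      intro i
      conv_lhs => rw [← Fin.cons_self_tail w]
      exact Fin.update_cons_zero _ _ _
    rw [con_apply] at h1
    simp only [h2]
    exact h1
  rcases eq_or_ne j 0 with rfl | hj
  · exact h0 w
  · have h1 := h0 (w ∘ Equiv.swap 0 j)
    have e : ∀ i, a (Function.update (w ∘ Equiv.swap 0 j) 0 i) = - a (Function.update w j i) := by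
      intro i
      rw [← ha.sw _ 0 j hj.symm]
      congr 1
      funext k
      simp only [Function.comp_apply]
      by_cases hk : k = 0
      · subst hk
        simp
      · rw [Function.update_of_ne hk]
        by_cases hk2 : k = j
        · subst hk2
          rw [Function.comp_apply, Equiv.swap_apply_right,
            Function.update_of_ne (fun h => hk h.symm)]
        · rw [Function.comp_apply, Equiv.swap_apply_of_ne_of_ne hk hk2,
            Function.update_of_ne hk2]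
    simp only [e, mul_neg, Finset.sum_neg_distrib] at h1
    exact (dvd_neg.1 h1)

/-- the Euler field is logarithmic -/
theorem eu_log (B : Finset (Fin ℓ → K)) : ∀ b ∈ B, algebraMap (S K ℓ) (S K ℓ) (lin b) ∣
    ∑ i, algebraMap (S K ℓ) (S K ℓ) (C (b i)) * (eu i : S K ℓ) :=
  fun _ _ => dvd_rfl

/-- logarithmic for `B` and killed by the contraction with `v` -/
noncomputable def Zs (B : Finset (Fin ℓ → K)) (v : Fin ℓ → S K ℓ) :
    (p : ℕ) → Submodule (S K ℓ) ((Fin p → Fin ℓ) → S K ℓ)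
  | 0 => LogA (S K ℓ) B 0
  | p + 1 => LogA (S K ℓ) B (p + 1) ⊓ LinearMap.ker (con v)

theorem Zs_le (B : Finset (Fin ℓ → K)) (v : Fin ℓ → S K ℓ) (p : ℕ) :
    Zs B v p ≤ LogA (S K ℓ) B p := by
  cases p with
  | zero => exact le_rfl
  | succ p => exact inf_le_left

theorem mem_Zs_succ {B : Finset (Fin ℓ → K)} {v : Fin ℓ → S K ℓ} {p : ℕ}
    {z : (Fin (p + 1) → Fin ℓ) → S K ℓ} :
    z ∈ Zs B v (p + 1) ↔ z ∈ LogA (S K ℓ) B (p + 1) ∧ con v z = 0 := by
  unfold Zs
  rw [Submodule.mem_inf, LinearMap.mem_ker]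

/-- contraction of `E ∧ u` for `u` in the kernel -/
theorem con_eu_wedge {B : Finset (Fin ℓ → K)} (lam : Fin ℓ → K) {p : ℕ}
    {u : (Fin p → Fin ℓ) → S K ℓ} (hu : u ∈ Zs B (cv lam) p) :
    con (cv lam) (wedge eu u) = lin lam • u := by
  cases p with
  | zero => rw [CX42.con_wedge_zero, sum_cv_eu]
  | succ p =>
    rw [con_wedge, sum_cv_eu, (mem_Zs_succ.1 hu).2, CX42.wedge_zero', sub_zero]

theorem con_mem_Zs {B : Finset (Fin ℓ → K)} (v : Fin ℓ → S K ℓ) {p : ℕ}
    {a : (Fin (p + 1) → Fin ℓ) → S K ℓ} (ha : a ∈ LogA (S K ℓ) B (p + 1)) :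
    con v a ∈ Zs B v p := by
  cases p with
  | zero => exact con_mem v ha
  | succ p => exact mem_Zs_succ.2 ⟨con_mem v ha, ConSq.thm _ _ _ _ _ (Trans.mem_logA.1 ha).1⟩

/-- the decomposition -/
theorem exists_decomp {B B0 : Finset (Fin ℓ → K)} {lam : Fin ℓ → K} (hN : Tame.Norm B)
    (hBB : ∀ b, b ∈ B ↔ b = lam ∨ b ∈ B0)
    (hl : lam ∉ B0) {p : ℕ} {a : (Fin (p + 1) → Fin ℓ) → S K ℓ}
    (ha : a ∈ LogA (S K ℓ) B (p + 1)) :
    ∃ z ∈ Zs B0 (cv lam) (p + 1), ∃ u ∈ Zs B0 (cv lam) p, a = z + wedge eu u ∧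
      con (cv lam) a = lin lam • u := by
  have hmem : lam ∈ B := (hBB lam).2 (Or.inl rfl)
  have hsub : ∀ b ∈ B0, b ∈ B := fun b hb => (hBB b).2 (Or.inr hb)
  have hlam : lam ≠ 0 := hN.ne lam hmem
  have haB : a ∈ LogA (S K ℓ) B0 (p + 1) := by
    rw [Trans.mem_logA] at ha ⊢
    exact ⟨ha.1, fun b hb => ha.2 b (hsub b hb)⟩
  have h1 : ∀ w, lin lam ∣ con (cv lam) a w := dvd_con hmem ha
  choose u hu using h1
  have hu' : con (cv lam) a = lin lam • u := by
    funext w
    rw [hu w]; rfl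
  have hne : lin lam ≠ (0 : S K ℓ) := Contr.lin_ne_zero hlam
  have haltc := isAlt_con (cv lam) (Trans.mem_logA.1 ha).1
  have halt : IsAlt u := by
    constructor
    · intro w hw
      have := haltc.nz w hw
      rw [hu'] at this
      exact (mul_eq_zero.1 this).resolve_left hne
    · intro w i j hij
      have := haltc.sw w i j hij
      rw [hu'] at this
      apply mul_left_cancel₀ hne
      rw [mul_neg]
      exact this
  have hcB := con_mem (cv lam) haB
  have huB : u ∈ LogA (S K ℓ) B0 p := by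
    rw [Trans.mem_logA] at hcB ⊢
    refine ⟨halt, fun b hb w j => ?_⟩
    have h2 := hcB.2 b hb w j
    rw [hu'] at h2
    have h3 : ∑ i, C (b i) * (lin lam • u) (Function.update w j i) =
        lin lam * ∑ i, C (b i) * u (Function.update w j i) := by
      rw [Finset.mul_sum]
      refine Finset.sum_congr rfl fun i _ => ?_
      rw [Pi.smul_apply, smul_eq_mul]; ring
    rw [h3] at h2
    refine Contr.dvd_of_dvd_lin_mul (hN.ne b (hsub b hb)) ?_ h2
    exact fun c => hN.ind b (hsub b hb) lam hmem (fun h => hl (h ▸ hb)) c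
  have huZ : u ∈ Zs B0 (cv lam) p := by
    cases p with
    | zero => exact huB
    | succ p =>
      refine mem_Zs_succ.2 ⟨huB, ?_⟩
      have h4 : con (cv lam) (con (cv lam) a) = 0 :=
        ConSq.thm _ _ _ _ _ (Trans.mem_logA.1 ha).1
      rw [hu', map_smul] at h4
      funext w
      have h5 := congrFun h4 w
      exact (mul_eq_zero.1 h5).resolve_left hne
  refine ⟨a - wedge eu u, ?_, u, huZ, by abel, hu'⟩
  refine mem_Zs_succ.2 ⟨Submodule.sub_mem _ haB (wedge_mem (eu_log B0) huB), ?_⟩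
  rw [map_sub, con_eu_wedge lam huZ, hu', sub_self]

theorem decomp_mem {B B0 : Finset (Fin ℓ → K)} {lam : Fin ℓ → K}
    (hBB : ∀ b, b ∈ B ↔ b = lam ∨ b ∈ B0) {p : ℕ}
    {z : (Fin (p + 1) → Fin ℓ) → S K ℓ} (hz : z ∈ Zs B0 (cv lam) (p + 1))
    {u : (Fin p → Fin ℓ) → S K ℓ} (hu : u ∈ Zs B0 (cv lam) p) :
    z + wedge eu u ∈ LogA (S K ℓ) B (p + 1) := by
  have h1 : z + wedge eu u ∈ LogA (S K ℓ) B0 (p + 1) :=
    Submodule.add_mem _ (Zs_le _ _ _ hz) (wedge_mem (eu_log B0) (Zs_le _ _ _ hu))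
  have h2 : con (cv lam) (z + wedge eu u) = lin lam • u := by
    rw [map_add, (mem_Zs_succ.1 hz).2, zero_add, con_eu_wedge lam hu]
  rw [Trans.mem_logA] at h1 ⊢
  refine ⟨h1.1, fun b hb => ?_⟩
  rcases (hBB b).1 hb with rfl | hb
  · refine dvd_of_con h1.1 (fun w => ?_)
    rw [h2]
    exact dvd_mul_right _ _
  · exact h1.2 b hb

end Pool.Agent.Lib.MP_fe1391_co.CX.FP39
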