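import Pool.Agent.Lib.MP_fe1391_co.CX42.FreeA39

/-!
# The action of a Saito matrix on alternating arrays; exactness of the contraction
-/

set_option autoImplicit false

namespace Pool.Agent.Lib.MP_fe1391_co.CX.FP39

open MvPolynomial Pool.Agent.Lib.MP_fe1391_co.Tame Pool.Agent.Lib.MP_fe1391_co.Tame.Htpy

universe u

variable {K : Type u} [Field K] {ℓ : ℕ}

/-- `(Ψ f)(w) = ∑ f(u) ∏ θ (u j) (w j)` -/
noncomputable def Psi (θ : Matrix (Fin ℓ) (Fin ℓ) (S K ℓ)) {p : ℕ} (f : (Fin p → Fin ℓ) → S K ℓ) :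
    (Fin p → Fin ℓ) → S K ℓ := fun w => ∑ u, f u * ∏ j, θ (u j) (w j)

theorem Psi_sum (θ : Matrix (Fin ℓ) (Fin ℓ) (S K ℓ)) {p : ℕ} {ι : Type*} (s : Finset ι)
    (c : ι → S K ℓ) (f : ι → (Fin p → Fin ℓ) → S K ℓ) :
    Psi θ (∑ i ∈ s, c i • f i) = ∑ i ∈ s, c i • Psi θ (f i) := by
  funext w
  simp only [Psi, Finset.sum_apply, Pi.smul_apply, smul_eq_mul, Finset.sum_mul, Finset.mul_sum]
  rw [Finset.sum_comm]
  refine Finset.sum_congr rfl fun i _ => Finset.sum_congr rfl fun u _ => ?_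
  ring

theorem Psi_minor (θ : Matrix (Fin ℓ) (Fin ℓ) (S K ℓ)) {p : ℕ} (I : Fin p ↪o Fin ℓ) :
    Psi θ (minor (1 : Matrix (Fin ℓ) (Fin ℓ) (S K ℓ)) I) = minor θ I := by
  funext w
  simp only [Psi, minor, Matrix.det_apply, Matrix.submatrix_apply, Finset.sum_mul]
  rw [Finset.sum_comm]
  refine Finset.sum_congr rfl fun σ _ => ?_
  rw [Finset.sum_eq_single (fun j => I (σ j))]
  · simp
  · intro u _ hu
    obtain ⟨j, hj⟩ := Function.ne_iff.1 hu
    have : (∏ i, (1 : Matrix (Fin ℓ) (Fin ℓ) (S K ℓ)) (I (σ i)) (u i)) = 0 :=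
      Finset.prod_eq_zero (Finset.mem_univ j) (Matrix.one_apply_ne (fun h => hj h.symm))
    rw [this, smul_zero, zero_mul]
  · intro h
    exact absurd (Finset.mem_univ _) h

theorem sum_cons {M : Type*} [AddCommMonoid M] {p : ℕ} (g : (Fin (p + 1) → Fin ℓ) → M) :
    ∑ u, g u = ∑ k, ∑ u : Fin p → Fin ℓ, g (Fin.cons k u) := by
  rw [← (Fin.consEquiv (fun _ => Fin ℓ)).sum_comp, Fintype.sum_prod_type]
  rfl

/-- contraction and the Saito matrix -/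
theorem con_Psi (θ : Matrix (Fin ℓ) (Fin ℓ) (S K ℓ)) (v : Fin ℓ → S K ℓ) {p : ℕ}
    (f : (Fin (p + 1) → Fin ℓ) → S K ℓ) :
    con v (Psi θ f) = Psi θ (con (fun i => ∑ j, v j * θ i j) f) := by
  funext w
  have h1 : ∀ i, v i * Psi θ f (Fin.cons i w) =
      ∑ k, ∑ u : Fin p → Fin ℓ, (v i * θ k i) * (f (Fin.cons k u) * ∏ j, θ (u j) (w j)) := by
    intro i
    unfold Psi
    rw [sum_cons, Finset.mul_sum]
    refine Finset.sum_congr rfl fun k _ => ?_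
    rw [Finset.mul_sum]
    refine Finset.sum_congr rfl fun u _ => ?_
    rw [Fin.prod_univ_succ]
    simp only [Fin.cons_zero, Fin.cons_succ]
    ring
  have h2 : ∀ u : Fin p → Fin ℓ,
      con (fun i => ∑ j, v j * θ i j) f u * ∏ j, θ (u j) (w j) =
      ∑ k, ∑ i, (v i * θ k i) * (f (Fin.cons k u) * ∏ j, θ (u j) (w j)) := by
    intro u
    rw [con_apply, Finset.sum_mul]
    refine Finset.sum_congr rfl fun k _ => ?_
    rw [Finset.sum_mul, Finset.sum_mul]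
    exact Finset.sum_congr rfl fun i _ => by ring
  have h3 : con v (Psi θ f) w = ∑ i, ∑ k, ∑ u : Fin p → Fin ℓ,
      (v i * θ k i) * (f (Fin.cons k u) * ∏ j, θ (u j) (w j)) := by
    rw [con_apply]
    exact Finset.sum_congr rfl fun i _ => h1 i
  have h4 : Psi θ (con (fun i => ∑ j, v j * θ i j) f) w = ∑ u : Fin p → Fin ℓ, ∑ k, ∑ i,
      (v i * θ k i) * (f (Fin.cons k u) * ∏ j, θ (u j) (w j)) := by
    unfold Psi
    exact Finset.sum_congr rfl fun u _ => h2 u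
  rw [h3, h4, Finset.sum_comm]
  conv_rhs => rw [Finset.sum_comm]
  refine Finset.sum_congr rfl fun k _ => ?_
  rw [Finset.sum_comm]

theorem isSaito_one : IsSaito (∅ : Finset (Fin ℓ → K)) (fun _ => 0)
    (1 : Matrix (Fin ℓ) (Fin ℓ) (S K ℓ)) where
  hom i j := by
    rw [Matrix.one_apply]
    split_ifs
    · exact isHomogeneous_one _ _
    · exact isHomogeneous_zero _ _ _
  log i b hb := absurd hb (Finset.notMem_empty b)
  det := ⟨1, one_ne_zero, by rw [Matrix.det_one, Qof, Finset.prod_empty, C_1, one_mul]⟩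

theorem norm_empty : Tame.Norm (∅ : Finset (Fin ℓ → K)) where
  ne b hb := absurd hb (Finset.notMem_empty b)
  ind b hb := absurd hb (Finset.notMem_empty b)

/-- alternating arrays are combinations of the elementary ones -/
theorem alt_eq {p : ℕ} {f : (Fin p → Fin ℓ) → S K ℓ} (hf : IsAlt f) :
    ∃ c : (Fin p ↪o Fin ℓ) → S K ℓ,
      f = ∑ I, c I • minor (1 : Matrix (Fin ℓ) (Fin ℓ) (S K ℓ)) I := by
  refine (Minors.thm K ℓ ∅ norm_empty _ _ isSaito_one p).2.2 f ?_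
  rw [Trans.mem_logA]
  exact ⟨hf, fun b hb => absurd hb (Finset.notMem_empty b)⟩

theorem isAlt_comb {p : ℕ} (c : (Fin p ↪o Fin ℓ) → S K ℓ) :
    IsAlt (∑ I, c I • minor (1 : Matrix (Fin ℓ) (Fin ℓ) (S K ℓ)) I) := by
  have h : (∑ I, c I • minor (1 : Matrix (Fin ℓ) (Fin ℓ) (S K ℓ)) I) ∈
      LogA (S K ℓ) (∅ : Finset (Fin ℓ → K)) p :=
    Submodule.sum_mem _ fun I _ => Submodule.smul_mem _ _
      ((Minors.thm K ℓ ∅ norm_empty _ _ isSaito_one p).1 I)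
  exact (Trans.mem_logA.1 h).1

section Saito

variable {B0 : Finset (Fin ℓ → K)} (hB : Tame.Norm B0) {d : Fin ℓ → ℕ}
  {θ : Matrix (Fin ℓ) (Fin ℓ) (S K ℓ)} (hS : IsSaito B0 d θ)

include hB hS

theorem Psi_mem {p : ℕ} {f : (Fin p → Fin ℓ) → S K ℓ} (hf : IsAlt f) :
    Psi θ f ∈ LogA (S K ℓ) B0 p := by
  obtain ⟨c, rfl⟩ := alt_eq hf
  rw [Psi_sum]
  refine Submodule.sum_mem _ fun I _ => Submodule.smul_mem _ _ ?_
  rw [Psi_minor]
  exact (Minors.thm K ℓ B0 hB d θ hS p).1 I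

theorem Psi_surj {p : ℕ} {a : (Fin p → Fin ℓ) → S K ℓ} (ha : a ∈ LogA (S K ℓ) B0 p) :
    ∃ f : (Fin p → Fin ℓ) → S K ℓ, IsAlt f ∧ a = Psi θ f := by
  obtain ⟨c, rfl⟩ := (Minors.thm K ℓ B0 hB d θ hS p).2.2 a ha
  refine ⟨_, isAlt_comb c, ?_⟩
  rw [Psi_sum]
  exact Finset.sum_congr rfl fun I _ => by rw [Psi_minor]

theorem Psi_inj {p : ℕ} {f : (Fin p → Fin ℓ) → S K ℓ} (hf : IsAlt f) (h : Psi θ f = 0) :
    f = 0 := by
  obtain ⟨c, rfl⟩ := alt_eq hf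
  rw [Psi_sum] at h
  have h1 : ∑ I, c I • minor θ I = 0 := by
    rw [← h]
    exact Finset.sum_congr rfl fun I _ => by rw [Psi_minor]
  have h2 := Fintype.linearIndependent_iff.1 (Minors.thm K ℓ B0 hB d θ hS p).2.1 c h1
  exact Finset.sum_eq_zero fun I _ => by rw [h2 I, zero_smul]

/-- exactness of the contraction with `lam` -/
theorem exact_con {lam : Fin ℓ → K}
    (hg : CX42.Reg72 (fun i => ∑ j, C (lam j) * θ i j)) {p : ℕ}
    {z : (Fin (p + 1) → Fin ℓ) → S K ℓ} (hz : z ∈ Zs B0 (cv lam) (p + 1)) :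
    ∃ y ∈ LogA (S K ℓ) B0 (p + 2), con (cv lam) y = z := by
  obtain ⟨hz1, hz2⟩ := mem_Zs_succ.1 hz
  obtain ⟨f, hf, rfl⟩ := Psi_surj hB hS hz1
  rw [con_Psi] at hz2
  have h1 := Psi_inj hB hS (isAlt_con _ hf) hz2
  obtain ⟨b, hb, hbf⟩ := CX42.koszul72 (fun i => ∑ j, C (lam j) * θ i j) hg p f hf h1
  refine ⟨Psi θ b, Psi_mem hB hS hb, ?_⟩
  rw [con_Psi]
  congr 1

end Saito

end Pool.Agent.Lib.MP_fe1391_co.CX.FP39
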