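import Pool.Agent.Lib.MP_fe1391_co.CX42.FreeB39
import Pool.Agent.Lib.MP_fe1391_co.Thick51.Ser

/-!
# A free arrangement together with one more hyperplane: dimensions
-/

set_option autoImplicit false

namespace Pool.Agent.Lib.MP_fe1391_co.CX.FP39

open MvPolynomial Pool.Agent.Lib.MP_fe1391_co.Tame Pool.Agent.Lib.MP_fe1391_co.Tame.Htpy
open Pool.Agent.Lib.MP_fe1391_co.Thick51

universe u

variable {K : Type u} [Field K] {ℓ : ℕ}

/-- the homogeneous elements of a submodule -/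
noncomputable def hs {κ : Type} (N : Submodule (S K ℓ) (κ → S K ℓ)) (m : ℤ) :
    Submodule K (κ → S K ℓ) :=
  Hm grS (fun _ : κ => 0) m ⊓ N.restrictScalars K

theorem mem_hs {κ : Type} {N : Submodule (S K ℓ) (κ → S K ℓ)} {m : ℤ} {v : κ → S K ℓ} :
    v ∈ hs N m ↔ (∀ w, v w ∈ grS (K := K) (ℓ := ℓ) m) ∧ v ∈ N := by
  unfold hs
  rw [Submodule.mem_inf]
  constructor
  · rintro ⟨h1, h2⟩
    exact ⟨fun w => by have := h1 w; rwa [sub_zero] at this, h2⟩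
  · rintro ⟨h1, h2⟩
    exact ⟨fun w => by show v w ∈ grS (m - 0); rw [sub_zero]; exact h1 w, h2⟩

theorem finite_hs {κ : Type} [Fintype κ] (N : Submodule (S K ℓ) (κ → S K ℓ)) (m : ℤ) :
    Module.Finite K (hs N m) := by
  have := Count.finite_hm (Grad.thmS K ℓ).fin (fun _ : κ => (0 : ℤ)) m
  exact Submodule.finiteDimensional_of_le (inf_le_left : hs N m ≤ Hm grS (fun _ : κ => 0) m)

theorem dm_eq (B : Finset (Fin ℓ → K)) (p : ℕ) (m : ℤ) :
    dm51 B p m = Module.finrank K (hs (LogA (S K ℓ) B p) m) := rfl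

/-- exterior multiplication with the Euler field, as a linear map -/
noncomputable def wl (p : ℕ) : ((Fin p → Fin ℓ) → S K ℓ) →ₗ[K] ((Fin (p + 1) → Fin ℓ) → S K ℓ) where
  toFun u := wedge eu u
  map_add' u v := by
    funext w
    simp only [wedge, Pi.add_apply, mul_add, Finset.sum_add_distrib]
  map_smul' c u := by
    funext w
    simp only [wedge, Pi.smul_apply, RingHom.id_apply, Finset.smul_sum]
    exact Finset.sum_congr rfl fun j _ => by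
      rw [mul_smul_comm, mul_smul_comm]

theorem wedge_eu_gr {p : ℕ} {m : ℤ} {u : (Fin p → Fin ℓ) → S K ℓ}
    (hu : ∀ w, u w ∈ grS (K := K) (ℓ := ℓ) (m - 1)) (w : Fin (p + 1) → Fin ℓ) :
    wedge eu u w ∈ grS (K := K) (ℓ := ℓ) m := by
  refine Submodule.sum_mem _ fun j _ => ?_
  have hX : (eu (w j) : S K ℓ) ∈ grS (K := K) (ℓ := ℓ) 1 := grS_of_hom51 (isHomogeneous_X K (w j))
  have h1 := grS_mul51 hX (hu (j.removeNth w))
  rw [add_sub_cancel] at h1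
  rcases Nat.even_or_odd (j : ℕ) with he | ho
  · rw [he.neg_one_pow, one_mul]
    exact h1
  · rw [ho.neg_one_pow, neg_one_mul]
    exact Submodule.neg_mem _ h1

theorem con_cv_gr (lam : Fin ℓ → K) {p : ℕ} {m : ℤ} {a : (Fin (p + 1) → Fin ℓ) → S K ℓ}
    (ha : ∀ w, a w ∈ grS (K := K) (ℓ := ℓ) m) (w : Fin p → Fin ℓ) :
    con (cv lam) a w ∈ grS (K := K) (ℓ := ℓ) m := by
  rw [con_apply]
  exact Submodule.sum_mem _ fun i _ => C_mul_grS51 _ (ha _)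

section Decomp

variable {B B0 : Finset (Fin ℓ → K)} {lam : Fin ℓ → K}

theorem dim_decomp (hN : Tame.Norm B) (hBB : ∀ b, b ∈ B ↔ b = lam ∨ b ∈ B0) (hl : lam ∉ B0)
    (p : ℕ) (m : ℤ) :
    dm51 B (p + 1) m = Module.finrank K (hs (Zs B0 (cv lam) (p + 1)) m) +
      Module.finrank K (hs (Zs B0 (cv lam) p) (m - 1)) := by
  have hlam : lam ≠ 0 := hN.ne lam ((hBB lam).2 (Or.inl rfl))
  have hne : lin lam ≠ (0 : S K ℓ) := Contr.lin_ne_zero hlam
  have := finite_hs (Zs B0 (cv lam) (p + 1)) m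
  have := finite_hs (Zs B0 (cv lam) p) (m - 1)
  obtain ⟨f, hf⟩ : ∃ f : (hs (Zs B0 (cv lam) (p + 1)) m × hs (Zs B0 (cv lam) p) (m - 1)) →ₗ[K]
      ((Fin (p + 1) → Fin ℓ) → S K ℓ), ∀ x, f x = (x.1 : (Fin (p + 1) → Fin ℓ) → S K ℓ) +
        wedge eu (x.2 : (Fin p → Fin ℓ) → S K ℓ) :=
    ⟨LinearMap.coprod (Submodule.subtype _) (wl p ∘ₗ Submodule.subtype _), fun x => rfl⟩
  have hinj : Function.Injective f := by
    rw [← LinearMap.ker_eq_bot, LinearMap.ker_eq_bot']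
    rintro ⟨⟨z, hz⟩, ⟨u, hu⟩⟩ h
    rw [hf] at h
    simp only at h
    have hz' := (mem_hs.1 hz).2
    have hu' := (mem_hs.1 hu).2
    have h1 : con (cv lam) (z + wedge eu u) = 0 := by rw [h, map_zero]
    rw [map_add, (mem_Zs_succ.1 hz').2, zero_add, con_eu_wedge lam hu'] at h1
    have h2 : u = 0 := by
      funext w
      exact (mul_eq_zero.1 (congrFun h1 w)).resolve_left hne
    subst h2
    rw [CX42.wedge_zero', add_zero] at h
    subst h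
    rfl
  have hrange : LinearMap.range f = hs (LogA (S K ℓ) B (p + 1)) m := by
    apply le_antisymm
    · rintro _ ⟨⟨⟨z, hz⟩, ⟨u, hu⟩⟩, rfl⟩
      rw [hf]
      obtain ⟨hz1, hz2⟩ := mem_hs.1 hz
      obtain ⟨hu1, hu2⟩ := mem_hs.1 hu
      exact mem_hs.2 ⟨fun w => Submodule.add_mem _ (hz1 w) (wedge_eu_gr hu1 w),
        decomp_mem hBB hz2 hu2⟩
    · intro a ha
      obtain ⟨ha1, ha2⟩ := mem_hs.1 ha
      obtain ⟨z, hz, u, hu, rfl, hc⟩ := exists_decomp hN hBB hl ha2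
      have hu1 : ∀ w, u w ∈ grS (K := K) (ℓ := ℓ) (m - 1) := by
        intro w
        apply Contr.lin_mul_mem hlam
        have := con_cv_gr lam ha1 w
        rw [hc] at this
        exact this
      have hz1 : ∀ w, z w ∈ grS (K := K) (ℓ := ℓ) m := by
        intro w
        have h1 := Submodule.sub_mem _ (ha1 w) (wedge_eu_gr hu1 w)
        rwa [Pi.add_apply, add_sub_cancel_right] at h1
      exact ⟨(⟨z, mem_hs.2 ⟨hz1, hz⟩⟩, ⟨u, mem_hs.2 ⟨hu1, hu⟩⟩), hf _⟩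
  rw [dm_eq, ← hrange, LinearMap.finrank_range_of_inj hinj, Module.finrank_prod]

theorem logA_zero (B B0 : Finset (Fin ℓ → K)) : LogA (S K ℓ) B 0 = LogA (S K ℓ) B0 0 := by
  ext a
  rw [Trans.mem_logA, Trans.mem_logA]
  exact ⟨fun h => ⟨h.1, fun _ _ _ j => j.elim0⟩, fun h => ⟨h.1, fun _ _ _ j => j.elim0⟩⟩

end Decomp

section Exact

variable {B0 : Finset (Fin ℓ → K)} (hB : Tame.Norm B0) {d : Fin ℓ → ℕ}
  {θ : Matrix (Fin ℓ) (Fin ℓ) (S K ℓ)} (hS : IsSaito B0 d θ) {lam : Fin ℓ → K}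
  (hg : CX42.Reg72 (fun i => ∑ j, C (lam j) * θ i j))

include hB hS hg

theorem exact_gr {p : ℕ} {m : ℤ} {z : (Fin (p + 1) → Fin ℓ) → S K ℓ}
    (hz : z ∈ hs (Zs B0 (cv lam) (p + 1)) m) :
    ∃ y ∈ hs (LogA (S K ℓ) B0 (p + 2)) m, con (cv lam) y = z := by
  obtain ⟨hz1, hz2⟩ := mem_hs.1 hz
  obtain ⟨y, hy, hyz⟩ := exact_con hB hS hg hz2
  obtain ⟨s, c, hc, rfl⟩ := GrLog.thm K ℓ B0 (p + 2) y hy
  have hcg : ∀ n ∈ s, ∀ w, con (cv lam) (c n) w ∈ grS (K := K) (ℓ := ℓ) n := by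
    intro n hn w
    refine con_cv_gr lam (fun w => ?_) w
    have := (hc n hn).2 w
    rwa [sub_zero] at this
  have h1 : ∀ w, z w = if m ∈ s then con (cv lam) (c m) w else 0 := by
    intro w
    have h2 : Grad.pS m (z w) = z w := by
      rw [Grad.pS_of_mem (hz1 w), if_pos rfl]
    rw [← h2, ← hyz, map_sum, Finset.sum_apply, map_sum]
    have h3 : ∀ n ∈ s, Grad.pS m (con (cv lam) (c n) w) =
        if m = n then con (cv lam) (c n) w else 0 := fun n hn => Grad.pS_of_mem (hcg n hn w) m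
    rw [Finset.sum_congr rfl h3, Finset.sum_ite_eq]
  by_cases hm : m ∈ s
  · refine ⟨c m, mem_hs.2 ⟨fun w => ?_, (hc m hm).1⟩, ?_⟩
    · have := (hc m hm).2 w
      rwa [sub_zero] at this
    · funext w
      rw [h1 w, if_pos hm]
  · refine ⟨0, Submodule.zero_mem _, ?_⟩
    funext w
    rw [h1 w, if_neg hm, map_zero]
    rfl

theorem dim_exact (p : ℕ) (m : ℤ) :
    dm51 B0 (p + 2) m = Module.finrank K (hs (Zs B0 (cv lam) (p + 2)) m) +
      Module.finrank K (hs (Zs B0 (cv lam) (p + 1)) m) := by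
  have := finite_hs (LogA (S K ℓ) B0 (p + 2)) m
  obtain ⟨T, hT⟩ : ∃ T : hs (LogA (S K ℓ) B0 (p + 2)) m →ₗ[K]
      ((Fin (p + 1) → Fin ℓ) → S K ℓ), ∀ x, T x = con (cv lam)
        (x : (Fin (p + 2) → Fin ℓ) → S K ℓ) :=
    ⟨((con (cv lam)).restrictScalars K) ∘ₗ Submodule.subtype _, fun x => rfl⟩
  have hrange : LinearMap.range T = hs (Zs B0 (cv lam) (p + 1)) m := by
    apply le_antisymm
    · rintro _ ⟨⟨y, hy⟩, rfl⟩
      rw [hT]
      obtain ⟨hy1, hy2⟩ := mem_hs.1 hy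
      exact mem_hs.2 ⟨fun w => con_cv_gr lam hy1 w, con_mem_Zs _ hy2⟩
    · intro z hz
      obtain ⟨y, hy, hyz⟩ := exact_gr hB hS hg hz
      exact ⟨⟨y, hy⟩, by rw [hT]; exact hyz⟩
  have hle : hs (Zs B0 (cv lam) (p + 2)) m ≤ hs (LogA (S K ℓ) B0 (p + 2)) m := by
    intro z hz
    obtain ⟨h1, h2⟩ := mem_hs.1 hz
    exact mem_hs.2 ⟨h1, Zs_le _ _ _ h2⟩
  have hker : LinearMap.ker T = (hs (Zs B0 (cv lam) (p + 2)) m).comap
      (hs (LogA (S K ℓ) B0 (p + 2)) m).subtype := by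
    ext ⟨y, hy⟩
    rw [LinearMap.mem_ker, hT, Submodule.mem_comap]
    obtain ⟨hy1, hy2⟩ := mem_hs.1 hy
    constructor
    · intro h
      exact mem_hs.2 ⟨hy1, mem_Zs_succ.2 ⟨hy2, h⟩⟩
    · intro h
      exact (mem_Zs_succ.1 (mem_hs.1 h).2).2
  have h1 := LinearMap.finrank_range_add_finrank_ker T
  rw [hrange, hker, (Submodule.comapSubtypeEquivOfLe hle).finrank_eq] at h1
  rw [dm_eq, ← h1, add_comm]

end Exact

/-- the Hilbert series of the kernels -/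
noncomputable def zet (B0 : Finset (Fin ℓ → K)) (lam : Fin ℓ → K) (p : ℕ) : PowerSeries ℤ :=
  PowerSeries.mk fun k : ℕ => ((Module.finrank K (hs (Zs B0 (cv lam) p) (k : ℤ)) : ℕ) : ℤ)

theorem hs_neg {κ : Type} (N : Submodule (S K ℓ) (κ → S K ℓ)) {m : ℤ} (hm : m < 0) :
    hs N m = ⊥ := by
  rw [eq_bot_iff]
  intro v hv
  rw [Submodule.mem_bot]
  funext w
  exact grS_neg51 hm ((mem_hs.1 hv).1 w)

theorem zet_zero (B0 : Finset (Fin ℓ → K)) (lam : Fin ℓ → K) : zet B0 lam 0 = DS51 B0 0 := rfl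

theorem zet_zero' (B B0 : Finset (Fin ℓ → K)) (lam : Fin ℓ → K) :
    DS51 B 0 = zet B0 lam 0 := by
  ext k
  rw [DS51, PowerSeries.coeff_mk, zet, PowerSeries.coeff_mk, dm_eq]
  have h : LogA (S K ℓ) B 0 = Zs B0 (cv lam) 0 := logA_zero B B0
  rw [h]

theorem ser_decomp {B B0 : Finset (Fin ℓ → K)} {lam : Fin ℓ → K} (hN : Tame.Norm B)
    (hBB : ∀ b, b ∈ B ↔ b = lam ∨ b ∈ B0) (hl : lam ∉ B0) (p : ℕ) :
    DS51 B (p + 1) = zet B0 lam (p + 1) + PowerSeries.X * zet B0 lam p := by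
  ext k
  rw [map_add, DS51, PowerSeries.coeff_mk, dim_decomp hN hBB hl p k, zet, PowerSeries.coeff_mk]
  push_cast
  congr 1
  cases k with
  | zero =>
    rw [PowerSeries.coeff_zero_X_mul, hs_neg _ (by norm_num), finrank_bot]
    rfl
  | succ k =>
    rw [PowerSeries.coeff_succ_X_mul, zet, PowerSeries.coeff_mk]
    have : ((k + 1 : ℕ) : ℤ) - 1 = (k : ℤ) := by push_cast; ring
    rw [this]

theorem ser_exact {B0 : Finset (Fin ℓ → K)} (hB : Tame.Norm B0) {d : Fin ℓ → ℕ}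
    {θ : Matrix (Fin ℓ) (Fin ℓ) (S K ℓ)} (hS : IsSaito B0 d θ) {lam : Fin ℓ → K}
    (hg : CX42.Reg72 (fun i => ∑ j, C (lam j) * θ i j)) (p : ℕ) :
    DS51 B0 (p + 2) = zet B0 lam (p + 2) + zet B0 lam (p + 1) := by
  ext k
  rw [map_add, DS51, PowerSeries.coeff_mk, dim_exact hB hS hg p k, zet, PowerSeries.coeff_mk,
    zet, PowerSeries.coeff_mk]
  push_cast
  rfl

theorem zet_big {B0 : Finset (Fin ℓ → K)} (hℓ : 1 ≤ ℓ) (hB : Tame.Norm B0) {d : Fin ℓ → ℕ}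
    {θ : Matrix (Fin ℓ) (Fin ℓ) (S K ℓ)} (hS : IsSaito B0 d θ) {lam : Fin ℓ → K}
    (hg : CX42.Reg72 (fun i => ∑ j, C (lam j) * θ i j)) (p : ℕ) (hp : ℓ ≤ p) :
    zet B0 lam p = 0 := by
  obtain ⟨q, rfl⟩ : ∃ q, p = q + 1 := ⟨p - 1, by omega⟩
  have h1 := ser_exact hB hS hg q
  rw [DS_big51 B0 (by omega)] at h1
  ext k
  have h2 := congrArg (PowerSeries.coeff k) h1
  rw [map_add, zet, PowerSeries.coeff_mk, zet, PowerSeries.coeff_mk, map_zero] at h2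
  rw [zet, PowerSeries.coeff_mk, map_zero]
  omega

end Pool.Agent.Lib.MP_fe1391_co.CX.FP39
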