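import Mathlib

/-!
# Polynomials in two groups of variables
-/

set_option autoImplicit false

namespace Pool.Agent.Lib.MP_fe1391_co.CX42
open MvPolynomial

section Iter

variable {K : Type*} [Field K] {ρ σ τ : Type*} (φ : ρ ≃ σ ⊕ τ)

/-- polynomials in two groups of variables -/
noncomputable def itr81 : MvPolynomial ρ K ≃ₐ[K] MvPolynomial τ (MvPolynomial σ K) :=
  (renameEquiv K (φ.trans (Equiv.sumComm σ τ))).trans (sumAlgEquiv K τ σ)

theorem itr_inl81 (s : σ) : itr81 (K := K) φ (X (φ.symm (Sum.inl s))) = C (X s) := by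
  simp [itr81]

theorem itr_inr81 (t : τ) : itr81 (K := K) φ (X (φ.symm (Sum.inr t))) = X t := by
  simp [itr81]

theorem itr_rename_inl81 (f : MvPolynomial σ K) :
    itr81 φ (rename (fun s => φ.symm (Sum.inl s)) f) = C f := by
  have h : (itr81 (K := K) φ : MvPolynomial ρ K →ₐ[K] _).comp
      (rename (fun s => φ.symm (Sum.inl s))) =
      IsScalarTower.toAlgHom K (MvPolynomial σ K) (MvPolynomial τ (MvPolynomial σ K)) := by
    apply algHom_ext
    intro s
    simpa [algebraMap_eq] using itr_inl81 φ s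
  exact congrArg (fun g => g f) h

theorem itr_rename_inr81 (ν : τ →₀ ℕ) :
    itr81 (K := K) φ (rename (fun t => φ.symm (Sum.inr t)) (monomial ν 1)) = monomial ν 1 := by
  rw [monomial_eq, monomial_eq]
  simp only [C_1, one_mul, map_finsuppProd, map_pow, rename_X, itr_inr81]

/-- joining two exponents -/
noncomputable def jm81 (μ : σ →₀ ℕ) (ν : τ →₀ ℕ) : ρ →₀ ℕ :=
  μ.mapDomain (fun s => φ.symm (Sum.inl s)) + ν.mapDomain (fun t => φ.symm (Sum.inr t))

theorem jm_inl81 (μ : σ →₀ ℕ) (ν : τ →₀ ℕ) (s : σ) : jm81 φ μ ν (φ.symm (Sum.inl s)) = μ s := by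
  unfold jm81
  rw [Finsupp.add_apply, Finsupp.mapDomain_apply (fun a b h => by simpa using h),
    Finsupp.mapDomain_of_notMem_range, add_zero]
  rintro ⟨t, ht⟩
  simp at ht

theorem jm_inr81 (μ : σ →₀ ℕ) (ν : τ →₀ ℕ) (t : τ) : jm81 φ μ ν (φ.symm (Sum.inr t)) = ν t := by
  unfold jm81
  rw [Finsupp.add_apply, Finsupp.mapDomain_of_notMem_range,
    Finsupp.mapDomain_apply (fun a b h => by simpa using h), zero_add]
  rintro ⟨s, hs⟩
  simp at hs

theorem jm_inj81 {μ μ' : σ →₀ ℕ} {ν ν' : τ →₀ ℕ} (h : jm81 φ μ ν = jm81 φ μ' ν') :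
    μ = μ' ∧ ν = ν' := by
  constructor
  · ext s
    rw [← jm_inl81 φ μ ν s, h, jm_inl81]
  · ext t
    rw [← jm_inr81 φ μ ν t, h, jm_inr81]

theorem jm_surj81 (κ : ρ →₀ ℕ) : ∃ μ ν, κ = jm81 φ μ ν := by
  have h1 : Function.Injective fun s : σ => φ.symm (Sum.inl s) := fun a b h => by simpa using h
  have h2 : Function.Injective fun t : τ => φ.symm (Sum.inr t) := fun a b h => by simpa using h
  refine ⟨κ.comapDomain (fun s => φ.symm (Sum.inl s)) h1.injOn,
    κ.comapDomain (fun t => φ.symm (Sum.inr t)) h2.injOn, ?_⟩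
  ext r
  obtain ⟨x, rfl⟩ := φ.symm.surjective r
  rcases x with s | t
  · rw [jm_inl81, Finsupp.comapDomain_apply]
  · rw [jm_inr81, Finsupp.comapDomain_apply]

theorem degree_jm81 (μ : σ →₀ ℕ) (ν : τ →₀ ℕ) : (jm81 φ μ ν).degree = μ.degree + ν.degree := by
  unfold jm81
  rw [map_add, Finsupp.degree_mapDomain, Finsupp.degree_mapDomain]

theorem itr_monomial81 (μ : σ →₀ ℕ) (ν : τ →₀ ℕ) (r : K) :
    itr81 φ (monomial (jm81 φ μ ν) r) = monomial ν (monomial μ r) := by
  have h : monomial (jm81 φ μ ν) r = rename (fun s => φ.symm (Sum.inl s)) (monomial μ r) *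
      rename (fun t => φ.symm (Sum.inr t)) (monomial ν 1) := by
    rw [rename_monomial, rename_monomial, monomial_mul, mul_one]
    rfl
  rw [h, map_mul, itr_rename_inl81, itr_rename_inr81, C_mul_monomial, mul_one]

theorem coeff_itr81 (f : MvPolynomial ρ K) (μ : σ →₀ ℕ) (ν : τ →₀ ℕ) :
    coeff μ (coeff ν (itr81 φ f)) = coeff (jm81 φ μ ν) f := by
  classical
  induction f using MvPolynomial.induction_on' with
  | monomial κ r =>
    obtain ⟨μ', ν', rfl⟩ := jm_surj81 φ κ
    rw [itr_monomial81, coeff_monomial, coeff_monomial]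
    by_cases h : ν' = ν
    · rw [if_pos h, coeff_monomial]
      by_cases h2 : μ' = μ
      · rw [if_pos h2, if_pos (by rw [h, h2])]
      · rw [if_neg h2, if_neg fun h3 => h2 (jm_inj81 φ h3).1]
    · rw [if_neg h, coeff_zero, if_neg fun h3 => h (jm_inj81 φ h3).2]
  | add p q hp hq => rw [map_add, coeff_add, coeff_add, hp, hq, coeff_add]

theorem homog_itr81 {f : MvPolynomial ρ K} {k a : ℕ} (hf : f.IsHomogeneous k) (ν : τ →₀ ℕ)
    (h : a + ν.degree = k) : (coeff ν (itr81 φ f)).IsHomogeneous a := by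
  intro μ hμ
  rw [coeff_itr81] at hμ
  have h1 := hf hμ
  have e : ∀ (x : ρ →₀ ℕ), Finsupp.weight (1 : ρ → ℕ) x = x.degree := fun x =>
    (DFunLike.congr_fun (Finsupp.degree_eq_weight_one (R := ℕ)) x).symm
  have e' : ∀ (x : σ →₀ ℕ), Finsupp.weight (1 : σ → ℕ) x = x.degree := fun x =>
    (DFunLike.congr_fun (Finsupp.degree_eq_weight_one (R := ℕ)) x).symm
  rw [e, degree_jm81] at h1
  rw [e']
  omega

theorem itr_dvd81 (g : MvPolynomial σ K) (f : MvPolynomial ρ K) :
    rename (fun s => φ.symm (Sum.inl s)) g ∣ f ↔ ∀ ν, g ∣ coeff ν (itr81 φ f) := by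
  rw [← C_dvd_iff_dvd_coeff, ← itr_rename_inl81 φ g]
  constructor
  · intro h
    exact map_dvd (itr81 φ) h
  · intro h
    have := map_dvd (itr81 φ).symm h
    simpa using this

end Iter
end Pool.Agent.Lib.MP_fe1391_co.CX42
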