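import Pool.Agent.Lib.MP_fe1391_co.CX42.StProd81
import Pool.Agent.Lib.MP_fe1391_co.CX42.Iter81

/-!
# Logarithmic conditions of a product of arrangements
-/

set_option autoImplicit false

namespace Pool.Agent.Lib.MP_fe1391_co.CX42

open MvPolynomial Pool.Agent.Lib.MP_fe1391_co.Tame Pool.Agent.Lib.MP_fe1391_co.Thick51

universe u

section Sets

variable {m n : ℕ}

/-- joining two subsets -/
def jn81 (I : Finset (Fin m)) (J : Finset (Fin n)) : Finset (Fin (m + n)) :=
  (I.disjSum J).map finSumFinEquiv.toEmbedding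

theorem mem_jn81 {I : Finset (Fin m)} {J : Finset (Fin n)} {x : Fin (m + n)} :
    x ∈ jn81 I J ↔ finSumFinEquiv.symm x ∈ I.disjSum J := by
  unfold jn81
  rw [Finset.mem_map_equiv]

theorem mem_jn_left81 {I : Finset (Fin m)} {J : Finset (Fin n)} {s : Fin m} :
    Fin.castAdd n s ∈ jn81 I J ↔ s ∈ I := by
  rw [mem_jn81, finSumFinEquiv_symm_apply_castAdd, Finset.inl_mem_disjSum]

theorem mem_jn_right81 {I : Finset (Fin m)} {J : Finset (Fin n)} {t : Fin n} :
    Fin.natAdd m t ∈ jn81 I J ↔ t ∈ J := by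
  rw [mem_jn81, finSumFinEquiv_symm_apply_natAdd, Finset.inr_mem_disjSum]

theorem ext_jn81 {X Y : Finset (Fin (m + n))}
    (h1 : ∀ s : Fin m, Fin.castAdd n s ∈ X ↔ Fin.castAdd n s ∈ Y)
    (h2 : ∀ t : Fin n, Fin.natAdd m t ∈ X ↔ Fin.natAdd m t ∈ Y) : X = Y := by
  ext x
  refine Fin.addCases (fun s => h1 s) (fun t => h2 t) x

theorem card_jn81 (I : Finset (Fin m)) (J : Finset (Fin n)) :
    (jn81 I J).card = I.card + J.card := by
  unfold jn81
  rw [Finset.card_map, Finset.card_disjSum]

theorem jn_surj81 (X : Finset (Fin (m + n))) : ∃ I J, X = jn81 (m := m) (n := n) I J := by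
  classical
  refine ⟨Finset.univ.filter fun s => Fin.castAdd n s ∈ X,
    Finset.univ.filter fun t => Fin.natAdd m t ∈ X, ext_jn81 (fun s => ?_) fun t => ?_⟩
  · rw [mem_jn_left81]
    simp
  · rw [mem_jn_right81]
    simp

theorem compl_jn81 (I : Finset (Fin m)) (J : Finset (Fin n)) : (jn81 I J)ᶜ = jn81 Iᶜ Jᶜ :=
  ext_jn81 (fun s => by rw [Finset.mem_compl, mem_jn_left81, mem_jn_left81, Finset.mem_compl])
    fun t => by rw [Finset.mem_compl, mem_jn_right81, mem_jn_right81, Finset.mem_compl]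

theorem insert_left81 (s : Fin m) (I : Finset (Fin m)) (J : Finset (Fin n)) :
    insert (Fin.castAdd n s) (jn81 I J) = jn81 (insert s I) J := by
  refine ext_jn81 (fun s' => ?_) fun t => ?_
  · rw [Finset.mem_insert, mem_jn_left81, mem_jn_left81, Finset.mem_insert]
    simp
  · rw [Finset.mem_insert, mem_jn_right81, mem_jn_right81]
    have : Fin.natAdd m t ≠ Fin.castAdd n s := by
      intro h
      have := congrArg Fin.val h
      simp at this
      omega
    simp [this]

theorem insert_right81 (t : Fin n) (I : Finset (Fin m)) (J : Finset (Fin n)) :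
    insert (Fin.natAdd m t) (jn81 I J) = jn81 I (insert t J) := by
  refine ext_jn81 (fun s => ?_) fun t' => ?_
  · rw [Finset.mem_insert, mem_jn_left81, mem_jn_left81]
    have : Fin.castAdd n s ≠ Fin.natAdd m t := by
      intro h
      have := congrArg Fin.val h
      simp at this
      omega
    simp [this]
  · rw [Finset.mem_insert, mem_jn_right81, mem_jn_right81, Finset.mem_insert]
    simp

theorem sum_jn81 {M : Type*} [AddCommMonoid M] (I : Finset (Fin m)) (J : Finset (Fin n))
    (f : Fin (m + n) → M) :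
    ∑ x ∈ jn81 I J, f x = ∑ s ∈ I, f (Fin.castAdd n s) + ∑ t ∈ J, f (Fin.natAdd m t) := by
  unfold jn81
  rw [Finset.sum_map, Finset.sum_disjSum]
  simp

theorem eps_left81 (s : Fin m) (I : Finset (Fin m)) (J : Finset (Fin n)) :
    eps81 (Fin.castAdd n s) (jn81 I J) = eps81 s I := by
  unfold eps81
  have h : (jn81 I J).filter (fun j => j < Fin.castAdd n s) =
      jn81 (I.filter fun j => j < s) ∅ := by
    refine ext_jn81 (fun s' => ?_) fun t => ?_
    · rw [Finset.mem_filter, mem_jn_left81, mem_jn_left81, Finset.mem_filter, Fin.lt_def,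
        Fin.lt_def, Fin.val_castAdd, Fin.val_castAdd]
    · rw [Finset.mem_filter, mem_jn_right81, mem_jn_right81]
      have : ¬ Fin.natAdd m t < Fin.castAdd n s := by
        intro h
        have := Fin.lt_def.1 h
        simp at this
        omega
      simp [this]
  rw [h, card_jn81, Finset.card_empty, add_zero]

theorem eps_right81 (t : Fin n) (I : Finset (Fin m)) (J : Finset (Fin n)) :
    eps81 (Fin.natAdd m t) (jn81 I J) = (-1) ^ I.card * eps81 t J := by
  unfold eps81
  have h : (jn81 I J).filter (fun j => j < Fin.natAdd m t) =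
      jn81 I (J.filter fun j => j < t) := by
    refine ext_jn81 (fun s => ?_) fun t' => ?_
    · rw [Finset.mem_filter, mem_jn_left81, mem_jn_left81]
      have : Fin.castAdd n s < Fin.natAdd m t := by
        rw [Fin.lt_def]
        simp
        omega
      simp [this]
    · rw [Finset.mem_filter, mem_jn_right81, mem_jn_right81, Finset.mem_filter]
      simp
  rw [h, card_jn81, pow_add]

end Sets

section Log

variable {K : Type u} [Field K] {m n : ℕ}

/-- the two groups of variables -/
def phL81 (m n : ℕ) : Fin (m + n) ≃ Fin m ⊕ Fin n := finSumFinEquiv.symm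

/-- the two groups of variables, in the other order -/
def phR81 (m n : ℕ) : Fin (m + n) ≃ Fin n ⊕ Fin m := finSumFinEquiv.symm.trans (Equiv.sumComm _ _)

theorem jm_comm81 (μ : Fin m →₀ ℕ) (ν : Fin n →₀ ℕ) :
    jm81 (phR81 m n) ν μ = jm81 (phL81 m n) μ ν := by
  unfold jm81
  exact add_comm _ _

/-- the column of a function on subsets -/
noncomputable def colm81 (c : Finset (Fin (m + n)) → S K (m + n)) (J : Finset (Fin n))
    (ν : Fin n →₀ ℕ) (I : Finset (Fin m)) : S K m := coeff ν (itr81 (phL81 m n) (c (jn81 I J)))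

/-- the row of a function on subsets -/
noncomputable def roww81 (c : Finset (Fin (m + n)) → S K (m + n)) (I : Finset (Fin m))
    (μ : Fin m →₀ ℕ) (J : Finset (Fin n)) : S K n := coeff μ (itr81 (phR81 m n) (c (jn81 I J)))

theorem coeff_colm81 (c : Finset (Fin (m + n)) → S K (m + n)) (J : Finset (Fin n))
    (ν : Fin n →₀ ℕ) (I : Finset (Fin m)) (μ : Fin m →₀ ℕ) :
    coeff μ (colm81 c J ν I) = coeff (jm81 (phL81 m n) μ ν) (c (jn81 I J)) :=
  coeff_itr81 _ _ _ _

theorem coeff_roww81 (c : Finset (Fin (m + n)) → S K (m + n)) (J : Finset (Fin n))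
    (ν : Fin n →₀ ℕ) (I : Finset (Fin m)) (μ : Fin m →₀ ℕ) :
    coeff ν (roww81 c I μ J) = coeff (jm81 (phL81 m n) μ ν) (c (jn81 I J)) := by
  rw [← jm_comm81]
  exact coeff_itr81 _ _ _ _

theorem itr_C_mul81 {ρ σ τ : Type*} (φ : ρ ≃ σ ⊕ τ) (a : K) (f : MvPolynomial ρ K)
    (ν : τ →₀ ℕ) : coeff ν (itr81 φ (C a * f)) = C a * coeff ν (itr81 φ f) := by
  have h : itr81 (K := K) φ (C a) = C (C a) := by
    have := itr_rename_inl81 φ (C a : MvPolynomial σ K)
    rwa [rename_C] at this
  rw [map_mul, h, coeff_C_mul]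

theorem lin_left81 (b : Fin m → K) : lin (Fin.append b (0 : Fin n → K)) =
    rename (fun s => (phL81 m n).symm (Sum.inl s)) (lin b) := by
  unfold lin
  rw [Fin.sum_univ_add, map_sum]
  have h2 : ∑ t : Fin n, C (Fin.append b (0 : Fin n → K) (Fin.natAdd m t)) *
      (X (Fin.natAdd m t) : S K (m + n)) = 0 := by
    refine Finset.sum_eq_zero fun t _ => ?_
    rw [Fin.append_right, Pi.zero_apply, C_0, zero_mul]
  rw [h2, add_zero]
  refine Finset.sum_congr rfl fun s _ => ?_
  rw [map_mul, rename_C, rename_X, Fin.append_left]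
  rfl

theorem lin_right81 (b : Fin n → K) : lin (Fin.append (0 : Fin m → K) b) =
    rename (fun t => (phR81 m n).symm (Sum.inl t)) (lin b) := by
  unfold lin
  rw [Fin.sum_univ_add, map_sum]
  have h2 : ∑ t : Fin m, C (Fin.append (0 : Fin m → K) b (Fin.castAdd n t)) *
      (X (Fin.castAdd n t) : S K (m + n)) = 0 := by
    refine Finset.sum_eq_zero fun t _ => ?_
    rw [Fin.append_left, Pi.zero_apply, C_0, zero_mul]
  rw [h2, zero_add]
  refine Finset.sum_congr rfl fun s _ => ?_
  rw [map_mul, rename_C, rename_X, Fin.append_right]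
  rfl

theorem fcon_left81 (b : Fin m → K) (c : Finset (Fin (m + n)) → S K (m + n))
    (I : Finset (Fin m)) (J : Finset (Fin n)) (ν : Fin n →₀ ℕ) :
    coeff ν (itr81 (phL81 m n) (fcon81 (Fin.append b 0) c (jn81 I J))) =
      fcon81 b (colm81 c J ν) I := by
  unfold fcon81
  rw [compl_jn81, sum_jn81]
  have h2 : ∑ t ∈ Jᶜ, eps81 (Fin.natAdd m t) (jn81 I J) •
      (C (Fin.append b (0 : Fin n → K) (Fin.natAdd m t)) *
        c (insert (Fin.natAdd m t) (jn81 I J))) = 0 := by
    refine Finset.sum_eq_zero fun t _ => ?_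
    rw [Fin.append_right, Pi.zero_apply, C_0, zero_mul, smul_zero]
  rw [h2, add_zero, map_sum, coeff_sum]
  refine Finset.sum_congr rfl fun s _ => ?_
  rw [map_zsmul, coeff_smul, Fin.append_left, itr_C_mul81, eps_left81, insert_left81]
  rfl

theorem fcon_right81 (b : Fin n → K) (c : Finset (Fin (m + n)) → S K (m + n))
    (I : Finset (Fin m)) (J : Finset (Fin n)) (μ : Fin m →₀ ℕ) :
    coeff μ (itr81 (phR81 m n) (fcon81 (Fin.append 0 b) c (jn81 I J))) =
      ((-1) ^ I.card : ℤ) • fcon81 b (roww81 c I μ) J := by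
  unfold fcon81
  rw [compl_jn81, sum_jn81]
  have h2 : ∑ t ∈ Iᶜ, eps81 (Fin.castAdd n t) (jn81 I J) •
      (C (Fin.append (0 : Fin m → K) b (Fin.castAdd n t)) *
        c (insert (Fin.castAdd n t) (jn81 I J))) = 0 := by
    refine Finset.sum_eq_zero fun t _ => ?_
    rw [Fin.append_left, Pi.zero_apply, C_0, zero_mul, smul_zero]
  rw [h2, zero_add, map_sum, coeff_sum, Finset.smul_sum]
  refine Finset.sum_congr rfl fun s _ => ?_
  rw [map_zsmul, coeff_smul, Fin.append_right, itr_C_mul81, eps_right81, insert_right81,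
    mul_smul]
  rfl

theorem log_left81 (b : Fin m → K) (c : Finset (Fin (m + n)) → S K (m + n)) :
    (∀ X, lin (Fin.append b (0 : Fin n → K)) ∣ fcon81 (Fin.append b 0) c X) ↔
      ∀ J ν I, lin b ∣ fcon81 b (colm81 c J ν) I := by
  constructor
  · intro h J ν I
    have h1 := h (jn81 I J)
    rw [lin_left81, itr_dvd81] at h1
    rw [← fcon_left81]
    exact h1 ν
  · intro h X
    obtain ⟨I, J, rfl⟩ := jn_surj81 X
    rw [lin_left81, itr_dvd81]
    intro ν
    rw [fcon_left81]
    exact h J ν I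

theorem dvd_sign81 {R : Type*} [CommRing R] (x y : R) (k : ℕ) :
    x ∣ ((-1) ^ k : ℤ) • y ↔ x ∣ y := by
  rcases Nat.even_or_odd k with h | h
  · rw [h.neg_one_pow, one_smul]
  · rw [h.neg_one_pow, neg_smul, one_smul, dvd_neg]

theorem log_right81 (b : Fin n → K) (c : Finset (Fin (m + n)) → S K (m + n)) :
    (∀ X, lin (Fin.append (0 : Fin m → K) b) ∣ fcon81 (Fin.append 0 b) c X) ↔
      ∀ I μ J, lin b ∣ fcon81 b (roww81 c I μ) J := by
  constructor
  · intro h I μ J
    have h1 := h (jn81 I J)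
    rw [lin_right81, itr_dvd81] at h1
    have h2 := h1 μ
    rw [fcon_right81, dvd_sign81] at h2
    exact h2
  · intro h X
    obtain ⟨I, J, rfl⟩ := jn_surj81 X
    rw [lin_right81, itr_dvd81]
    intro μ
    rw [fcon_right81, dvd_sign81]
    exact h I μ J

end Log

end Pool.Agent.Lib.MP_fe1391_co.CX42
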