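import Pool.Agent.Lib.MP_fe1391_co.Quad51.TraD22
import Pool.Agent.Lib.MP_fe1391_co.Quad51.Prod
import Pool.Agent.Lib.MP_fe1391_co.Quad51.CoDiv
import Pool.Agent.Lib.MP_fe1391_co.Quad51.Reg
import Pool.Agent.Lib.MP_fe1391_co.Quad51.CoreA

/-!
# The dual matroid of `K_{3,3}`: four cubic logarithmic derivations
-/

set_option autoImplicit false

namespace Pool.Agent.Lib.MP_fe1391_co.CX12

open MvPolynomial Matrix Pool.Agent.Lib.MP_fe1391_co.Tame Pool.Agent.Lib.MP_fe1391_co.Quad51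
open Pool.Agent.Lib.MP_fe1391_co.Quad51.Tra22

universe u

/-! ### Identities over a commutative ring -/

section Ring

variable {A : Type*} [CommRing A]

/-- the four cubic fields (values on the first three variables; the fourth variable is killed) -/
def tt (a b c d : A) : Fin 4 → Fin 3 → A :=
  ![![a * (-(a * d) - 2 * b * c - 2 * b * d - 2 * c * d - d ^ 2), -(b * (b + d) * (2 * c + d)),
      -(c * (c + d) * (2 * b + d))],
    ![a * c * (a - d), -(b * c * (b + d)), c * (c + d) * (2 * a + c)],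
    ![a * b * (a - d), b * (b + d) * (2 * a + b), -(b * c * (c + d))],
    ![a * (a ^ 2 + 2 * a * b + 2 * a * c + a * d + 2 * b * c), a * b * (b + d), a * c * (c + d)]]

/-- the product of the other eight forms -/
def q8 (a b c d : A) : A :=
  a * b * c * (a + b) * (c + d) * (a + c) * (b + d) * (a + b + c + d)

theorem dot3 (v w : Fin 3 → A) : v ⬝ᵥ w = v 0 * w 0 + v 1 * w 1 + v 2 * w 2 := by
  rw [dotProduct, Fin.sum_univ_three]

theorem tri (x y z : Fin 3 → A) : x ⬝ᵥ (y ⨯₃ z) =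
    x 0 * (y 1 * z 2 - y 2 * z 1) + x 1 * (y 2 * z 0 - y 0 * z 2) +
      x 2 * (y 0 * z 1 - y 1 * z 0) := by
  rw [dot3]
  obtain ⟨h0, h1, h2⟩ := crs51 y z
  rw [h0, h1, h2]

theorem cramer (x y z v : Fin 3 → A) : (x ⬝ᵥ (y ⨯₃ z)) • v =
    (v ⬝ᵥ (y ⨯₃ z)) • x + (x ⬝ᵥ (v ⨯₃ z)) • y + (x ⬝ᵥ (y ⨯₃ v)) • z := by
  rw [tri, tri, tri, tri]
  funext i
  simp only [Pi.smul_apply, Pi.add_apply, smul_eq_mul]
  fin_cases i
  · show _ * v 0 = _ * x 0 + _ * y 0 + _ * z 0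
    ring
  · show _ * v 1 = _ * x 1 + _ * y 1 + _ * z 1
    ring
  · show _ * v 2 = _ * x 2 + _ * y 2 + _ * z 2
    ring

theorem det012 (a b c d : A) :
    tt a b c d 0 ⬝ᵥ (tt a b c d 1 ⨯₃ tt a b c d 2) = 4 * (d * q8 a b c d) := by
  rw [tri]
  simp only [tt, q8, cons_val_zero, cons_val_one, cons_val]
  ring

theorem det013 (a b c d : A) :
    tt a b c d 0 ⬝ᵥ (tt a b c d 1 ⨯₃ tt a b c d 3) = -(4 * (c * q8 a b c d)) := by
  rw [tri]
  simp only [tt, q8, cons_val_zero, cons_val_one, cons_val]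
  ring

theorem det023 (a b c d : A) :
    tt a b c d 0 ⬝ᵥ (tt a b c d 2 ⨯₃ tt a b c d 3) = 4 * (b * q8 a b c d) := by
  rw [tri]
  simp only [tt, q8, cons_val_zero, cons_val_one, cons_val]
  ring

theorem det123 (a b c d : A) :
    tt a b c d 1 ⬝ᵥ (tt a b c d 2 ⨯₃ tt a b c d 3) = -(4 * (a * q8 a b c d)) := by
  rw [tri]
  simp only [tt, q8, cons_val_zero, cons_val_one, cons_val]
  ring

theorem rel (a b c d : A) :
    a • tt a b c d 0 + b • tt a b c d 1 + c • tt a b c d 2 + d • tt a b c d 3 = 0 := by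
  funext i
  fin_cases i
  · simp only [tt, Pi.add_apply, Pi.smul_apply, smul_eq_mul, cons_val_zero, cons_val_one, cons_val,
      Fin.zero_eta, Pi.zero_apply]
    ring
  · simp only [tt, Pi.add_apply, Pi.smul_apply, smul_eq_mul, cons_val_zero, cons_val_one, cons_val,
      Fin.mk_one, Pi.zero_apply]
    ring
  · simp only [tt, Pi.add_apply, Pi.smul_apply, smul_eq_mul, cons_val_zero, cons_val_one, cons_val,
      Fin.reduceFinMk, Pi.zero_apply]
    ring

/-- divisibility of the eight sums -/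
theorem dvd_tt (a b c d : A) (n : Fin 4) :
    (a ∣ tt a b c d n 0) ∧ (b ∣ tt a b c d n 1) ∧ (c ∣ tt a b c d n 2) ∧
    (a + b ∣ tt a b c d n 0 + tt a b c d n 1) ∧ (c + d ∣ tt a b c d n 2) ∧
    (a + c ∣ tt a b c d n 0 + tt a b c d n 2) ∧ (b + d ∣ tt a b c d n 1) ∧
    (a + b + c + d ∣ tt a b c d n 0 + tt a b c d n 1 + tt a b c d n 2) := by
  fin_cases n
  · simp only [tt, Fin.zero_eta, cons_val_zero, cons_val_one, cons_val]
    exact ⟨⟨-(a * d) - 2 * b * c - 2 * b * d - 2 * c * d - d ^ 2, by ring⟩,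
      ⟨-(2 * b * c) - b * d - 2 * c * d - d ^ 2, by ring⟩,
      ⟨-(2 * b * c) - 2 * b * d - c * d - d ^ 2, by ring⟩,
      ⟨-(a * d) - 2 * b * c - b * d - 2 * c * d - d ^ 2, by ring⟩,
      ⟨c * (-(2 * b) - d), by ring⟩,
      ⟨-(a * d) - 2 * b * c - 2 * b * d - c * d - d ^ 2, by ring⟩,
      ⟨-(2 * b * c) - b * d, by ring⟩,
      ⟨-(a * d) - 2 * b * c - b * d - c * d, by ring⟩⟩
  · simp only [tt, Fin.mk_one, cons_val_zero, cons_val_one, cons_val]
    exact ⟨⟨a * c - c * d, by ring⟩, ⟨-(b * c) - c * d, by ring⟩,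
      ⟨2 * a * c + 2 * a * d + c ^ 2 + c * d, by ring⟩, ⟨a * c - b * c - c * d, by ring⟩,
      ⟨2 * a * c + c ^ 2, by ring⟩, ⟨a * c + c ^ 2 + c * d, by ring⟩, ⟨-(b * c), by ring⟩,
      ⟨a * c - b * c + c ^ 2, by ring⟩⟩
  · simp only [tt, Fin.reduceFinMk, cons_val_zero, cons_val_one, cons_val]
    exact ⟨⟨a * b - b * d, by ring⟩, ⟨2 * a * b + 2 * a * d + b ^ 2 + b * d, by ring⟩,
      ⟨-(b * c) - b * d, by ring⟩, ⟨a * b + b ^ 2 + b * d, by ring⟩, ⟨-(b * c), by ring⟩,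
      ⟨a * b - b * c - b * d, by ring⟩, ⟨2 * a * b + b ^ 2, by ring⟩,
      ⟨a * b + b ^ 2 - b * c, by ring⟩⟩
  · simp only [tt, Fin.reduceFinMk, cons_val_zero, cons_val_one, cons_val]
    exact ⟨⟨a ^ 2 + 2 * a * b + 2 * a * c + a * d + 2 * b * c, by ring⟩,
      ⟨a * b + a * d, by ring⟩, ⟨a * c + a * d, by ring⟩,
      ⟨a ^ 2 + a * b + 2 * a * c + a * d, by ring⟩, ⟨a * c, by ring⟩,
      ⟨a ^ 2 + 2 * a * b + a * c + a * d, by ring⟩, ⟨a * b, by ring⟩,
      ⟨a ^ 2 + a * b + a * c, by ring⟩⟩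

end Ring

/-! ### The arrangement -/

/-- the nine forms -/
def bz : Fin 9 → Fin 4 → ℤ :=
  ![![0, 0, 0, 1], ![1, 0, 0, 0], ![0, 1, 0, 0], ![0, 0, 1, 0], ![1, 1, 0, 0], ![0, 0, 1, 1],
    ![1, 0, 1, 0], ![0, 1, 0, 1], ![1, 1, 1, 1]]

section Arr

variable (K : Type u) [Field K]

/-- the nine forms over `K` -/
def bv (i : Fin 9) : Fin 4 → K := fun j => (bz i j : K)

open scoped Classical in
/-- the arrangement (dual matroid of `K_{3,3}`) -/
noncomputable def B9 : Finset (Fin 4 → K) := Finset.univ.image (bv K)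

theorem bz_minor : ∀ i j : Fin 9, i ≠ j → ∃ p q : Fin 4,
    bz i p * bz j q - bz i q * bz j p = 1 ∨ bz i p * bz j q - bz i q * bz j p = -1 := by
  decide

theorem bz_one : ∀ i : Fin 9, ∃ p : Fin 4, bz i p = 1 := by
  decide

theorem bv_ne (i : Fin 9) : bv K i ≠ 0 := by
  obtain ⟨p, hp⟩ := bz_one i
  intro h
  have := congrFun h p
  rw [bv, hp, Int.cast_one] at this
  exact one_ne_zero this

theorem bv_ind {i j : Fin 9} (hij : i ≠ j) (c : K) : bv K j ≠ c • bv K i := by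
  intro h
  obtain ⟨p, q, hpq⟩ := bz_minor i j hij
  have h1 : (bz j p : K) = c * (bz i p : K) := congrFun h p
  have h2 : (bz j q : K) = c * (bz i q : K) := congrFun h q
  have h3 : ((bz i p * bz j q - bz i q * bz j p : ℤ) : K) = 0 := by
    push_cast
    rw [h1, h2]
    ring
  rcases hpq with h4 | h4
  · rw [h4, Int.cast_one] at h3
    exact one_ne_zero h3
  · rw [h4, Int.cast_neg, Int.cast_one, neg_eq_zero] at h3
    exact one_ne_zero h3

theorem bv_inj : Function.Injective (bv K) := by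
  intro i j h
  by_contra hij
  exact bv_ind K hij 1 (by rw [one_smul, h])

theorem mem_B9 {b : Fin 4 → K} : b ∈ B9 K ↔ ∃ i, bv K i = b := by
  classical
  unfold B9
  simp

theorem norm9 : Tame.Norm (B9 K) := by
  refine ⟨fun b hb => ?_, fun a ha b hb hab c => ?_⟩
  · obtain ⟨i, rfl⟩ := (mem_B9 K).1 hb
    exact bv_ne K i
  · obtain ⟨i, rfl⟩ := (mem_B9 K).1 ha
    obtain ⟨j, rfl⟩ := (mem_B9 K).1 hb
    exact bv_ind K (fun h => hab (by rw [h])) c

theorem mem0 : bv K 0 ∈ B9 K := (mem_B9 K).2 ⟨0, rfl⟩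

theorem piv0 : bv K 0 3 ≠ 0 := by
  have : bv K 0 3 = 1 := by
    simp [bv, bz]
  rw [this]
  exact one_ne_zero

/-- the data -/
noncomputable abbrev dd : Dat K (Br (B9 K) (bv K 0)).card :=
  dat (B9 K) (norm9 K) (bv K 0) (mem0 K) 3 (piv0 K)

theorem mem_Br9 {b : Fin 4 → K} : b ∈ Br (B9 K) (bv K 0) ↔ ∃ i : Fin 8, bv K i.succ = b := by
  rw [mem_Br, mem_B9]
  constructor
  · rintro ⟨h, i, rfl⟩
    have hi : i ≠ 0 := fun h' => h (by rw [h'])
    exact ⟨i.pred hi, by rw [Fin.succ_pred]⟩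
  · rintro ⟨i, rfl⟩
    exact ⟨fun h => Fin.succ_ne_zero i (bv_inj K h), i.succ, rfl⟩

theorem Br9_eq [DecidableEq (Fin 4 → K)] :
    Br (B9 K) (bv K 0) = Finset.univ.image (fun i : Fin 8 => bv K i.succ) := by
  ext b
  rw [mem_Br9]
  simp

theorem inj8 : Function.Injective (fun i : Fin 8 => bv K i.succ) :=
  fun _ _ h => Fin.succ_injective _ (bv_inj K h)

theorem card8 : (Br (B9 K) (bv K 0)).card = 8 := by
  classical
  rw [Br9_eq, Finset.card_image_of_injective _ (inj8 K)]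
  rfl

/-- the fields -/
noncomputable def T (i : Fin 4) : Fin 3 → S K 4 := tt (X 0) (X 1) (X 2) (X 3) i

/-- the product -/
noncomputable def Q : S K 4 := q8 (X 0) (X 1) (X 2) (X 3)

theorem lin_bv (i : Fin 9) : lin (bv K i) = (bz i 0 : S K 4) * X 0 + (bz i 1 : S K 4) * X 1 +
    (bz i 2 : S K 4) * X 2 + (bz i 3 : S K 4) * X 3 := by
  rw [lin, Fin.sum_univ_four]
  simp only [bv, map_intCast]

theorem Qd9 : Qd (dd K) = Q K := by
  classical
  rw [Qd_dat, Qof, Br9_eq, Finset.prod_image (fun i _ j _ h => inj8 K h)]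
  simp only [Fin.prod_univ_succ, Fin.prod_univ_zero, lin_bv, bz, Q, q8]
  simp [Fin.succ_one_eq_two]
  ring

theorem al9 (i : Fin 9) : al (bv K 0) 3 (bv K i) = fun j : Fin 3 => bv K i j.castSucc := by
  funext j
  have h1 : (3 : Fin 4).succAbove j = j.castSucc := by
    fin_cases j <;> rfl
  have h2 : bv K 0 j.castSucc = 0 := by
    fin_cases j <;> simp [bv, bz]
  rw [al, h1, h2, zero_div, mul_zero, sub_zero]

theorem dot_al (i : Fin 9) (v : Fin 3 → S K 4) : cv 4 (al (bv K 0) 3 (bv K i)) ⬝ᵥ v =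
    (bz i 0 : S K 4) * v 0 + (bz i 1 : S K 4) * v 1 + (bz i 2 : S K 4) * v 2 := by
  rw [al9, dot3]
  simp only [cv, bv, map_intCast]
  rfl

theorem T_mem (n : Fin 4) : T K n ∈ L1 (dd K) := by
  rw [mem_L1]
  intro b hb
  obtain ⟨i, rfl⟩ := (mem_Br9 K).1 hb
  rw [dot_al, lin_bv]
  obtain ⟨h1, h2, h3, h4, h5, h6, h7, h8⟩ := dvd_tt (X 0 : S K 4) (X 1) (X 2) (X 3) n
  fin_cases i
  · simpa [bz, T] using h1
  · simpa [bz, T] using h2
  · simpa [bz, T] using h3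
  · simpa [bz, T] using h4
  · simpa [bz, T] using h5
  · simpa [bz, T] using h6
  · simpa [bz, T] using h7
  · simpa [bz, T] using h8

end Arr

end Pool.Agent.Lib.MP_fe1391_co.CX12
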