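import Pool.Agent.Lib.MP_fe1391_co.CX42.K33A12

/-!
# The dual matroid of `K_{3,3}`: structure of `L1` and `L2`
-/

set_option autoImplicit false

namespace Pool.Agent.Lib.MP_fe1391_co.CX12

open MvPolynomial Matrix Pool.Agent.Lib.MP_fe1391_co.Tame Pool.Agent.Lib.MP_fe1391_co.Quad51
open Pool.Agent.Lib.MP_fe1391_co.Quad51.Tra22

universe u

section Ring

variable {A : Type*} [CommRing A]

theorem tswap (x y z : Fin 3 → A) : y ⬝ᵥ (x ⨯₃ z) = -(x ⬝ᵥ (y ⨯₃ z)) := by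
  rw [tri, tri]
  ring

theorem trot (x y z : Fin 3 → A) : z ⬝ᵥ (x ⨯₃ y) = x ⬝ᵥ (y ⨯₃ z) := by
  rw [tri, tri]
  ring

theorem trot' (x y z : Fin 3 → A) : y ⬝ᵥ (z ⨯₃ x) = x ⬝ᵥ (y ⨯₃ z) := by
  rw [tri, tri]
  ring

theorem tzero (x y : Fin 3 → A) : x ⬝ᵥ (x ⨯₃ y) = 0 := by
  rw [tri]
  ring

theorem tzero' (x y : Fin 3 → A) : y ⬝ᵥ (x ⨯₃ y) = 0 := by
  rw [tri]
  ring

theorem cramer2 (x y z w : Fin 3 → A) : (x ⬝ᵥ (y ⨯₃ z)) • w =
    (x ⬝ᵥ w) • (y ⨯₃ z) + (y ⬝ᵥ w) • (z ⨯₃ x) + (z ⬝ᵥ w) • (x ⨯₃ y) := by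
  rw [tri, dot3, dot3, dot3]
  obtain ⟨a0, a1, a2⟩ := crs51 y z
  obtain ⟨b0, b1, b2⟩ := crs51 z x
  obtain ⟨c0, c1, c2⟩ := crs51 x y
  funext i
  fin_cases i
  · show _ * w 0 = _ * (y ⨯₃ z) 0 + _ * (z ⨯₃ x) 0 + _ * (x ⨯₃ y) 0
    rw [a0, b0, c0]
    ring
  · show _ * w 1 = _ * (y ⨯₃ z) 1 + _ * (z ⨯₃ x) 1 + _ * (x ⨯₃ y) 1
    rw [a1, b1, c1]
    ring
  · show _ * w 2 = _ * (y ⨯₃ z) 2 + _ * (z ⨯₃ x) 2 + _ * (x ⨯₃ y) 2
    rw [a2, b2, c2]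
    ring

end Ring

/-! ### The abstract argument -/

section Kit

variable {A : Type*} [CommRing A]

/-- four vectors with one relation and prescribed minors -/
structure Kit (x : Fin 4 → A) (Q u : A) (T : Fin 4 → Fin 3 → A)
    (M N : Submodule A (Fin 3 → A)) : Prop where
  hu : 4 * u = 1
  Q0 : Q ≠ 0
  x0 : x 0 ≠ 0
  x1 : x 1 ≠ 0
  r2 : ∀ a b, x 1 * a = x 0 * b → ∃ c, a = x 0 * c
  r3 : ∀ a b c, x 2 * a = x 0 * b + x 1 * c → ∃ p q, a = x 0 * p + x 1 * q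
  d012 : T 0 ⬝ᵥ (T 1 ⨯₃ T 2) = 4 * (x 3 * Q)
  d013 : T 0 ⬝ᵥ (T 1 ⨯₃ T 3) = -(4 * (x 2 * Q))
  d023 : T 0 ⬝ᵥ (T 2 ⨯₃ T 3) = 4 * (x 1 * Q)
  d123 : T 1 ⬝ᵥ (T 2 ⨯₃ T 3) = -(4 * (x 0 * Q))
  rel : x 0 • T 0 + x 1 • T 1 + x 2 • T 2 + x 3 • T 3 = 0
  mem : ∀ i, T i ∈ M
  cr : ∀ y ∈ M, ∀ z ∈ M, y ⨯₃ z ∈ N
  dv : ∀ y ∈ M, ∀ w ∈ N, Q ∣ y ⬝ᵥ w
  cd : ∀ g : Fin 3 → A, x 0 • g ∈ N → x 1 • g ∈ N → g ∈ N

variable [IsDomain A] {x : Fin 4 → A} {Q u : A} {T : Fin 4 → Fin 3 → A}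
  {M N : Submodule A (Fin 3 → A)}

/-- cancellation for vectors -/
theorem vcan {f : A} (hf : f ≠ 0) {v w : Fin 3 → A} (h : f • v = f • w) : v = w :=
  funext fun i => mul_left_cancel₀ hf (congrFun h i)

theorem Kit.four_ne (k : Kit x Q u T M N) : (4 : A) ≠ 0 := by
  intro h
  have := k.hu
  rw [h, zero_mul] at this
  exact one_ne_zero this.symm

omit [IsDomain A] in
theorem Kit.dv3 (k : Kit x Q u T M N) {a b c : Fin 3 → A} (ha : a ∈ M) (hb : b ∈ M)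
    (hc : c ∈ M) : ∃ f, a ⬝ᵥ (b ⨯₃ c) = Q * f := k.dv a ha _ (k.cr b hb c hc)

theorem Kit.ex0 (k : Kit x Q u T M N) {v : Fin 3 → A} (hv : v ∈ M) :
    ∃ e : Fin 4 → A, x 0 • v = e 0 • T 0 + e 1 • T 1 + e 2 • T 2 + e 3 • T 3 := by
  obtain ⟨f1, h1⟩ := k.dv3 hv (k.mem 2) (k.mem 3)
  obtain ⟨f2, h2⟩ := k.dv3 (k.mem 1) hv (k.mem 3)
  obtain ⟨f3, h3⟩ := k.dv3 (k.mem 1) (k.mem 2) hv
  have h := cramer (T 1) (T 2) (T 3) v
  rw [k.d123, h1, h2, h3] at h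
  refine ⟨![0, -(u * f1), -(u * f2), -(u * f3)], vcan (f := -(4 * Q))
    (neg_ne_zero.2 (mul_ne_zero k.four_ne k.Q0)) ?_⟩
  have e1 : (-(4 * Q)) • (x 0 • v) = (-(4 * (x 0 * Q))) • v := by
    rw [smul_smul]
    congr 1
    ring
  rw [e1, h]
  have hu := k.hu
  funext i
  simp only [Pi.add_apply, Pi.smul_apply, smul_eq_mul, cons_val_zero, cons_val_one, cons_val]
  linear_combination (-(Q * (f1 * T 1 i + f2 * T 2 i + f3 * T 3 i))) * hu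

theorem Kit.ex1 (k : Kit x Q u T M N) {v : Fin 3 → A} (hv : v ∈ M) :
    ∃ e : Fin 4 → A, x 1 • v = e 0 • T 0 + e 1 • T 1 + e 2 • T 2 + e 3 • T 3 := by
  obtain ⟨f1, h1⟩ := k.dv3 hv (k.mem 2) (k.mem 3)
  obtain ⟨f2, h2⟩ := k.dv3 (k.mem 0) hv (k.mem 3)
  obtain ⟨f3, h3⟩ := k.dv3 (k.mem 0) (k.mem 2) hv
  have h := cramer (T 0) (T 2) (T 3) v
  rw [k.d023, h1, h2, h3] at h
  refine ⟨![u * f1, 0, u * f2, u * f3], vcan (f := 4 * Q)
    (mul_ne_zero k.four_ne k.Q0) ?_⟩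
  have e1 : (4 * Q) • (x 1 • v) = (4 * (x 1 * Q)) • v := by
    rw [smul_smul]
    congr 1
    ring
  rw [e1, h]
  have hu := k.hu
  funext i
  simp only [Pi.add_apply, Pi.smul_apply, smul_eq_mul, cons_val_zero, cons_val_one, cons_val]
  linear_combination (-(Q * (f1 * T 0 i + f2 * T 2 i + f3 * T 3 i))) * hu

theorem Kit.relations (k : Kit x Q u T M N) {e : Fin 4 → A}
    (h : e 0 • T 0 + e 1 • T 1 + e 2 • T 2 + e 3 • T 3 = 0) :
    ∃ c, ∀ i, e i = x i * c := by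
  have hQ : (4 * Q) ≠ 0 := mul_ne_zero k.four_ne k.Q0
  have l : ∀ w : Fin 3 → A, e 0 * (T 0 ⬝ᵥ w) + e 1 * (T 1 ⬝ᵥ w) + e 2 * (T 2 ⬝ᵥ w) +
      e 3 * (T 3 ⬝ᵥ w) = 0 := by
    intro w
    have := congrArg (fun v => v ⬝ᵥ w) h
    simp only [add_dotProduct, smul_dotProduct, smul_eq_mul, zero_dotProduct] at this
    exact this
  have k1 : x 1 * e 0 = x 0 * e 1 := by
    have := l (T 2 ⨯₃ T 3)
    rw [k.d023, k.d123, tzero, tzero'] at this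
    apply mul_left_cancel₀ hQ
    linear_combination this
  have k2 : x 2 * e 0 = x 0 * e 2 := by
    have := l (T 1 ⨯₃ T 3)
    rw [k.d013, tswap (T 1) (T 2) (T 3), k.d123, tzero, tzero'] at this
    apply mul_left_cancel₀ hQ
    linear_combination (-1 : A) * this
  have k3 : x 3 * e 0 = x 0 * e 3 := by
    have := l (T 1 ⨯₃ T 2)
    rw [k.d012, trot (T 1) (T 2) (T 3), k.d123, tzero, tzero'] at this
    apply mul_left_cancel₀ hQ
    linear_combination this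
  obtain ⟨c, hc⟩ := k.r2 _ _ k1
  refine ⟨c, fun i => ?_⟩
  have hX := k.x0
  fin_cases i
  · exact hc
  · apply mul_left_cancel₀ hX
    show x 0 * e 1 = x 0 * (x 1 * c)
    rw [← k1, hc]
    ring
  · apply mul_left_cancel₀ hX
    show x 0 * e 2 = x 0 * (x 2 * c)
    rw [← k2, hc]
    ring
  · apply mul_left_cancel₀ hX
    show x 0 * e 3 = x 0 * (x 3 * c)
    rw [← k3, hc]
    ring

theorem Kit.span1 (k : Kit x Q u T M N) {v : Fin 3 → A} (hv : v ∈ M) :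
    ∃ e : Fin 4 → A, v = e 0 • T 0 + e 1 • T 1 + e 2 • T 2 + e 3 • T 3 := by
  obtain ⟨a, ha⟩ := k.ex0 hv
  obtain ⟨b, hb⟩ := k.ex1 hv
  obtain ⟨c, hc⟩ := k.relations (e := fun i => x 1 * a i - x 0 * b i) (by
    have e1 : x 1 • (x 0 • v) - x 0 • (x 1 • v) = 0 := by
      rw [smul_smul, smul_smul, mul_comm, sub_self]
    rw [ha, hb] at e1
    rw [← e1]
    funext i
    simp only [Pi.add_apply, Pi.sub_apply, Pi.smul_apply, smul_eq_mul]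
    ring)
  obtain ⟨p, q, hpq⟩ := k.r3 c (-b 2) (a 2) (by
    rw [← hc 2]
    ring)
  have hg : ∀ i, ∃ g, a i - q * x i = x 0 * g := by
    intro i
    refine k.r2 _ (b i + p * x i) ?_
    have := hc i
    rw [hpq] at this
    linear_combination this
  choose g hg using hg
  refine ⟨g, vcan k.x0 ?_⟩
  rw [ha]
  have hr := k.rel
  funext i
  have hri := congrFun hr i
  simp only [Pi.add_apply, Pi.smul_apply, smul_eq_mul, Pi.zero_apply] at hri ⊢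
  linear_combination (T 0 i) * hg 0 + (T 1 i) * hg 1 + (T 2 i) * hg 2 + (T 3 i) * hg 3 +
    q * hri

theorem Kit.orth (k : Kit x Q u T M N) {w : Fin 3 → A} (h : ∀ i, T i ⬝ᵥ w = 0) : w = 0 := by
  have := cramer2 (T 1) (T 2) (T 3) w
  rw [k.d123, h 1, h 2, h 3, zero_smul, zero_smul, zero_smul, add_zero, add_zero] at this
  apply vcan (f := -(4 * (x 0 * Q)))
    (neg_ne_zero.2 (mul_ne_zero k.four_ne (mul_ne_zero k.x0 k.Q0)))
  rw [this, smul_zero]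

theorem Kit.ex2 (k : Kit x Q u T M N) {q : Fin 4 → A}
    (hq : x 0 * q 0 + x 1 * q 1 + x 2 * q 2 + x 3 * q 3 = 0) :
    ∃ w ∈ N, ∀ i, T i ⬝ᵥ w = Q * q i := by
  have hr : ∀ w : Fin 3 → A, x 0 * (T 0 ⬝ᵥ w) + x 1 * (T 1 ⬝ᵥ w) +
      x 2 * (T 2 ⬝ᵥ w) + x 3 * (T 3 ⬝ᵥ w) = 0 := by
    intro w
    have := congrArg (fun v => v ⬝ᵥ w) k.rel
    simp only [add_dotProduct, smul_dotProduct, smul_eq_mul, zero_dotProduct] at this
    exact this
  obtain ⟨w0, hw0⟩ : ∃ w0, w0 = q 1 • (T 2 ⨯₃ T 3) + q 2 • (T 3 ⨯₃ T 1) +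
    q 3 • (T 1 ⨯₃ T 2) := ⟨_, rfl⟩
  obtain ⟨w1, hw1⟩ : ∃ w1, w1 = q 0 • (T 2 ⨯₃ T 3) + q 2 • (T 3 ⨯₃ T 0) +
    q 3 • (T 0 ⨯₃ T 2) := ⟨_, rfl⟩
  have m0 : w0 ∈ N := by
    rw [hw0]
    exact Submodule.add_mem _ (Submodule.add_mem _
      (Submodule.smul_mem _ _ (k.cr _ (k.mem 2) _ (k.mem 3)))
      (Submodule.smul_mem _ _ (k.cr _ (k.mem 3) _ (k.mem 1))))
      (Submodule.smul_mem _ _ (k.cr _ (k.mem 1) _ (k.mem 2)))
  have m1 : w1 ∈ N := by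
    rw [hw1]
    exact Submodule.add_mem _ (Submodule.add_mem _
      (Submodule.smul_mem _ _ (k.cr _ (k.mem 2) _ (k.mem 3)))
      (Submodule.smul_mem _ _ (k.cr _ (k.mem 3) _ (k.mem 0))))
      (Submodule.smul_mem _ _ (k.cr _ (k.mem 0) _ (k.mem 2)))
  have a1 : T 1 ⬝ᵥ w0 = -(4 * (x 0 * Q)) * q 1 := by
    rw [hw0, dotProduct_add, dotProduct_add, dotProduct_smul, dotProduct_smul, dotProduct_smul,
      k.d123, tzero', tzero]
    simp only [smul_eq_mul]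
    ring
  have a2 : T 2 ⬝ᵥ w0 = -(4 * (x 0 * Q)) * q 2 := by
    rw [hw0, dotProduct_add, dotProduct_add, dotProduct_smul, dotProduct_smul, dotProduct_smul,
      tzero, trot' (T 1) (T 2) (T 3), k.d123, tzero']
    simp only [smul_eq_mul]
    ring
  have a3 : T 3 ⬝ᵥ w0 = -(4 * (x 0 * Q)) * q 3 := by
    rw [hw0, dotProduct_add, dotProduct_add, dotProduct_smul, dotProduct_smul, dotProduct_smul,
      tzero', tzero, trot (T 1) (T 2) (T 3), k.d123]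
    simp only [smul_eq_mul]
    ring
  have a0 : T 0 ⬝ᵥ w0 = -(4 * (x 0 * Q)) * q 0 := by
    apply mul_left_cancel₀ k.x0
    have := hr w0
    rw [a1, a2, a3] at this
    linear_combination this + (4 * (x 0 * Q)) * hq
  have b0 : T 0 ⬝ᵥ w1 = 4 * (x 1 * Q) * q 0 := by
    rw [hw1, dotProduct_add, dotProduct_add, dotProduct_smul, dotProduct_smul, dotProduct_smul,
      k.d023, tzero', tzero]
    simp only [smul_eq_mul]
    ring
  have b2 : T 2 ⬝ᵥ w1 = 4 * (x 1 * Q) * q 2 := by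
    rw [hw1, dotProduct_add, dotProduct_add, dotProduct_smul, dotProduct_smul, dotProduct_smul,
      tzero, trot' (T 0) (T 2) (T 3), k.d023, tzero']
    simp only [smul_eq_mul]
    ring
  have b3 : T 3 ⬝ᵥ w1 = 4 * (x 1 * Q) * q 3 := by
    rw [hw1, dotProduct_add, dotProduct_add, dotProduct_smul, dotProduct_smul, dotProduct_smul,
      tzero', tzero, trot (T 0) (T 2) (T 3), k.d023]
    simp only [smul_eq_mul]
    ring
  have b1 : T 1 ⬝ᵥ w1 = 4 * (x 1 * Q) * q 1 := by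
    apply mul_left_cancel₀ k.x1
    have := hr w1
    rw [b0, b2, b3] at this
    linear_combination this - (4 * (x 1 * Q)) * hq
  have hi0 : ∀ i, T i ⬝ᵥ w0 = -(4 * (x 0 * Q)) * q i := by
    intro i
    fin_cases i
    · exact a0
    · exact a1
    · exact a2
    · exact a3
  have hi1 : ∀ i, T i ⬝ᵥ w1 = 4 * (x 1 * Q) * q i := by
    intro i
    fin_cases i
    · exact b0
    · exact b1
    · exact b2
    · exact b3
  have hc : x 1 • w0 + x 0 • w1 = 0 := by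
    apply k.orth
    intro i
    rw [dotProduct_add, dotProduct_smul, dotProduct_smul, smul_eq_mul, smul_eq_mul, hi0, hi1]
    ring
  have hg : ∀ j, ∃ g, w0 j = x 0 * g := by
    intro j
    refine k.r2 _ (-(w1 j)) ?_
    have := congrFun hc j
    simp only [Pi.add_apply, Pi.smul_apply, smul_eq_mul, Pi.zero_apply] at this
    linear_combination this
  choose g hg using hg
  have e0 : x 0 • g = w0 := funext fun j => (hg j).symm
  have e1 : x 1 • g = -w1 := by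
    apply vcan k.x0
    rw [smul_comm, e0, smul_neg]
    exact eq_neg_of_add_eq_zero_left hc
  have mg : g ∈ N := by
    refine k.cd g ?_ ?_
    · rw [e0]
      exact m0
    · rw [e1]
      exact Submodule.neg_mem _ m1
  refine ⟨(-u) • g, Submodule.smul_mem _ _ mg, fun i => ?_⟩
  have hi := hi0 i
  rw [← e0, dotProduct_smul, smul_eq_mul] at hi
  rw [dotProduct_smul, smul_eq_mul]
  apply mul_left_cancel₀ k.x0
  have hu := k.hu
  linear_combination (-u) * hi + (x 0 * Q * q i) * hu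

end Kit

variable {K : Type u} [Field K]

theorem Q_ne : Q K ≠ 0 := by
  rw [← Qd9]
  exact (ProdM.thm K _ (dd K)).2.2.2.2.2.1

theorem Q_gr : Q K ∈ grS (K := K) (ℓ := 4) 8 := by
  have h := (ProdM.thm K _ (dd K)).2.2.2.2.2.2
  rw [Qd9] at h
  have h8 : (((Br (B9 K) (bv K 0)).card : ℕ) : ℤ) = 8 := by
    rw [card8]
    rfl
  rwa [h8] at h

theorem X_gr (i : Fin 4) : (X i : S K 4) ∈ grS (K := K) (ℓ := 4) 1 :=
  Thick51.grS_of_hom51 (n := 1) (isHomogeneous_X K i)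

/-- the variables form a regular sequence -/
theorem regX : Reg3 (![X 0, X 1, X 2] : Fin 3 → S K 4) := by
  refine Reg.thm K (0 : Fin 3 → K) 1 _ le_rfl (fun j => ?_) (fun j => ?_)
  · fin_cases j
    · exact X_gr 0
    · exact X_gr 1
    · exact X_gr 2
  · rw [pow_one]
    fin_cases j
    · exact sg_X51 0 0
    · exact sg_X51 0 1
    · exact sg_X51 0 2

theorem reg2 {a b : S K 4} (h : X 1 * a = X 0 * b) : ∃ c, a = X 0 * c := regX.2.1 a b h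

theorem reg3 {a b c : S K 4} (h : X 2 * a = X 0 * b + X 1 * c) : ∃ p q, a = X 0 * p + X 1 * q :=
  regX.2.2 a b c h

theorem X_ne (i : Fin 4) : (X i : S K 4) ≠ 0 := X_ne_zero i

theorem relX : IsRelPrime (X 0 : S K 4) (X 1) := by
  intro g hg0 hg1
  obtain ⟨a0, ha0⟩ := hg0
  obtain ⟨a1, ha1⟩ := hg1
  obtain ⟨c, hc⟩ := reg2 (K := K) (a := a0) (b := a1) (by rw [ha0, ha1]; ring)
  have ha : a0 ≠ 0 := by
    rintro rfl
    rw [mul_zero] at ha0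
    exact X_ne 0 ha0
  have h1 : a0 * (g * c) = a0 * 1 := by
    rw [mul_one]
    conv_rhs => rw [hc, ha0]
    ring
  exact IsUnit.of_mul_eq_one c (mul_left_cancel₀ ha h1)

theorem D012 : T K 0 ⬝ᵥ (T K 1 ⨯₃ T K 2) = 4 * (X 3 * Q K) := det012 _ _ _ _
theorem D013 : T K 0 ⬝ᵥ (T K 1 ⨯₃ T K 3) = -(4 * (X 2 * Q K)) := det013 _ _ _ _
theorem D023 : T K 0 ⬝ᵥ (T K 2 ⨯₃ T K 3) = 4 * (X 1 * Q K) := det023 _ _ _ _
theorem D123 : T K 1 ⬝ᵥ (T K 2 ⨯₃ T K 3) = -(4 * (X 0 * Q K)) := det123 _ _ _ _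

theorem relT : (X 0 : S K 4) • T K 0 + (X 1 : S K 4) • T K 1 + (X 2 : S K 4) • T K 2 +
    (X 3 : S K 4) • T K 3 = 0 := rel _ _ _ _

theorem four (h2 : (2 : K) ≠ 0) : ∃ u : S K 4, 4 * u = 1 := by
  have h4 : (4 : K) ≠ 0 := by
    have : (4 : K) = 2 * 2 := by norm_num
    rw [this]
    exact mul_ne_zero h2 h2
  refine ⟨C ((4 : K)⁻¹), ?_⟩
  have : (4 : S K 4) = C (4 : K) := (map_ofNat C 4).symm
  rw [this, ← C_mul, mul_inv_cancel₀ h4, C_1]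

theorem four_ne (h2 : (2 : K) ≠ 0) : (4 : S K 4) ≠ 0 := by
  obtain ⟨u, hu⟩ := four h2
  intro h
  rw [h, zero_mul] at hu
  exact one_ne_zero hu.symm

theorem Qdvd2 {x w : Fin 3 → S K 4} (hx : x ∈ L1 (dd K)) (hw : w ∈ L2 (dd K)) :
    ∃ f, x ⬝ᵥ w = Q K * f := by
  have h := ProdM.thm K _ (dd K)
  have := h.2.1 x hx w hw
  rw [Qd9] at this
  exact this

theorem kit (h2 : (2 : K) ≠ 0) :
    ∃ u : S K 4, Kit (X : Fin 4 → S K 4) (Q K) u (T K) (L1 (dd K)) (L2 (dd K)) := by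
  obtain ⟨u, hu⟩ := four h2
  exact ⟨u, { hu := hu, Q0 := Q_ne, x0 := X_ne 0, x1 := X_ne 1, r2 := fun _ _ h => reg2 h,
              r3 := fun _ _ _ h => reg3 h, d012 := D012, d013 := D013, d023 := D023,
              d123 := D123, rel := relT, mem := T_mem K,
              cr := (ProdM.thm K _ (dd K)).1, dv := fun _ hy _ hw => Qdvd2 hy hw,
              cd := fun g h0 h1 => (CoDivM.thm K _ (dd K) 0).2.1 (X 0) (X 1) g relX h0 h1 }⟩

/-- the only relation between the four fields -/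
theorem relations (h2 : (2 : K) ≠ 0) {e : Fin 4 → S K 4}
    (h : e 0 • T K 0 + e 1 • T K 1 + e 2 • T K 2 + e 3 • T K 3 = 0) :
    ∃ c, ∀ i, e i = X i * c :=
  (kit h2).choose_spec.relations h

/-- `L1` is generated by the four fields -/
theorem span1 (h2 : (2 : K) ≠ 0) {v : Fin 3 → S K 4} (hv : v ∈ L1 (dd K)) :
    ∃ e : Fin 4 → S K 4, v = e 0 • T K 0 + e 1 • T K 1 + e 2 • T K 2 + e 3 • T K 3 :=
  (kit h2).choose_spec.span1 hv

/-- a vector orthogonal to all fields vanishes -/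
theorem orth (h2 : (2 : K) ≠ 0) {w : Fin 3 → S K 4} (h : ∀ i, T K i ⬝ᵥ w = 0) : w = 0 :=
  (kit h2).choose_spec.orth h

/-- `L2` in terms of the cycles of the Koszul complex -/
theorem ex2 (h2 : (2 : K) ≠ 0) {q : Fin 4 → S K 4}
    (hq : X 0 * q 0 + X 1 * q 1 + X 2 * q 2 + X 3 * q 3 = 0) :
    ∃ w ∈ L2 (dd K), ∀ i, T K i ⬝ᵥ w = Q K * q i :=
  (kit h2).choose_spec.ex2 hq

end Pool.Agent.Lib.MP_fe1391_co.CX12
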