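import Pool.Agent.Lib.MP_fe1391_co.CX42.Num88

/-!
# The counterexample in every dimension at least sixteen: numbers and polynomials
-/

set_option autoImplicit false

namespace Pool.Agent.Lib.MP_fe1391_co.CX42.Num88

open Polynomial

theorem one_add_ne : (1 + X : ℤ[X]) ≠ 0 := by
  rw [← geo2]
  exact geo_ne 1

theorem fk_ne (k : ℕ) : f1 * f2 * (1 + X) ^ k ≠ 0 := mul_ne_zero f_ne (pow_ne_zero _ one_add_ne)

theorem reverse_fk (k : ℕ) : (f1 * f2 * (1 + X) ^ k).reverse = f1 * f2 * (1 + X) ^ k := by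
  rw [reverse_mul_of_domain, reverse_f, reverse_pow, reverse_one_add]

theorem natDegree_fk (k : ℕ) : (f1 * f2 * (1 + X) ^ k).natDegree = 34 + k := by
  have h1 : (1 + X : ℤ[X]).natDegree = 1 := by
    rw [← geo2]
    exact natDegree_geo 1
  rw [natDegree_mul f_ne (pow_ne_zero _ one_add_ne), natDegree_f, natDegree_pow, h1, mul_one]

theorem eval_fk (k : ℕ) : (f1 * f2 * (1 + X) ^ k).eval 1 = 67417920 * 2 ^ k := by
  rw [eval_mul, eval_f, eval_pow, eval_add, eval_one, eval_X]
  norm_num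

theorem pow_bound (e : ℕ) (he : 16 ≤ e) : (e + 1) * 2 ^ 16 ≤ 17 * 2 ^ e := by
  induction e, he using Nat.le_induction with
  | base => norm_num
  | succ e he ih =>
    have h : 2 ^ 16 ≤ (e + 1) * 2 ^ 16 := Nat.le_mul_of_pos_left _ (by omega)
    calc (e + 1 + 1) * 2 ^ 16 = (e + 1) * 2 ^ 16 + 2 ^ 16 := by ring
      _ ≤ 17 * 2 ^ e + 17 * 2 ^ e := Nat.add_le_add ih (h.trans ih)
      _ = 17 * 2 ^ (e + 1) := by ring

/-- the arithmetic behind the product form -/
theorem arithk {ι : Type*} [Fintype ι] [DecidableEq ι] (k : ℕ) (e : ι → ℕ)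
    (h1 : ∏ i, (e i + 1) = 67417920 * 2 ^ k) (h2 : ∑ i, e i = 34 + k) : False := by
  have hp : Nat.Prime 17 := by norm_num
  have hd : 17 ∣ ∏ i, (e i + 1) := by
    rw [h1]
    exact Dvd.dvd.mul_right (by norm_num) _
  obtain ⟨i, -, hi⟩ := (Nat.Prime.prime hp).exists_mem_finset_dvd hd
  have h3 := Finset.add_sum_erase Finset.univ e (Finset.mem_univ i)
  have h4 := Finset.mul_prod_erase Finset.univ (fun i => e i + 1) (Finset.mem_univ i)
  rw [h2] at h3
  rw [h1] at h4
  have hei : 16 ≤ e i := by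
    have := Nat.le_of_dvd (by omega) hi
    omega
  have h7 : ∏ k ∈ Finset.univ.erase i, (e k + 1) ≤ 2 ^ ∑ k ∈ Finset.univ.erase i, e k := by
    rw [← Finset.prod_pow_eq_pow_sum]
    exact Finset.prod_le_prod' fun k _ => Nat.lt_two_pow_self
  have h8 := pow_bound (e i) hei
  have h9 : (67417920 * 2 ^ k) * 2 ^ 16 ≤ 17 * 2 ^ (34 + k) := by
    calc (67417920 * 2 ^ k) * 2 ^ 16 =
        ((e i + 1) * 2 ^ 16) * ∏ k ∈ Finset.univ.erase i, (e k + 1) := by
          rw [← h4]
          ring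
      _ ≤ (17 * 2 ^ e i) * 2 ^ ∑ k ∈ Finset.univ.erase i, e k := Nat.mul_le_mul h8 h7
      _ = 17 * 2 ^ (34 + k) := by
          rw [← h3, pow_add]
          ring
  have h10 : 17 * 2 ^ (34 + k) = (17 * 2 ^ 34) * 2 ^ k := by
    rw [pow_add]
    ring
  have h11 : (67417920 * 2 ^ k) * 2 ^ 16 = (67417920 * 2 ^ 16) * 2 ^ k := by ring
  rw [h10, h11] at h9
  have h12 := Nat.le_of_mul_le_mul_right h9 (by positivity)
  norm_num at h12

/-- the polynomials are not of the product form, for any number of factors -/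
theorem not_productk {ι : Type*} [Fintype ι] (k : ℕ) (e : ι → ℕ) :
    ((f1 * f2 * (1 + X) ^ k : ℤ[X]) : PowerSeries ℤ) ≠
      ∏ i, ∑ j ∈ Finset.range (e i + 1), (PowerSeries.X : PowerSeries ℤ) ^ j := by
  classical
  intro h
  have h1 : ∏ i, ∑ j ∈ Finset.range (e i + 1), (PowerSeries.X : PowerSeries ℤ) ^ j =
      ((∏ i, geo (e i + 1) : ℤ[X]) : PowerSeries ℤ) := by
    have h2 : ∀ n, ((geo n : ℤ[X]) : PowerSeries ℤ) =
        ∑ j ∈ Finset.range n, (PowerSeries.X : PowerSeries ℤ) ^ j := by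
      intro n
      rw [geo, ← Polynomial.coeToPowerSeries.ringHom_apply, map_sum]
      refine Finset.sum_congr rfl fun j _ => ?_
      rw [map_pow, Polynomial.coeToPowerSeries.ringHom_apply, Polynomial.coe_X]
    rw [← Polynomial.coeToPowerSeries.ringHom_apply, map_prod]
    refine Finset.prod_congr rfl fun i _ => ?_
    rw [Polynomial.coeToPowerSeries.ringHom_apply, h2]
  rw [h1] at h
  have h3 : f1 * f2 * (1 + X) ^ k = ∏ i, geo (e i + 1) := Polynomial.coe_injective ℤ h
  refine arithk k e ?_ ?_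
  · have h4 := congrArg (eval 1) h3
    rw [eval_fk, eval_prod] at h4
    simp only [eval_geo] at h4
    have h5 : ((∏ i, (e i + 1) : ℕ) : ℤ) = ((67417920 * 2 ^ k : ℕ) : ℤ) := by
      push_cast
      rw [h4]
      push_cast
      rfl
    exact_mod_cast h5
  · have h4 := congrArg natDegree h3
    rw [natDegree_fk, natDegree_prod _ _ (fun i _ => geo_ne (e i))] at h4
    simp only [natDegree_geo] at h4
    exact h4.symm

end Pool.Agent.Lib.MP_fe1391_co.CX42.Num88
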